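import Pool.Agent.N903.EL.CF

/-!
# The characteristic function of a vector of boundary values
-/

set_option autoImplicit false
set_option linter.unusedSectionVars false

namespace Pool.Agent.N903.EV

open Finset Filter Topology MeasureTheory Pool.Agent.W350.Edge Pool.Agent.N903.ED
  Pool.Agent.N903.EL
open scoped ENNReal ComplexConjugate

/-- The space of the vectors of values. -/
abbrev EE (n : ℕ) : Type := EuclideanSpace ℂ (Fin n)

section
variable (c : ℕ → ℂ) (D : ℝ) (r : ℕ → ℂ → ℂ) (ρ : ℕ → ℝ)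
  (hc : ∀ p, ‖c p‖ ≤ D) (hρ : Summable ρ) (hr : ∀ p x, ‖x‖ = 1 → ‖r p x‖ ≤ ρ p)

include hc hρ hr in
/-- The boundary value is close to the truncated sum. -/
lemma close (hD : 0 ≤ D) (ε η : ℝ) (hε : 0 < ε) (hη : 0 < η) :
    ∃ J₀ : ℕ, ∀ J, J₀ ≤ J → ∀ q : ℝ × ℝ, 1 ≤ q.2 →
      volume {τ : ℝ | τ ∈ Set.Ioc q.1 (q.1 + q.2) ∧ τ ∉ divSet c ∧
        ε ≤ ‖bv c r τ - ts c r (NN 3 J) τ‖} ≤ ENNReal.ofReal (η * q.2) := by
  obtain ⟨J₁, hJ₁⟩ := tail_window D hD (ε / 2) η (by positivity) hη
  have htail : Tendsto (fun N => ∑' p, ρ (p + N)) atTop (𝓝 0) := tendsto_sum_nat_add ρ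
  have h2 : Tendsto (fun J => ∑' p, ρ (p + NN 3 J)) atTop (𝓝 0) := htail.comp (tendsto_NN 3)
  obtain ⟨J₂, hJ₂⟩ := eventually_atTop.1 (h2.eventually (gt_mem_nhds (by positivity : 0 < ε / 2)))
  refine ⟨max J₁ J₂, fun J hJ q hq => ?_⟩
  refine (measure_mono ?_).trans (hJ₁ c hc J ((le_max_left _ _).trans hJ) q.2 hq q.1)
  have hJ2 := hJ₂ J ((le_max_right _ _).trans hJ)
  rintro τ ⟨h3, h4, h5⟩
  refine ⟨h3, h4, ?_⟩
  set N := NN 3 J with hN
  have h6 : bv c r τ - ts c r N τ =
      (lm c τ - ps c τ N) + ∑' p, r (p + N) (ph (p + N) τ) := by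
    rw [ts_eq]
    unfold bv
    have h5 := (summable_rp r ρ hρ hr τ).sum_add_tsum_nat_add N
    rw [← h5]
    ring
  have h7 : ‖∑' p, r (p + N) (ph (p + N) τ)‖ ≤ ∑' p, ρ (p + N) :=
    tsum_of_norm_bounded ((summable_nat_add_iff N).2 hρ).hasSum
      fun p => hr _ _ (norm_ph _ τ)
  rw [h6] at h5
  have h8 := norm_add_le (lm c τ - ps c τ N) (∑' p, r (p + N) (ph (p + N) τ))
  linarith

include hc in
lemma null_div : volume (divSet c) = 0 := by
  have h1 := exc_null (n := 1) (fun _ => c) D (fun _ p => hc p) (fun _ => 0)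
  refine measure_mono_null (fun τ hτ => ?_) h1
  exact Set.mem_iUnion.2 ⟨0, by simpa using hτ⟩

end

section
variable {n : ℕ} (c : Fin n → ℕ → ℂ) (D : ℝ) (r : Fin n → ℕ → ℂ → ℂ) (ρ : Fin n → ℕ → ℝ)

/-- The vector of local functions at `p`. -/
noncomputable def gpv (p : ℕ) (x : ℂ) : EE n := WithLp.toLp 2 fun j => gp (c j) (r j) p x

/-- The vector of boundary values. -/
noncomputable def bvv (τ : ℝ) : EE n := WithLp.toLp 2 fun j => bv (c j) (r j) τ

/-- The truncated sums. -/
noncomputable def tsv (N : ℕ) (τ : ℝ) : EE n := WithLp.toLp 2 fun j => ts (c j) (r j) N τ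

lemma tsv_eq (N : ℕ) (τ : ℝ) : tsv c r N τ = ∑ p ∈ range N, gpv c r p (ph p τ) := by
  unfold tsv gpv ts
  rw [← WithLp.toLp_sum]
  congr 1
  funext j
  rw [Finset.sum_apply]

lemma norm_le_sum (x : EE n) : ‖x‖ ≤ ∑ j, ‖x j‖ := by
  rw [EuclideanSpace.norm_eq]
  have h0 : ∀ j ∈ (univ : Finset (Fin n)), 0 ≤ ‖x j‖ := fun j _ => norm_nonneg _
  refine Real.sqrt_le_iff.2 ⟨sum_nonneg h0, ?_⟩
  rw [sq (∑ j, ‖x j‖), sum_mul]
  refine sum_le_sum fun j hj => ?_
  rw [sq]
  exact mul_le_mul_of_nonneg_left (single_le_sum h0 hj) (norm_nonneg _)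

variable (hc : ∀ j p, ‖c j p‖ ≤ D) (hρ : ∀ j, Summable (ρ j))
  (hr : ∀ j p x, ‖x‖ = 1 → ‖r j p x‖ ≤ ρ j p)
  (hrc : ∀ j p, ContinuousOn (r j p) (Metric.sphere 0 1))
  (hr0 : ∀ j p, ¬ p.Prime → ∀ x, r j p x = 0)

include hrc in
lemma continuous_gpv (p : ℕ) : ContinuousOn (gpv c r p) (Metric.sphere 0 1) := by
  unfold gpv
  have h1 : ContinuousOn (fun x => fun j => gp (c j) (r j) p x) (Metric.sphere 0 1) :=
    continuousOn_pi.2 fun j => continuous_gp (c j) (r j) (hrc j) p
  exact (PiLp.continuous_toLp 2 _).comp_continuousOn h1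

include hc hρ hr hrc in
lemma aem_bvv : AEMeasurable (bvv c r) := by
  have h1 : AEMeasurable fun τ => fun j => bv (c j) (r j) τ :=
    aemeasurable_pi_lambda _ fun j => aem_bv (c j) D (r j) (ρ j) (hc j) (hρ j) (hr j) (hrc j)
  exact (PiLp.continuous_toLp 2 _).measurable.comp_aemeasurable h1

include hrc in
lemma continuous_tsv (N : ℕ) : Continuous (tsv c r N) := by
  unfold tsv
  refine (PiLp.continuous_toLp 2 _).comp (continuous_pi fun j => ?_)
  exact continuous_ts (c j) (r j) (hrc j) N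

/-- The character. -/
noncomputable def chv (t w : EE n) : ℂ := Complex.exp ((inner ℝ w t : ℝ) * Complex.I)

lemma inner_eq (w t : EE n) : (inner ℝ w t : ℝ) = (∑ j, conj (t j) * w j).re := by
  rw [PiLp.inner_apply, Complex.re_sum]
  refine sum_congr rfl fun j _ => ?_
  rw [Complex.inner, ← Complex.conj_re, map_mul, Complex.conj_conj, mul_comm]

lemma norm_chv (t w : EE n) : ‖chv t w‖ = 1 := by
  unfold chv
  exact Complex.norm_exp_ofReal_mul_I _

lemma continuous_chv (t : EE n) : Continuous (chv t) := by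
  unfold chv
  fun_prop

lemma chv_add (t w z : EE n) : chv t (w + z) = chv t w * chv t z := by
  unfold chv
  rw [← Complex.exp_add, inner_add_left]
  congr 1
  push_cast
  ring

lemma chv_zero (t : EE n) : chv t 0 = 1 := by
  unfold chv
  rw [inner_zero_left]
  simp

lemma chv_sum (t : EE n) (s : Finset ℕ) (f : ℕ → EE n) :
    chv t (∑ p ∈ s, f p) = ∏ p ∈ s, chv t (f p) := by
  classical
  induction s using Finset.induction_on with
  | empty => simp [chv_zero]
  | insert a s ha ih => rw [sum_insert ha, prod_insert ha, chv_add, ih]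

lemma chv_lip (t w z : EE n) : ‖chv t w - chv t z‖ ≤ ‖t‖ * ‖w - z‖ := by
  unfold chv
  refine (exp_diff _ _).trans ?_
  rw [← inner_sub_left, mul_comm]
  exact abs_real_inner_le_norm _ _

/-- The local characteristic function. -/
noncomputable def lcv (p : ℕ) (t : EE n) : ℂ := cmean fun θ => chv t (gpv c r p (ee 1 θ))

/-- The characteristic function of the truncated sum. -/
noncomputable def afv (N : ℕ) (t : EE n) : ℂ := ∏ p ∈ (range N).filter Nat.Prime, lcv c r p t

lemma norm_lcv_le (p : ℕ) (t : EE n) : ‖lcv c r p t‖ ≤ 1 :=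
  norm_cmean_le _ fun θ => (norm_chv t _).le

include hrc hr0 in
/-- The mean of the character of the truncated sum. -/
lemma mean_tsv (N : ℕ) (t : EE n) :
    Tendsto (mn fun τ => chv t (tsv c r N τ)) UW (𝓝 (afv c r N t)) := by
  have h1 := prime_mean ((range N).filter Nat.Prime) (fun p hp => (mem_filter.1 hp).2)
    (fun p x => chv t (gpv c r p x))
    (fun p _ => (continuous_chv t).comp_continuousOn (continuous_gpv c r hrc p))
  refine h1.congr fun q => ?_
  congr 1
  funext τ
  rw [tsv_eq, chv_sum, prod_filter]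
  refine prod_congr rfl fun p _ => ?_
  split_ifs with hp
  · rfl
  · have h2 : gpv c r p (ph p τ) = 0 := by
      unfold gpv
      rw [← WithLp.toLp_zero]
      congr 1
      funext j
      unfold gp
      rw [if_neg hp, hr0 j p hp, add_zero]
      rfl
    rw [h2, chv_zero]

include hc hρ hr hrc in
/-- The truncation error, uniformly in all windows. -/
lemma truncv (hD : 0 ≤ D) (ε : ℝ) (hε : 0 < ε) :
    ∃ J₀ : ℕ, ∀ J, J₀ ≤ J → ∀ t : EE n, ∀ q : ℝ × ℝ, 1 ≤ q.2 →
      ‖mn (fun τ => chv t (bvv c r τ)) q - mn (fun τ => chv t (tsv c r (NN 3 J) τ)) q‖ ≤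
        ε * (1 + ‖t‖) := by
  set δ : ℝ := ε / (n + 1) with hδ
  set η : ℝ := ε / (2 * (n + 1)) with hη
  have hn1 : (0 : ℝ) < n + 1 := by positivity
  have hδ0 : 0 < δ := by positivity
  have hη0 : 0 < η := by positivity
  choose J₁ hJ₁ using fun j => close (c j) D (r j) (ρ j) (hc j) (hρ j) (hr j) hD δ η hδ0 hη0
  refine ⟨∑ j, J₁ j, fun J hJ t q hq => ?_⟩
  have hJj : ∀ j, J₁ j ≤ J := fun j =>
    (single_le_sum (f := J₁) (fun _ _ => Nat.zero_le _) (mem_univ j)).trans hJ
  set N := NN 3 J with hN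
  set A : Fin n → Set ℝ := fun j => {τ : ℝ | τ ∈ Set.Ioc q.1 (q.1 + q.2) ∧ τ ∉ divSet (c j) ∧
        δ ≤ ‖bv (c j) (r j) τ - ts (c j) (r j) N τ‖} with hA
  have hAv : ∀ j, volume (A j) ≤ ENNReal.ofReal (η * q.2) := fun j => hJ₁ j J (hJj j) q hq
  set U : Set ℝ := ⋃ j, A j with hU
  set B := toMeasurable volume U with hB
  have hq0 : 0 < q.2 := by linarith
  have hBm : MeasurableSet B := measurableSet_toMeasurable _ _
  have hBv : volume B ≤ ENNReal.ofReal (ε / 2 * q.2) := by
    rw [hB, measure_toMeasurable]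
    refine (measure_iUnion_le _).trans ?_
    rw [tsum_fintype]
    refine (sum_le_sum fun j _ => hAv j).trans ?_
    rw [sum_const, card_univ, Fintype.card_fin, nsmul_eq_mul, ← ENNReal.ofReal_natCast,
      ← ENNReal.ofReal_mul (Nat.cast_nonneg _)]
    refine ENNReal.ofReal_le_ofReal ?_
    have h1 : (n : ℝ) * η ≤ ε / 2 := by
      rw [hη, ← div_div, mul_div_assoc', div_le_iff₀ hn1]
      nlinarith
    calc (n : ℝ) * (η * q.2) = n * η * q.2 := by ring
      _ ≤ _ := mul_le_mul_of_nonneg_right h1 hq0.le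
  have hb1 : AEMeasurable fun τ => chv t (bvv c r τ) :=
    (continuous_chv t).measurable.comp_aemeasurable (aem_bvv c D r ρ hc hρ hr hrc)
  have hi1 : ∀ a b : ℝ, IntervalIntegrable (fun τ => chv t (bvv c r τ)) volume a b := by
    intro a b
    rw [intervalIntegrable_iff]
    exact Measure.integrableOn_of_bounded (M := 1) (by simp) hb1.aestronglyMeasurable
      (Eventually.of_forall fun τ => (norm_chv t _).le)
  have hi2 : ∀ a b : ℝ, IntervalIntegrable (fun τ => chv t (tsv c r N τ)) volume a b := fun a b =>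
    ((continuous_chv t).comp (continuous_tsv c r hrc N)).intervalIntegrable _ _
  rw [← mn_sub _ _ hi1 hi2]
  unfold mn
  rw [norm_smul, norm_inv, Real.norm_of_nonneg hq0.le, inv_mul_le_iff₀ hq0]
  have hae : ∀ᵐ τ : ℝ, ∀ j, τ ∉ divSet (c j) := by
    rw [ae_all_iff]
    exact fun j => measure_eq_zero_iff_ae_notMem.1 (null_div (c j) D (hc j))
  have hbound : ∀ᵐ τ : ℝ, τ ∈ Set.Ioc q.1 (q.1 + q.2) →
      ‖chv t (bvv c r τ) - chv t (tsv c r N τ)‖ ≤ ‖t‖ * ε + B.indicator (fun _ => (2 : ℝ)) τ := by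
    filter_upwards [hae] with τ hτ hτI
    by_cases hτB : τ ∈ B
    · rw [Set.indicator_of_mem hτB]
      have h3 : ‖chv t (bvv c r τ) - chv t (tsv c r N τ)‖ ≤ 2 := by
        refine (norm_sub_le _ _).trans ?_
        rw [norm_chv, norm_chv]
        norm_num
      have : 0 ≤ ‖t‖ * ε := by positivity
      linarith
    · rw [Set.indicator_of_notMem hτB, add_zero]
      refine (chv_lip t _ _).trans (mul_le_mul_of_nonneg_left ?_ (norm_nonneg _))
      refine (norm_le_sum _).trans ?_
      have h3 : ∀ j, ‖(bvv c r τ - tsv c r N τ) j‖ ≤ δ := by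
        intro j
        by_contra h
        push Not at h
        refine hτB (subset_toMeasurable volume U (Set.mem_iUnion.2 ⟨j, hτI, hτ j, ?_⟩))
        exact h.le
      refine (sum_le_sum fun j _ => h3 j).trans ?_
      rw [sum_const, card_univ, Fintype.card_fin, nsmul_eq_mul, hδ, mul_div_assoc',
        div_le_iff₀ hn1]
      nlinarith
  rw [intervalIntegral.integral_of_le (by linarith)]
  have hind : Integrable (B.indicator fun _ => (2 : ℝ))
      (volume.restrict (Set.Ioc q.1 (q.1 + q.2))) := (integrable_const _).indicator hBm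
  refine (norm_integral_le_integral_norm _).trans ?_
  refine (integral_mono_of_nonneg (g := fun τ => ‖t‖ * ε + B.indicator (fun _ => (2 : ℝ)) τ)
    (Eventually.of_forall fun τ => norm_nonneg _)
    ((integrable_const _).add hind) ((ae_restrict_iff' measurableSet_Ioc).2 hbound)).trans ?_
  rw [integral_add (integrable_const _) hind, integral_indicator hBm]
  simp only [integral_const, smul_eq_mul]
  have h6 : (volume.restrict (Set.Ioc q.1 (q.1 + q.2))).real Set.univ = q.2 := by
    rw [measureReal_restrict_apply_univ, Real.volume_real_Ioc_of_le (by linarith)]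
    ring
  have h7 : ((volume.restrict (Set.Ioc q.1 (q.1 + q.2))).restrict B).real Set.univ ≤
      ε / 2 * q.2 := by
    rw [measureReal_restrict_apply_univ]
    have h8 : (volume.restrict (Set.Ioc q.1 (q.1 + q.2))) B ≤ ENNReal.ofReal (ε / 2 * q.2) :=
      (Measure.le_iff'.1 Measure.restrict_le_self B).trans hBv
    unfold Measure.real
    refine (ENNReal.toReal_mono ENNReal.ofReal_ne_top h8).trans (le_of_eq ?_)
    exact ENNReal.toReal_ofReal (by positivity)
  rw [h6]
  nlinarith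

include hc hρ hr hrc hr0 in
/-- **The characteristic function of the boundary values.** -/
theorem exists_phiv (hD : 0 ≤ D) : ∃ φ : EE n → ℂ,
    (∀ t, Tendsto (mn fun τ => chv t (bvv c r τ)) UW (𝓝 (φ t))) ∧
    (∀ t, Tendsto (fun J => afv c r (NN 3 J) t) atTop (𝓝 (φ t))) ∧ ContinuousAt φ 0 := by
  have h1 : ∀ t, ∃ L : ℂ, Tendsto (mn fun τ => chv t (bvv c r τ)) UW (𝓝 L) ∧
      Tendsto (fun J => afv c r (NN 3 J) t) atTop (𝓝 L) := by
    intro t
    refine lim_of_approx (S := fun J => mn fun τ => chv t (tsv c r (NN 3 J) τ))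
      (fun J => mean_tsv c r hrc hr0 (NN 3 J) t) fun ε hε => ?_
    obtain ⟨J₀, hJ₀⟩ := truncv c D r ρ hc hρ hr hrc hD (ε / (1 + ‖t‖)) (by positivity)
    refine ⟨J₀, fun J hJ => ?_⟩
    filter_upwards [tendsto_snd_UW.eventually_ge_atTop 1] with q hq
    have := hJ₀ J hJ t q hq
    rwa [div_mul_cancel₀ _ (by positivity)] at this
  choose φ hφ1 hφ2 using h1
  refine ⟨φ, hφ1, hφ2, ?_⟩
  -- uniform approximation
  have h2 : ∀ ε : ℝ, 0 < ε → ∃ J, ∀ t, ‖φ t - afv c r (NN 3 J) t‖ ≤ ε * (1 + ‖t‖) := by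
    intro ε hε
    obtain ⟨J₀, hJ₀⟩ := truncv c D r ρ hc hρ hr hrc hD ε hε
    refine ⟨J₀, fun t => ?_⟩
    have h3 := ((hφ1 t).sub (mean_tsv c r hrc hr0 (NN 3 J₀) t)).norm
    refine le_of_tendsto h3 ?_
    filter_upwards [tendsto_snd_UW.eventually_ge_atTop 1] with q hq
    exact hJ₀ J₀ le_rfl t q hq
  have hlc : ∀ p, Continuous fun t => lcv c r p t := by
    intro p
    suffices h : Continuous (Function.uncurry fun (t : EE n) (θ : ℝ) =>
        chv t (gpv c r p (ee 1 θ))) by
      have h6 := intervalIntegral.continuous_parametric_intervalIntegral_of_continuous'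
        (μ := volume) h 0 (2 * Real.pi)
      exact h6.const_smul (2 * Real.pi : ℝ)⁻¹
    have h4 : Continuous fun θ => gpv c r p (ee 1 θ) :=
      (continuous_gpv c r hrc p).comp_continuous (continuous_ee 1) fun θ => by
        rw [mem_sphere_zero_iff_norm, norm_ee]
    show Continuous fun z : EE n × ℝ => chv z.1 (gpv c r p (ee 1 z.2))
    unfold chv
    have h5 : Continuous fun z : EE n × ℝ => gpv c r p (ee 1 z.2) := h4.comp continuous_snd
    fun_prop
  have haf : ∀ N, Continuous fun t => afv c r N t := by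
    intro N
    unfold afv
    exact continuous_finsetProd _ fun p _ => hlc p
  have haf0 : ∀ N, afv c r N 0 = 1 := by
    intro N
    unfold afv
    refine prod_eq_one fun p _ => ?_
    unfold lcv cmean chv
    simp only [inner_zero_right, Complex.ofReal_zero, zero_mul, Complex.exp_zero,
      intervalIntegral.integral_const, sub_zero, smul_smul]
    rw [inv_mul_cancel₀ two_pi_pos'.ne', one_smul]
  have hφ0 : φ 0 = 1 := by
    refine tendsto_nhds_unique (hφ2 0) ?_
    simp only [haf0]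
    exact tendsto_const_nhds
  rw [Metric.continuousAt_iff]
  intro ε hε
  obtain ⟨J, hJ⟩ := h2 (ε / 4) (by positivity)
  have hca : ContinuousAt (fun t => afv c r (NN 3 J) t) 0 := (haf (NN 3 J)).continuousAt
  obtain ⟨δ, hδ, hδ'⟩ := Metric.continuousAt_iff.1 hca (ε / 4) (by positivity)
  refine ⟨min δ 1, by positivity, fun {t} ht => ?_⟩
  have ht1 : dist t 0 < δ := ht.trans_le (min_le_left _ _)
  have ht2 : ‖t‖ < 1 := by
    have := ht.trans_le (min_le_right _ _)
    rwa [dist_zero_right] at this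
  have h3 := hδ' ht1
  have h4 := hJ t
  rw [dist_eq_norm, haf0] at h3
  rw [dist_eq_norm, hφ0]
  have h5 : φ t - 1 = (φ t - afv c r (NN 3 J) t) + (afv c r (NN 3 J) t - 1) := by ring
  rw [h5]
  refine (norm_add_le _ _).trans_lt ?_
  nlinarith

include hrc in
/-- A bound by finitely many factors. -/
lemma phiv_le (φ : EE n → ℂ) (hφ : ∀ t, Tendsto (fun J => afv c r (NN 3 J) t) atTop (𝓝 (φ t)))
    (P : Finset ℕ) (hP : ∀ p ∈ P, p.Prime) (t : EE n) : ‖φ t‖ ≤ ∏ p ∈ P, ‖lcv c r p t‖ := by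
  refine le_of_tendsto (hφ t).norm ?_
  filter_upwards [(tendsto_NN 3).eventually_ge_atTop (P.sup id + 1)] with J hJ
  unfold afv
  rw [norm_prod]
  refine Finset.prod_le_prod_of_subset_of_le_one ?_ (fun _ _ => norm_nonneg _)
    (fun p _ _ => norm_lcv_le c r p t)
  intro p hp
  rw [mem_filter, mem_range]
  refine ⟨?_, hP p hp⟩
  have : p ≤ P.sup id := Finset.le_sup (f := id) hp
  omega

end

end Pool.Agent.N903.EV
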