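import Pool.Agent.N903.EV.Joint

/-!
# A criterion for independence
-/

set_option autoImplicit false
set_option linter.unusedSectionVars false

namespace Pool.Agent.N903.EV

open Finset Filter Topology MeasureTheory NumberField IsDedekindDomain
  Pool.Agent.H921R2.TatePole Pool.Agent.H341R2 Pool.Agent.H341R2.EC Pool.Agent.W350.Edge
  Pool.Agent.W350.EdgeV Pool.Agent.W350.EdgeNF Pool.Agent.W350.EdgeEC Pool.Agent.N903.ED
  Pool.Agent.N903.EL

section
variable {K : Type} [Field K] [NumberField K]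
variable (W : WeierstrassCurve (𝓞 K)) (V : Set (HeightOneSpectrum (𝓞 K)))

lemma nm_eq_iff (p : ℕ) (hp : p.Prime) (v : HeightOneSpectrum (𝓞 K)) (hv : v ∈ fib K p) :
    nm v = p ↔ deg v = 1 := by
  have h3 := (mem_fib v p).1 hv
  have h4 := nm_pc v
  rw [h3] at h4
  constructor
  · intro h5
    rw [h5] at h4
    have h7 : p ^ 1 = p ^ deg v := by rw [pow_one]; exact h4
    exact (Nat.pow_right_injective hp.two_le h7).symm
  · intro h5
    rw [h4, h5, pow_one]

lemma cf_sum (p : ℕ) (hp : p.Prime) :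
    cf (N := nm) (an' W V) p = ∑ v ∈ fib K p, if deg v = 1 then an' W V v else 0 := by
  classical
  unfold cf grp
  rw [if_pos hp, ← sum_filter, ← Finset.tsum_subtype']
  have h2 : (((fib K p).filter fun v => deg v = 1 : Finset _) : Set (HeightOneSpectrum (𝓞 K))) =
      nm ⁻¹' {p} := by
    ext v
    rw [mem_coe, mem_filter, Set.mem_preimage, Set.mem_singleton_iff]
    constructor
    · rintro ⟨h, h'⟩
      exact (nm_eq_iff p hp v h).2 h'
    · intro h
      have h1 : v ∈ fib K p := by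
        rw [mem_fib]
        have h3 := nm_pc v
        rw [h] at h3
        have h4 : pc v ∣ p := by
          rw [h3]
          exact dvd_pow_self _ (by have := deg_pos v; omega)
        exact (Nat.prime_dvd_prime_iff_eq (pc_prime v) hp).1 h4
      exact ⟨h1, (nm_eq_iff p hp v h1).1 h⟩
  rw [h2]

variable {W V}

lemma hasDerivAt_ux (v : HeightOneSpectrum (𝓞 K)) :
    HasDerivAt (ux W v) (if deg v = 1 then al W v else 0) 0 := by
  have hd := deg_pos v
  have h1 : HasDerivAt (ux W v) (al W v * ((deg v : ℂ) * 0 ^ (deg v - 1)) -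
      be v * (((2 * deg v : ℕ) : ℂ) * 0 ^ (2 * deg v - 1))) 0 :=
    ((hasDerivAt_pow (deg v) (0 : ℂ)).const_mul _).sub
      ((hasDerivAt_pow (2 * deg v) (0 : ℂ)).const_mul _)
  refine h1.congr_deriv ?_
  rw [zero_pow (by omega : 2 * deg v - 1 ≠ 0), mul_zero, mul_zero, sub_zero]
  split_ifs with h
  · rw [h]
    simp
  · rw [zero_pow (by omega : deg v - 1 ≠ 0), mul_zero, mul_zero]

lemma hasDerivAt_lnx (v : HeightOneSpectrum (𝓞 K)) :
    HasDerivAt (lnx W V v) (if deg v = 1 then an' W V v / nm v else 0) 0 := by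
  by_cases hv : v ∈ V
  · have h1 : lnx W V v = fun x => -Complex.log (1 - ux W v x) := by
      funext x
      unfold lnx
      rw [if_pos hv]
    have h0 : ux W v 0 = 0 := by
      unfold ux
      have := deg_pos v
      rw [zero_pow (by omega), zero_pow (by omega), mul_zero, mul_zero, sub_zero]
    have h2 : HasDerivAt (fun x => 1 - ux W v x) (-(if deg v = 1 then al W v else 0)) 0 :=
      (hasDerivAt_ux v).const_sub 1
    have h3 : (1 - ux W v 0) ∈ Complex.slitPlane := by
      rw [h0, sub_zero]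
      exact Complex.one_mem_slitPlane
    have h4 := (h2.clog h3).neg
    rw [h1]
    refine h4.congr_deriv ?_
    rw [h0, sub_zero, div_one, neg_neg]
    unfold al an'
    rw [if_pos hv]
  · have h1 : lnx W V v = fun x => 0 := by
      funext x
      unfold lnx
      rw [if_neg hv]
    rw [h1]
    refine (hasDerivAt_const (0 : ℂ) (0 : ℂ)).congr_deriv ?_
    unfold an'
    rw [if_neg hv, zero_div, ite_self]

end

section
variable {n : ℕ} {K : Fin n → Type} [∀ j, Field (K j)] [∀ j, NumberField (K j)]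
    (W : ∀ j, WeierstrassCurve (𝓞 (K j))) (V : ∀ j, Set (HeightOneSpectrum (𝓞 (K j))))
    (h : Fin n → ℝ)

/-- A relation holds on the whole disc. -/
lemma zero_on_ball (hV : ∀ j, ∀ v ∈ V j, IsGood (W j) v) (p : ℕ) (hp : p.Prime) (u : Fin n → ℂ)
    (hz : ∀ s : ℂ, (3 / 2 : ℝ) < s.re →
      comb W (fun j => V j ∩ {v | (p : 𝓞 (K j)) ∈ v.asIdeal}) h u s = 0) :
    Set.EqOn (fun x => ∑ j, u j * LJ W V j p (ph p (h j) * x)) (fun _ => 0)
      (Metric.ball (0 : ℂ) 1) := by
  intro y hy
  rw [mem_ball_zero_iff] at hy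
  by_cases hy0 : y = 0
  · subst hy0
    beta_reduce
    unfold LJ
    refine sum_eq_zero fun j _ => ?_
    rw [mul_zero, sum_eq_zero (fun v _ => lnx_zero v), mul_zero]
  · obtain ⟨z, hz0, rfl⟩ := exists_X p hp.two_le y hy0 hy.le
    have hz1 : 0 < z.re := by
      rcases hz0.lt_or_eq with h1 | h1
      · exact h1
      · exfalso
        unfold X at hy
        rw [norm_exp_log z hp.one_le, ← h1, neg_zero, Real.rpow_zero] at hy
        exact lt_irrefl _ hy
    have hre : (((3 / 2 : ℝ) : ℂ) + z).re = 3 / 2 + z.re := by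
      rw [Complex.add_re, Complex.ofReal_re]
    have h1 := hz (((3 / 2 : ℝ) : ℂ) + z) (by rw [hre]; linarith)
    rw [comb_LJ W V h hV p hp u _ (by rw [hre]; linarith)] at h1
    have h2 : ((3 / 2 : ℝ) : ℂ) + z - ((3 / 2 : ℝ) : ℂ) = z := by ring
    rw [h2] at h1
    exact h1

/-- **A criterion for independence.** -/
theorem independent_of_coeff (hV : ∀ j, ∀ v ∈ V j, IsGood (W j) v)
    (hc : ∀ u : Fin n → ℂ, u ≠ 0 → ∀ x : ℕ, ∃ p : ℕ, x ≤ p ∧ p.Prime ∧
      ∑ j, u j * primeCoeff (W j) (V j) p * (p : ℂ) ^ (-(h j * Complex.I)) ≠ 0) :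
    Independent W V h := by
  intro u hu x
  obtain ⟨p, h1, hp, h2⟩ := hc u hu x
  refine ⟨p, h1, hp, ?_⟩
  by_contra hcon
  push Not at hcon
  apply h2
  have h3 := zero_on_ball W V h hV p hp u hcon
  have h4 : HasDerivAt (fun x => ∑ j, u j * LJ W V j p (ph p (h j) * x))
      (∑ j, u j * ((∑ v ∈ fib (K j) p, if deg v = 1 then an' (W j) (V j) v / nm v else 0) *
        ph p (h j))) 0 := by
    refine HasDerivAt.fun_sum fun j _ => HasDerivAt.const_mul _ ?_
    have h5 : HasDerivAt (fun x : ℂ => ph p (h j) * x) (ph p (h j)) 0 := by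
      simpa using (hasDerivAt_id (0 : ℂ)).const_mul (ph p (h j))
    have h6 : HasDerivAt (LJ W V j p)
        (∑ v ∈ fib (K j) p, if deg v = 1 then an' (W j) (V j) v / nm v else 0)
        (ph p (h j) * 0) := by
      rw [mul_zero]
      unfold LJ
      exact HasDerivAt.fun_sum fun v _ => hasDerivAt_lnx v
    exact h6.comp 0 h5
  have h5 : HasDerivAt (fun x => ∑ j, u j * LJ W V j p (ph p (h j) * x)) 0 0 := by
    refine (hasDerivAt_const (0 : ℂ) (0 : ℂ)).congr_of_eventuallyEq ?_
    filter_upwards [Metric.ball_mem_nhds (0 : ℂ) one_pos] with y hy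
    exact h3 hy
  have h6 := h4.unique h5
  have hp0 : (p : ℂ) ≠ 0 := by exact_mod_cast hp.ne_zero
  have h7 : ∀ j, (∑ v ∈ fib (K j) p, if deg v = 1 then an' (W j) (V j) v / nm v else 0) =
      primeCoeff (W j) (V j) p / p := by
    intro j
    rw [← cf_eq (W j) (V j) p hp, cf_sum (W j) (V j) p hp, sum_div]
    refine sum_congr rfl fun v hv => ?_
    split_ifs with hd
    · rw [(nm_eq_iff p hp v hv).2 hd]
    · rw [zero_div]
  simp only [h7] at h6
  have h8 : ∀ j, (p : ℂ) ^ (-(h j * Complex.I)) = ph p (h j) := fun j => ph_eq p hp.one_le (h j)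
  simp only [h8]
  have h9 : ∑ j, u j * primeCoeff (W j) (V j) p * ph p (h j) =
      (p : ℂ) * ∑ j, u j * (primeCoeff (W j) (V j) p / p * ph p (h j)) := by
    rw [mul_sum]
    refine sum_congr rfl fun j _ => ?_
    field_simp
  rw [h9, h6, mul_zero]

end

end Pool.Agent.N903.EV
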