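import Pool.Agent.N903.ED.Defs

/-!
# Joint limit laws on the edge of absolute convergence: definitions

The definitions `IsGood`, `norm`, `trace`, `localFactor`, `logL`, `edgePoint`, `angle`, `comb` are in
`Pool.Agent.N903.ED.Defs`.
-/

set_option autoImplicit false

namespace Pool.Agent.N903.EV

open NumberField IsDedekindDomain Pool.Agent.N903.ED

/-- The `n` elliptic curves `E_j` over number fields `K_j` with sets `V_j` of primes and shifts
`h_j` are *independent*: for no `u ≠ 0` in `ℂⁿ` does the combination
`∑_j u_j log L_p(E_j, s + i h_j)` of the logarithms of the Euler factors at the primes in `V_j`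
above `p` vanish identically for all large prime numbers `p`.  In other words, for every `u ≠ 0`
there are infinitely many prime numbers `p` for which the combination is not identically zero in
the half-plane `Re s > 3/2`. -/
def Independent {n : ℕ} {K : Fin n → Type} [∀ j, Field (K j)] [∀ j, NumberField (K j)]
    (W : ∀ j, WeierstrassCurve (𝓞 (K j))) (V : ∀ j, Set (HeightOneSpectrum (𝓞 (K j))))
    (h : Fin n → ℝ) : Prop :=
  ∀ u : Fin n → ℂ, u ≠ 0 → ∀ x : ℕ, ∃ p : ℕ, x ≤ p ∧ p.Prime ∧ ∃ s : ℂ, (3 / 2 : ℝ) < s.re ∧
    comb W (fun j => V j ∩ {v | (p : 𝓞 (K j)) ∈ v.asIdeal}) h u s ≠ 0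

end Pool.Agent.N903.EV
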