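import Pool.Agent.N903.EV.Same
import Pool.Agent.N903.EV.Crit

/-!
# The joint law on the edge
-/

set_option autoImplicit false
set_option linter.unusedSectionVars false

namespace Pool.Agent.N903.EV

open Finset Filter Topology MeasureTheory NumberField IsDedekindDomain
  Pool.Agent.H921R2.TatePole Pool.Agent.H341R2 Pool.Agent.H341R2.EC Pool.Agent.W350.Edge
  Pool.Agent.W350.EdgeV Pool.Agent.W350.EdgeNF Pool.Agent.W350.EdgeEC Pool.Agent.N903.ED
  Pool.Agent.N903.EL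
open scoped ComplexConjugate ContDiff BoundedContinuousFunction

section
variable {n : ℕ} {K : Fin n → Type} [∀ j, Field (K j)] [∀ j, NumberField (K j)]
    (W : ∀ j, WeierstrassCurve (𝓞 (K j))) (V : ∀ j, Set (HeightOneSpectrum (𝓞 (K j))))
    (h : Fin n → ℝ)

/-- The boundary value. -/
lemma lim_tw (c : ℕ → ℂ) (h τ : ℝ) (hτ : τ + h ∉ divSet c) :
    lm (Pool.Agent.W350.Edge.tw c h) τ = lm c (τ + h) := by
  have h1 := lm_spec hτ
  have h2 : τ ∉ divSet (Pool.Agent.W350.Edge.tw c h) := by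
    intro h3
    apply h3
    exact ⟨_, by rw [ps_tw]; exact h1⟩
  have h3 := lm_spec h2
  rw [ps_tw] at h3
  exact tendsto_nhds_unique h3 h1

/-- The angular limits. -/
lemma bvv_lim (hV : ∀ j, ∀ v ∈ V j, IsGood (W j) v) (τ : ℝ)
    (hτ : τ ∉ exc (fun j => cf (N := nm) (an' (W j) (V j))) h) (j : Fin n) (C : ℝ) :
    Tendsto (logL (W j) (V j)) (𝓝[angle (τ + h j) C] (edgePoint (τ + h j)))
      (𝓝 (bvv (cc W V h) (rv W V h) τ j)) := by
  have hτj : τ + h j ∉ divSet (cf (N := nm) (an' (W j) (V j))) := by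
    intro h1
    exact hτ (Set.mem_iUnion.2 ⟨j, h1⟩)
  have h1 := ang_lim (cf (N := nm) (an' (W j) (V j))) (2 * Module.finrank ℚ (K j))
    (fun p => cf_bound (hV j) p) (rm nm (an' (W j) (V j)) (ln' (W j) (V j)))
    (rm_continuousOn hN hpow hlow (an' (W j) (V j)) 2 (norm_an' (hV j)) (ln' (W j) (V j)) 6
      (fun v z hz => ln_rem (hV j) v z hz) (ln_cont (hV j)))
    (3 / 2) (logL (W j) (V j)) (fun s hs => logL_eq (hV j) s hs) (τ + h j) hτj C
  have h2 : bvv (cc W V h) (rv W V h) τ j = lm (cf (N := nm) (an' (W j) (V j))) (τ + h j) +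
      rm nm (an' (W j) (V j)) (ln' (W j) (V j)) (((τ + h j : ℝ) : ℂ) * Complex.I) := by
    show bv (cc W V h j) (rv W V h j) τ = _
    unfold bv cc
    rw [lim_tw _ _ _ hτj, rm_rr (hV j)]
    congr 1
    refine tsum_congr fun p => ?_
    unfold rv
    rw [ph_add, mul_comm]
  rw [h2]
  exact h1

lemma window {E : Type*} (lam : ℝ → E) (F : E → ℝ) (L : ℝ)
    (h : Tendsto (mn fun τ => F (lam τ)) UW (𝓝 L)) (ε : ℝ) (hε : 0 < ε) :
    ∃ T₀ : ℝ, ∀ T ≥ T₀, ∀ A : ℝ, |T⁻¹ * (∫ τ in A..(A + T), F (lam τ)) - L| ≤ ε := by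
  obtain ⟨T₀, hT⟩ := eventually_UW.1 ((Metric.tendsto_nhds.1 h) ε hε)
  refine ⟨T₀, fun T hT' A => ?_⟩
  have := hT T hT' A
  rw [Real.dist_eq] at this
  exact this.le

/-- **The joint law.** -/
theorem joint (hV : ∀ j, ∀ v ∈ V j, IsGood (W j) v) :
    ∃ N : Set ℝ, dimH N = 0 ∧ ∃ lam : ℝ → EuclideanSpace ℂ (Fin n),
      (∀ τ, τ ∉ N → ∀ j, ∀ C : ℝ, Tendsto (logL (W j) (V j))
        (𝓝[angle (τ + h j) C] (edgePoint (τ + h j))) (𝓝 (lam τ j))) ∧
      AEMeasurable lam ∧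
      ∃ ν : Measure (EuclideanSpace ℂ (Fin n)), IsProbabilityMeasure ν ∧
        (∀ F : EuclideanSpace ℂ (Fin n) →ᵇ ℝ, ∀ ε : ℝ, 0 < ε → ∃ T₀ : ℝ, ∀ T ≥ T₀, ∀ A : ℝ,
          |T⁻¹ * (∫ τ in A..(A + T), F (lam τ)) - ∫ w, F w ∂ν| ≤ ε) ∧
        (Independent W V h → ∃ g : EuclideanSpace ℂ (Fin n) → ℝ, ContDiff ℝ ∞ g ∧
          (∀ w, 0 ≤ g w) ∧ ν = volume.withDensity fun w => ENNReal.ofReal (g w)) := by
  have hD := DD_nonneg (K := K)
  obtain ⟨ν, h1, h2⟩ := lawv (cc W V h) (DD K) (rv W V h) (fun j => rh (K j))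
    (cc_bound W V h hV) (fun j => summable_rh) (norm_rv W V h hV) (continuousOn_rv W V h hV)
    (rv_zero W V h) hD
  have hcb : ∀ j p, ‖cf (N := nm) (an' (W j) (V j)) p‖ ≤ DD K := by
    intro j p
    refine (cf_bound (hV j) p).trans ?_
    exact Finset.single_le_sum (f := fun j => 2 * (Module.finrank ℚ (K j) : ℝ))
      (fun _ _ => by positivity) (Finset.mem_univ j)
  refine ⟨exc (fun j => cf (N := nm) (an' (W j) (V j))) h, dimH_exc _ (DD K) hcb h,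
    bvv (cc W V h) (rv W V h), fun τ hτ j C => bvv_lim W V h hV τ hτ j C,
    aem_bvv (cc W V h) (DD K) (rv W V h) (fun j => rh (K j))
      (cc_bound W V h hV) (fun j => summable_rh) (norm_rv W V h hV) (continuousOn_rv W V h hV),
    (ν : Measure (EE n)), inferInstance, fun F ε hε => ?_, fun hI => ?_⟩
  · exact window (bvv (cc W V h) (rv W V h)) F _ (h1 F) ε hε
  · obtain ⟨p₀, hloc⟩ := locV W V h hV
    obtain ⟨g, hg1, hg2, -, -, hg5⟩ := h2 (mJ K) p₀ (PJ W V h) hloc (nonDeg W V h hV hI p₀ hloc)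
    exact ⟨g, hg1, hg2, hg5⟩

end

end Pool.Agent.N903.EV
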