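import Pool.Agent.N903.EV.Osc2

/-!
# The characteristic function of a vector of local factors
-/

set_option autoImplicit false

namespace Pool.Agent.N903.EV

open MeasureTheory Finset Pool.Agent.N903.EL
open scoped ComplexConjugate

/-- The reversed conjugate polynomial. -/
noncomputable def star (e : ℕ) (A : Polynomial ℂ) : Polynomial ℂ :=
  Polynomial.reflect e (A.map (starRingEnd ℂ))

lemma eval_star (e : ℕ) (A : Polynomial ℂ) (hA : A.natDegree ≤ e) (x : ℂ) (hx : ‖x‖ = 1) :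
    (star e A).eval x = x ^ e * conj (A.eval x) := by
  have hx0 : x ≠ 0 := by
    intro h
    rw [h, norm_zero] at hx
    exact zero_ne_one hx
  have hinv : x⁻¹ = conj x := Complex.inv_eq_conj hx
  have hxc : conj x ≠ 0 := by
    rw [← hinv]
    exact inv_ne_zero hx0
  have hdeg : (A.map (starRingEnd ℂ)).natDegree ≤ e := (Polynomial.natDegree_map_le).trans hA
  have hi : Invertible (conj x) := invertibleOfNonzero hxc
  have h1 := Polynomial.eval₂_reflect_mul_pow (RingHom.id ℂ) (conj x) e _ hdeg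
  have h2 : ⅟(conj x) = x := by
    rw [invOf_eq_inv, ← hinv, inv_inv]
  rw [h2] at h1
  have h3 : (star e A).eval x * conj x ^ e = conj (A.eval x) := by
    have h4 : Polynomial.eval₂ (RingHom.id ℂ) (conj x) (A.map (starRingEnd ℂ)) =
        conj (A.eval x) := by
      rw [← Polynomial.eval_map, Polynomial.map_id, Polynomial.eval_map,
        Polynomial.eval₂_at_apply]
    rw [← h4, ← h1]
    rfl
  have h5 : conj x ^ e * x ^ e = 1 := by
    rw [← mul_pow, ← hinv, inv_mul_cancel₀ hx0, one_pow]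
  calc (star e A).eval x = (star e A).eval x * conj x ^ e * x ^ e := by
        rw [mul_assoc, h5, mul_one]
    _ = _ := by rw [h3, mul_comm]

lemma natDegree_star (e : ℕ) (A : Polynomial ℂ) (hA : A.natDegree ≤ e) :
    (star e A).natDegree ≤ e := by
  unfold star
  refine (Polynomial.natDegree_reflect_le).trans ?_
  have := (Polynomial.natDegree_map_le (f := starRingEnd ℂ) (p := A)).trans hA
  exact max_le le_rfl this

section
variable {n : ℕ} (P : Fin n → Polynomial ℂ) (m : ℕ)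

/-- The common denominator. -/
noncomputable def QQ : Polynomial ℂ := ∏ j, P j

/-- The numerator. -/
noncomputable def NN' (u : Fin n → ℂ) : Polynomial ℂ :=
  ∑ j, Polynomial.C (conj (u j)) * (-(Polynomial.X * (P j).derivative) * ∏ i ∈ univ.erase j, P i)

/-- The combination of the logarithmic derivatives. -/
noncomputable def ww (u : Fin n → ℂ) (x : ℂ) : ℂ := ∑ j, conj (u j) * GG (P j) x

variable (hdeg : ∀ j, (P j).natDegree ≤ m) (h0 : ∀ j, (P j).coeff 0 = 1)
  (hs : ∀ j, ∑ k ∈ Icc 1 m, ‖(P j).coeff k‖ ≤ 1 / 2)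

include hdeg in
lemma natDegree_QQ : (QQ P).natDegree ≤ n * m := by
  unfold QQ
  refine (Polynomial.natDegree_prod_le _ _).trans ?_
  refine (sum_le_sum fun j _ => hdeg j).trans (le_of_eq ?_)
  simp

include hdeg in
lemma natDegree_NN (u : Fin n → ℂ) : (NN' P u).natDegree ≤ n * m := by
  unfold NN'
  refine Polynomial.natDegree_sum_le_of_forall_le _ _ fun j _ => ?_
  refine (Polynomial.natDegree_C_mul_le _ _).trans ?_
  refine (Polynomial.natDegree_mul_le).trans ?_
  rw [Polynomial.natDegree_neg]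
  have h1 : (Polynomial.X * (P j).derivative).natDegree ≤ m := by
    rcases Nat.eq_zero_or_pos (P j).natDegree with h | h
    · have h2 : (P j).derivative = 0 := Polynomial.derivative_of_natDegree_zero h
      rw [h2, mul_zero, Polynomial.natDegree_zero]
      exact Nat.zero_le _
    · refine (Polynomial.natDegree_mul_le).trans ?_
      have h2 := Polynomial.natDegree_derivative_lt h.ne'
      have h3 := hdeg j
      rw [Polynomial.natDegree_X]
      omega
  have h2 : (∏ i ∈ univ.erase j, P i).natDegree ≤ (n - 1) * m := by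
    refine (Polynomial.natDegree_prod_le _ _).trans ?_
    refine (sum_le_sum fun j _ => hdeg j).trans (le_of_eq ?_)
    rw [sum_const, card_erase_of_mem (mem_univ j), card_univ, Fintype.card_fin, smul_eq_mul]
  have h3 : 1 ≤ n := by
    have := j.2
    omega
  calc _ ≤ m + (n - 1) * m := add_le_add h1 h2
    _ = n * m := by
        obtain ⟨k, rfl⟩ := Nat.exists_eq_add_of_le h3
        rw [Nat.add_sub_cancel_left]
        ring

lemma eval_NN (u : Fin n → ℂ) (x : ℂ) (hne : ∀ j, (P j).eval x ≠ 0) :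
    (NN' P u).eval x = ww P u x * (QQ P).eval x := by
  unfold NN' ww QQ GG
  rw [Polynomial.eval_finsetSum, sum_mul]
  refine sum_congr rfl fun j _ => ?_
  rw [Polynomial.eval_mul, Polynomial.eval_C, Polynomial.eval_mul, Polynomial.eval_neg,
    Polynomial.eval_mul, Polynomial.eval_X, Polynomial.eval_prod, Polynomial.eval_prod,
    ← mul_prod_erase univ (fun i => (P i).eval x) (mem_univ j)]
  have := hne j
  field_simp

/-- The polynomial of the derivative. -/
noncomputable def SS (u : Fin n → ℂ) : Polynomial ℂ :=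
  (Polynomial.C Complex.I * NN' P u) * star (n * m) (QQ P) +
    star (n * m) (Polynomial.C Complex.I * NN' P u) * QQ P

include hdeg in
lemma natDegree_SS (u : Fin n → ℂ) : (SS P m u).natDegree ≤ 2 * (n * m) := by
  unfold SS
  have h1 : (Polynomial.C Complex.I * NN' P u).natDegree ≤ n * m :=
    (Polynomial.natDegree_C_mul_le _ _).trans (natDegree_NN P m hdeg u)
  have h2 := natDegree_QQ P m hdeg
  refine (Polynomial.natDegree_add_le _ _).trans (max_le ?_ ?_)
  · refine (Polynomial.natDegree_mul_le).trans ?_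
    have := natDegree_star (n * m) (QQ P) h2
    omega
  · refine (Polynomial.natDegree_mul_le).trans ?_
    have := natDegree_star (n * m) _ h1
    omega

include hdeg in
lemma eval_SS (u : Fin n → ℂ) (x : ℂ) (hx : ‖x‖ = 1) (hne : ∀ j, (P j).eval x ≠ 0) :
    ‖(SS P m u).eval x‖ = 2 * ‖(QQ P).eval x‖ ^ 2 * |(Complex.I * ww P u x).re| := by
  have h1 : (Polynomial.C Complex.I * NN' P u).natDegree ≤ n * m :=
    (Polynomial.natDegree_C_mul_le _ _).trans (natDegree_NN P m hdeg u)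
  have h2 := natDegree_QQ P m hdeg
  have h3 : (SS P m u).eval x = x ^ (n * m) *
      ((2 * ‖(QQ P).eval x‖ ^ 2 * (Complex.I * ww P u x).re : ℝ) : ℂ) := by
    unfold SS
    have e1 := eval_star _ _ h1 x hx
    have e2 := eval_star _ _ h2 x hx
    have e3 : (Polynomial.C Complex.I * NN' P u).eval x =
        Complex.I * (ww P u x * (QQ P).eval x) := by
      rw [Polynomial.eval_mul, Polynomial.eval_C, eval_NN P u x hne]
    rw [Polynomial.eval_add, Polynomial.eval_mul (p := Polynomial.C Complex.I * NN' P u),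
      Polynomial.eval_mul (q := QQ P), e1, e2, e3]
    set Q := (QQ P).eval x
    set w := ww P u x
    have h4 : ((‖Q‖ ^ 2 : ℝ) : ℂ) = Q * conj Q := by
      rw [Complex.mul_conj, Complex.normSq_eq_norm_sq]
    have h5 : (((Complex.I * w).re : ℝ) : ℂ) = (Complex.I * w + conj (Complex.I * w)) / 2 := by
      rw [Complex.add_conj]
      push_cast
      ring
    rw [Complex.ofReal_mul, Complex.ofReal_mul, h4, h5]
    rw [← mul_assoc Complex.I w Q, map_mul (starRingEnd ℂ) (Complex.I * w) Q]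
    push_cast
    ring
  rw [h3, norm_mul, norm_pow, hx, one_pow, one_mul, Complex.norm_real, Real.norm_eq_abs,
    abs_mul, abs_of_nonneg (by positivity : 0 ≤ 2 * ‖(QQ P).eval x‖ ^ 2)]

include hdeg h0 hs in
lemma QQ_bounds (x : ℂ) (hx : ‖x‖ = 1) :
    (1 / 2) ^ n ≤ ‖(QQ P).eval x‖ ∧ ‖(QQ P).eval x‖ ≤ (3 / 2) ^ n := by
  unfold QQ
  rw [Polynomial.eval_prod, norm_prod]
  have h1 : ∀ j, 1 / 2 ≤ ‖(P j).eval x‖ := fun j => eval_ge (P j) m (hdeg j) (h0 j) (hs j) x hx.le
  have h2 : ∀ j, ‖(P j).eval x‖ ≤ 3 / 2 := by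
    intro j
    have h3 := eval_near (P j) m (hdeg j) (h0 j) (hs j) x hx.le
    have h4 : ‖(P j).eval x‖ ≤ ‖(P j).eval x - 1‖ + ‖(1 : ℂ)‖ := by
      have := norm_add_le ((P j).eval x - 1) 1
      rwa [sub_add_cancel] at this
    rw [norm_one] at h4
    linarith
  constructor
  · have := prod_le_prod (s := (univ : Finset (Fin n))) (f := fun _ => (1 / 2 : ℝ))
      (g := fun j => ‖(P j).eval x‖) (fun _ _ => by norm_num) (fun j _ => h1 j)
    rwa [prod_const, card_univ, Fintype.card_fin] at this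
  · have := prod_le_prod (s := (univ : Finset (Fin n))) (f := fun j => ‖(P j).eval x‖)
      (g := fun _ => (3 / 2 : ℝ)) (fun _ _ => norm_nonneg _) (fun j _ => h2 j)
    rwa [prod_const, card_univ, Fintype.card_fin] at this

include hdeg h0 hs in
/-- The derivative is bounded below by a product of sines. -/
lemma deriv_lower (u : Fin n → ℂ) (θ₀ s : ℝ)
    (hθ : s ≤ |(Complex.I * ww P u (ee 1 θ₀)).re|) :
    ∃ φ : Fin (2 * (n * m) + 1) → ℝ, ∀ θ,
      (s / 9 ^ n) * ∏ i, |Real.sin ((θ - φ i) / 2)| ≤ |(Complex.I * ww P u (ee 1 θ)).re| := by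
  obtain ⟨φ, hφ⟩ := poly_lower (2 * (n * m) + 1) (SS P m u)
    ((natDegree_SS P m hdeg u).trans (Nat.le_succ _))
  refine ⟨φ, fun θ => ?_⟩
  have hne : ∀ θ j, (P j).eval (ee 1 θ) ≠ 0 := fun θ j =>
    eval_ne (P j) m (hdeg j) (h0 j) (hs j) _ (norm_ee 1 θ).le
  have h1 := hφ θ θ₀
  rw [eval_SS P m hdeg u _ (norm_ee 1 θ) (hne θ), eval_SS P m hdeg u _ (norm_ee 1 θ₀) (hne θ₀)] at h1
  obtain ⟨h2, -⟩ := QQ_bounds P m hdeg h0 hs _ (norm_ee 1 θ₀)
  obtain ⟨-, h3⟩ := QQ_bounds P m hdeg h0 hs _ (norm_ee 1 θ)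
  set A := ∏ i, |Real.sin ((θ - φ i) / 2)| with hA
  have hA0 : 0 ≤ A := prod_nonneg fun _ _ => abs_nonneg _
  set a := |(Complex.I * ww P u (ee 1 θ₀)).re|
  set b := |(Complex.I * ww P u (ee 1 θ)).re|
  have ha : 0 ≤ a := abs_nonneg _
  have hb : 0 ≤ b := abs_nonneg _
  have h4 : ((1 / 2 : ℝ) ^ n) ^ 2 * a * A ≤ ((3 / 2 : ℝ) ^ n) ^ 2 * b := by
    have h5 : ((1 / 2 : ℝ) ^ n) ^ 2 ≤ ‖(QQ P).eval (ee 1 θ₀)‖ ^ 2 :=
      pow_le_pow_left₀ (by positivity) h2 2
    have h6 : ‖(QQ P).eval (ee 1 θ)‖ ^ 2 ≤ ((3 / 2 : ℝ) ^ n) ^ 2 :=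
      pow_le_pow_left₀ (norm_nonneg _) h3 2
    have h7 : ((1 / 2 : ℝ) ^ n) ^ 2 * a * A ≤ ‖(QQ P).eval (ee 1 θ₀)‖ ^ 2 * a * A := by
      gcongr
    have h8 : ‖(QQ P).eval (ee 1 θ)‖ ^ 2 * b ≤ ((3 / 2 : ℝ) ^ n) ^ 2 * b := by
      gcongr
    nlinarith
  have h5 : ((3 / 2 : ℝ) ^ n) ^ 2 = 9 ^ n * ((1 / 2 : ℝ) ^ n) ^ 2 := by
    rw [← pow_mul, ← pow_mul, mul_comm n 2, pow_mul, pow_mul, ← mul_pow]
    norm_num
  rw [h5] at h4
  have h6 : (0 : ℝ) < ((1 / 2 : ℝ) ^ n) ^ 2 := by positivity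
  have h7 : a * A ≤ 9 ^ n * b := by
    have : ((1 / 2 : ℝ) ^ n) ^ 2 * (a * A) ≤ ((1 / 2 : ℝ) ^ n) ^ 2 * (9 ^ n * b) := by
      linarith
    exact le_of_mul_le_mul_left this h6
  have h8 : s * A ≤ a * A := mul_le_mul_of_nonneg_right hθ hA0
  rw [div_mul_eq_mul_div, div_le_iff₀ (by positivity)]
  linarith

end

/-- The second derivative. -/
lemma GG_smooth (P : Polynomial ℂ) (hne : ∀ x : ℂ, ‖x‖ = 1 → P.eval x ≠ 0) :
    ∃ κ : ℝ → ℂ, Continuous κ ∧
      (∀ θ, HasDerivAt (fun θ => Complex.I * GG P (ee 1 θ)) (κ θ) θ) ∧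
      ∃ M : ℝ, 0 ≤ M ∧ ∀ θ, ‖κ θ‖ ≤ M := by
  set f : ℝ → ℂ := fun θ => Complex.I * GG P (ee 1 θ) with hf
  have hee : ContDiff ℝ 2 (ee 1) := by
    unfold ee
    refine ContDiff.cexp (ContDiff.mul ?_ contDiff_const)
    exact Complex.ofRealCLM.contDiff.comp (contDiff_const.mul contDiff_id)
  have hpol : ∀ A : Polynomial ℂ, ContDiff ℝ 2 fun θ => A.eval (ee 1 θ) := by
    intro A
    have h1 : ContDiff ℂ 2 fun x => A.eval x := by
      have := Polynomial.contDiff_aeval (𝕜 := ℂ) A 2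
      simpa using this
    exact (h1.restrict_scalars ℝ).comp hee
  have hfd : ContDiff ℝ 2 f := by
    simp only [hf]
    unfold GG
    simp only [div_eq_mul_inv]
    refine contDiff_const.mul (ContDiff.neg ((hee.mul (hpol _)).mul (ContDiff.inv (hpol P) ?_)))
    intro θ
    exact hne _ (norm_ee 1 θ)
  have hper : Function.Periodic f (2 * Real.pi) := fun θ => by
    simp only [hf, ee_periodic 1 θ]
  have hper' : Function.Periodic (deriv f) (2 * Real.pi) := by
    intro θ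
    have h1 : deriv (fun y => f (y + 2 * Real.pi)) θ = deriv f (θ + 2 * Real.pi) :=
      deriv_comp_add_const f _ θ
    rw [← h1]
    congr 1
    funext y
    exact hper y
  have hc : Continuous (deriv f) := hfd.continuous_deriv (by norm_num)
  obtain ⟨M, hM⟩ := (isCompact_Icc (a := (0 : ℝ)) (b := 2 * Real.pi)).exists_bound_of_continuousOn
    hc.continuousOn
  refine ⟨deriv f, hc, fun θ => ?_, |M|, abs_nonneg _, fun θ => ?_⟩
  · exact (hfd.differentiable (by norm_num) θ).hasDerivAt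
  · obtain ⟨y, hy, hyθ⟩ := hper'.exists_mem_Ico₀ two_pi_pos' θ
    rw [hyθ]
    exact (hM y ⟨hy.1, hy.2.le⟩).trans (le_abs_self M)

/-- **The decrease of the characteristic function of a vector of local factors.** -/
theorem loc_decay {n : ℕ} (P : Fin n → Polynomial ℂ) (m : ℕ) (hdeg : ∀ j, (P j).natDegree ≤ m)
    (h0 : ∀ j, (P j).coeff 0 = 1) (hs : ∀ j, ∑ k ∈ Icc 1 m, ‖(P j).coeff k‖ ≤ 1 / 2)
    (g : Fin n → ℝ → ℂ) (hg : ∀ j θ, HasDerivAt (g j) (Complex.I * GG (P j) (ee 1 θ)) θ)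
    (hper : ∀ j, Function.Periodic (g j) (2 * Real.pi)) :
    ∃ M : ℝ, 0 ≤ M ∧ ∀ u : Fin n → ℂ, (∀ j, ‖u j‖ ≤ 1) → ∀ θ₀ s : ℝ, 0 < s →
      s ≤ |(Complex.I * ww P u (ee 1 θ₀)).re| → ∀ q : ℝ, 1 ≤ q →
      ‖cmean fun θ => Complex.exp
        ((q ^ (8 * (2 * (n * m) + 1)) * (∑ j, conj (u j) * g j θ).re : ℝ) * Complex.I)‖ ≤
        (M + (9 ^ n) ^ 2 / s ^ 2) / q := by
  have hne : ∀ j (x : ℂ), ‖x‖ = 1 → (P j).eval x ≠ 0 := fun j x hx =>
    eval_ne (P j) m (hdeg j) (h0 j) (hs j) _ hx.le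
  choose κ hκ1 hκ2 M hM0 hM using fun j => GG_smooth (P j) (hne j)
  refine ⟨(∑ j, M j) + 4 * (2 * (n * m) + 1 : ℕ), by
    have := sum_nonneg fun j (_ : j ∈ (univ : Finset (Fin n))) => hM0 j
    positivity, fun u hu θ₀ s hs0 hθ q hq => ?_⟩
  obtain ⟨φ, hφ⟩ := deriv_lower P m hdeg h0 hs u θ₀ s hθ
  set G : ℝ → ℝ := fun θ => (∑ j, conj (u j) * g j θ).re with hG
  set G' : ℝ → ℝ := fun θ => (Complex.I * ww P u (ee 1 θ)).re with hG'
  set G'' : ℝ → ℝ := fun θ => (∑ j, conj (u j) * κ j θ).re with hG''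
  have hre : ∀ (F : ℝ → ℂ) (F' : ℂ) (θ : ℝ), HasDerivAt F F' θ →
      HasDerivAt (fun θ => (F θ).re) F'.re θ := fun F F' θ h =>
    Complex.reCLM.hasFDerivAt.comp_hasDerivAt θ h
  have e1 : ∀ θ, ∑ j, conj (u j) * (Complex.I * GG (P j) (ee 1 θ)) =
      Complex.I * ww P u (ee 1 θ) := by
    intro θ
    unfold ww
    rw [mul_sum]
    exact sum_congr rfl fun j _ => by ring
  have hG1 : ∀ θ, HasDerivAt G (G' θ) θ := by
    intro θ
    have h1 : HasDerivAt (fun θ => ∑ j, conj (u j) * g j θ)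
        (∑ j, conj (u j) * (Complex.I * GG (P j) (ee 1 θ))) θ :=
      HasDerivAt.fun_sum fun j _ => (hg j θ).const_mul _
    rw [e1] at h1
    exact hre _ _ θ h1
  have hG2 : ∀ θ, HasDerivAt G' (G'' θ) θ := by
    intro θ
    have h1 : HasDerivAt (fun θ => ∑ j, conj (u j) * (Complex.I * GG (P j) (ee 1 θ)))
        (∑ j, conj (u j) * κ j θ) θ :=
      HasDerivAt.fun_sum fun j _ => (hκ2 j θ).const_mul _
    simp only [e1] at h1
    exact hre _ _ θ h1
  have hG3 : Continuous G'' := by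
    simp only [hG'']
    exact Complex.continuous_re.comp (continuous_finsetSum _ fun j _ =>
      continuous_const.mul (hκ1 j))
  have hGp : Function.Periodic G (2 * Real.pi) := fun θ => by
    simp only [hG]
    congr 1
    exact sum_congr rfl fun j _ => by rw [hper j θ]
  have hGp' : Function.Periodic G' (2 * Real.pi) := fun θ => by
    simp only [hG', ee_periodic 1 θ]
  have hGM : ∀ θ, |G'' θ| ≤ ∑ j, M j := by
    intro θ
    refine (Complex.abs_re_le_norm _).trans ((norm_sum_le _ _).trans (sum_le_sum fun j _ => ?_))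
    rw [norm_mul, RCLike.norm_conj]
    calc ‖u j‖ * ‖κ j θ‖ ≤ 1 * M j := mul_le_mul (hu j) (hM j θ) (norm_nonneg _) zero_le_one
      _ = M j := one_mul _
  have h1 := osc_decay (2 * (n * m) + 1) (by omega) G G' G'' hG1 hG2 hG3 hGp hGp' (∑ j, M j) hGM φ
    (s / 9 ^ n) (by positivity) hφ q hq
  refine h1.trans (le_of_eq ?_)
  congr 2
  rw [div_pow]
  field_simp

end Pool.Agent.N903.EV
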