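import Pool.Agent.N903.EV.CFv
import Pool.Agent.N903.EV.Loc2
import Pool.Agent.N903.EL.Dens

/-!
# Rapid decrease of the characteristic function and the smooth limit law, vector case
-/

set_option autoImplicit false
set_option linter.unusedSectionVars false

namespace Pool.Agent.N903.EV

open Finset Filter Topology MeasureTheory Pool.Agent.W350.Edge Pool.Agent.N903.ED
  Pool.Agent.N903.EL
open scoped ENNReal ComplexConjugate ContDiff BoundedContinuousFunction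

section
variable {n : ℕ} (c : Fin n → ℕ → ℂ) (D : ℝ) (r : Fin n → ℕ → ℂ → ℂ) (ρ : Fin n → ℕ → ℝ)
  (hc : ∀ j p, ‖c j p‖ ≤ D) (hρ : ∀ j, Summable (ρ j))
  (hr : ∀ j p x, ‖x‖ = 1 → ‖r j p x‖ ≤ ρ j p)
  (hrc : ∀ j p, ContinuousOn (r j p) (Metric.sphere 0 1))
  (hr0 : ∀ j p, ¬ p.Prime → ∀ x, r j p x = 0)

/-- The data of the local factors at `p`. -/
structure LocV (m : ℕ) (P : Fin n → Polynomial ℂ) (p : ℕ) : Prop where
  deg : ∀ j, (P j).natDegree ≤ m
  zero : ∀ j, (P j).coeff 0 = 1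
  small : ∀ j, ∑ k ∈ Icc 1 m, ‖(P j).coeff k‖ ≤ 1 / 2
  der : ∀ j θ, HasDerivAt (fun θ => gp (c j) (r j) p (ee 1 θ))
    (Complex.I * GG (P j) (ee 1 θ)) θ

/-- Non-degeneracy. -/
def NonDeg (P : ℕ → Fin n → Polynomial ℂ) : Prop :=
  ∀ u : Fin n → ℂ, u ≠ 0 → ∀ x : ℕ, ∃ p, x ≤ p ∧ p.Prime ∧
    ∃ θ, (Complex.I * ww (P p) u (ee 1 θ)).re ≠ 0

lemma lcv_smul (p : ℕ) (u : EE n) (R : ℝ) :
    lcv c r p (R • u) = cmean fun θ => Complex.exp
      ((R * (∑ j, conj (u j) * gp (c j) (r j) p (ee 1 θ)).re : ℝ) * Complex.I) := by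
  unfold lcv
  congr 1
  funext θ
  unfold chv
  rw [inner_smul_right, inner_eq]
  rfl

lemma lcv_decay (m p : ℕ) (P : Fin n → Polynomial ℂ) (h : LocV c r m P p) :
    ∃ M : ℝ, 0 ≤ M ∧ ∀ u : EE n, ‖u‖ = 1 → ∀ θ₀ s : ℝ, 0 < s →
      s ≤ |(Complex.I * ww P u (ee 1 θ₀)).re| → ∀ q : ℝ, 1 ≤ q →
      ‖lcv c r p (q ^ (8 * (2 * (n * m) + 1)) • u)‖ ≤ (M + (9 ^ n) ^ 2 / s ^ 2) / q := by
  obtain ⟨M, hM0, hM⟩ := loc_decay P m h.deg h.zero h.small
    (fun j θ => gp (c j) (r j) p (ee 1 θ)) h.der (fun j θ => by simp only [ee_periodic 1 θ])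
  refine ⟨M, hM0, fun u hu θ₀ s hs hθ q hq => ?_⟩
  rw [lcv_smul]
  refine hM (fun j => u j) (fun j => ?_) θ₀ s hs hθ q hq
  rw [← hu]
  exact PiLp.norm_apply_le u j

lemma many (P : ℕ → Fin n → Polynomial ℂ) (hnd : NonDeg P) (u : Fin n → ℂ) (hu : u ≠ 0) (p₀ : ℕ)
    (K : ℕ) : ∃ Q : Finset ℕ, Q.card = K ∧ ∀ p ∈ Q, p.Prime ∧ p₀ ≤ p ∧
      ∃ θ, (Complex.I * ww (P p) u (ee 1 θ)).re ≠ 0 := by
  classical
  induction K with
  | zero => exact ⟨∅, rfl, by simp⟩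
  | succ K ih =>
    obtain ⟨Q, hQ, hQ'⟩ := ih
    obtain ⟨p, h1, h2, h3⟩ := hnd u hu (max p₀ (Q.sup id + 1))
    have hp : p ∉ Q := by
      intro h
      have h4 : p ≤ Q.sup id := Finset.le_sup (f := id) h
      have h5 := (le_max_right p₀ (Q.sup id + 1)).trans h1
      omega
    refine ⟨insert p Q, by rw [card_insert_of_notMem hp, hQ], fun p' hp' => ?_⟩
    rcases mem_insert.1 hp' with rfl | h
    · exact ⟨h2, (le_max_left _ _).trans h1, h3⟩
    · exact hQ' p' h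

include hrc in
/-- **Rapid decrease.** -/
theorem phiv_decay (m p₀ : ℕ) (P : ℕ → Fin n → Polynomial ℂ)
    (hloc : ∀ p, p.Prime → p₀ ≤ p → LocV c r m (P p) p) (hnd : NonDeg P)
    (φ : EE n → ℂ) (hφ : ∀ t, Tendsto (fun J => afv c r (NN 3 J) t) atTop (𝓝 (φ t))) (k : ℕ) :
    ∃ C : ℝ, 0 ≤ C ∧ ∀ t, (1 + ‖t‖) ^ k * ‖φ t‖ ≤ C := by
  classical
  set e : ℕ := 8 * (2 * (n * m) + 1) with he
  have he0 : e ≠ 0 := by omega
  have key : ∃ C : ℝ, ∀ u ∈ Metric.sphere (0 : EE n) 1, ∀ R : ℝ, 1 ≤ R →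
      R ^ k * ‖φ (R • u)‖ ≤ C := by
    refine (isCompact_sphere (0 : EE n) 1).induction_on
      (p := fun S => ∃ C : ℝ, ∀ u ∈ S, ∀ R : ℝ, 1 ≤ R →
      R ^ k * ‖φ (R • u)‖ ≤ C) ⟨0, by simp⟩ ?_ ?_ ?_
    · rintro S T hST ⟨C, hC⟩
      exact ⟨C, fun u hu => hC u (hST hu)⟩
    · rintro S T ⟨C, hC⟩ ⟨C', hC'⟩
      refine ⟨max C C', fun u hu R hR => ?_⟩
      rcases hu with hu | hu
      · exact (hC u hu R hR).trans (le_max_left _ _)
      · exact (hC' u hu R hR).trans (le_max_right _ _)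
    · intro u₀ hu₀
      rw [mem_sphere_zero_iff_norm] at hu₀
      have hu0 : (fun j => u₀ j) ≠ 0 := by
        intro h
        have : u₀ = 0 := by
          ext j
          exact congrFun h j
        rw [this, norm_zero] at hu₀
        exact zero_ne_one hu₀
      obtain ⟨Q, hQ1, hQ2⟩ := many P hnd (fun j => u₀ j) hu0 p₀ (e * k)
      choose! hQp hQ0 θ hθ using hQ2
      have hL : ∀ p ∈ Q, ∃ M : ℝ, 0 ≤ M ∧ ∀ u : EE n, ‖u‖ = 1 → ∀ θ₀ s : ℝ, 0 < s →
          s ≤ |(Complex.I * ww (P p) u (ee 1 θ₀)).re| → ∀ q : ℝ, 1 ≤ q →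
          ‖lcv c r p (q ^ e • u)‖ ≤ (M + (9 ^ n) ^ 2 / s ^ 2) / q :=
        fun p hp => lcv_decay c r m p (P p) (hloc p (hQp p hp) (hQ0 p hp))
      choose! M hM0 hM using hL
      set s : ℕ → ℝ := fun p => |(Complex.I * ww (P p) (fun j => u₀ j) (ee 1 (θ p))).re| / 2
        with hs
      have hs0 : ∀ p ∈ Q, 0 < s p := fun p hp => by
        have := abs_pos.2 (hθ p hp)
        simp only [hs]
        linarith
      set U : Set (EE n) := {u | ∀ p ∈ Q,
        s p < |(Complex.I * ww (P p) (fun j => u j) (ee 1 (θ p))).re|} with hU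
      have hUo : U ∈ 𝓝 u₀ := by
        have h1 : ∀ p ∈ Q, ∀ᶠ u in 𝓝 u₀,
            s p < |(Complex.I * ww (P p) (fun j => u j) (ee 1 (θ p))).re| := by
          intro p hp
          have hcont : Continuous fun u : EE n =>
              |(Complex.I * ww (P p) (fun j => u j) (ee 1 (θ p))).re| := by
            unfold ww
            refine continuous_abs.comp (Complex.continuous_re.comp (continuous_const.mul
              (continuous_finsetSum _ fun j _ => ?_)))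
            refine Continuous.mul (Complex.continuous_conj.comp ?_) continuous_const
            exact PiLp.continuous_apply 2 _ j
          refine (hcont.tendsto u₀).eventually (lt_mem_nhds ?_)
          have := abs_pos.2 (hθ p hp)
          simp only [hs]
          linarith
        exact (Finset.eventually_all Q).2 h1
      refine ⟨U ∩ Metric.sphere (0 : EE n) 1, inter_mem (mem_nhdsWithin_of_mem_nhds hUo)
        self_mem_nhdsWithin, ∏ p ∈ Q, (M p + (9 ^ n) ^ 2 / s p ^ 2), fun u hu R hR => ?_⟩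
      have hu1 : ‖u‖ = 1 := mem_sphere_zero_iff_norm.1 hu.2
      set q : ℝ := R ^ ((e : ℝ)⁻¹) with hq
      have hR0 : 0 ≤ R := by linarith
      have hqe : q ^ e = R := Real.rpow_inv_natCast_pow hR0 he0
      have hq1 : 1 ≤ q := Real.one_le_rpow hR (by positivity)
      have hq0 : 0 < q := by linarith
      have h1 : ‖φ (R • u)‖ ≤ ∏ p ∈ Q, (M p + (9 ^ n) ^ 2 / s p ^ 2) / q := by
        refine (phiv_le c r hrc φ hφ Q hQp (R • u)).trans ?_
        refine prod_le_prod (fun _ _ => norm_nonneg _) fun p hp => ?_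
        rw [← hqe]
        exact hM p hp u hu1 (θ p) (s p) (hs0 p hp) (hu.1 p hp).le q hq1
      rw [prod_div_distrib, prod_const, hQ1] at h1
      have h2 : q ^ (e * k) = R ^ k := by rw [pow_mul, hqe]
      rw [h2] at h1
      have h3 : 0 < R ^ k := by positivity
      rw [le_div_iff₀ h3] at h1
      linarith
  obtain ⟨C, hC⟩ := key
  have hφ1 : ∀ t, ‖φ t‖ ≤ 1 := by
    intro t
    simpa using phiv_le c r hrc φ hφ ∅ (by simp) t
  refine ⟨max (2 ^ k) (2 ^ k * |C|), by positivity, fun t => ?_⟩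
  rcases le_or_gt ‖t‖ 1 with ht | ht
  · refine le_trans ?_ (le_max_left _ _)
    calc (1 + ‖t‖) ^ k * ‖φ t‖ ≤ 2 ^ k * 1 := by
          refine mul_le_mul ?_ (hφ1 t) (norm_nonneg _) (by positivity)
          exact pow_le_pow_left₀ (by positivity) (by linarith) _
      _ = 2 ^ k := mul_one _
  · refine le_trans ?_ (le_max_right _ _)
    have ht0 : 0 < ‖t‖ := by linarith
    set u : EE n := ‖t‖⁻¹ • t with hu
    have hu1 : u ∈ Metric.sphere (0 : EE n) 1 := by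
      rw [mem_sphere_zero_iff_norm, hu, norm_smul, norm_inv, norm_norm,
        inv_mul_cancel₀ ht0.ne']
    have hut : ‖t‖ • u = t := by
      rw [hu, smul_smul, mul_inv_cancel₀ ht0.ne', one_smul]
    have h1 := hC u hu1 ‖t‖ ht.le
    rw [hut] at h1
    have h2 : (1 + ‖t‖) ^ k ≤ 2 ^ k * ‖t‖ ^ k := by
      rw [← mul_pow]
      exact pow_le_pow_left₀ (by positivity) (by linarith) _
    calc (1 + ‖t‖) ^ k * ‖φ t‖ ≤ 2 ^ k * ‖t‖ ^ k * ‖φ t‖ :=
          mul_le_mul_of_nonneg_right h2 (norm_nonneg _)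
      _ = 2 ^ k * (‖t‖ ^ k * ‖φ t‖) := by ring
      _ ≤ 2 ^ k * |C| := mul_le_mul_of_nonneg_left (h1.trans (le_abs_self C)) (by positivity)

include hc hρ hr hrc hr0 in
/-- **The limit law and its smooth density, abstract form.** -/
theorem lawv (hD : 0 ≤ D) : ∃ ν : ProbabilityMeasure (EE n),
    (∀ F : EE n →ᵇ ℝ, Tendsto (mn fun τ => F (bvv c r τ)) UW
      (𝓝 (∫ w, F w ∂(ν : Measure (EE n))))) ∧
    ∀ (m p₀ : ℕ) (P : ℕ → Fin n → Polynomial ℂ),
      (∀ p, p.Prime → p₀ ≤ p → LocV c r m (P p) p) → NonDeg P →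
      ∃ g : EE n → ℝ, ContDiff ℝ ∞ g ∧ (∀ w, 0 ≤ g w) ∧ Integrable g ∧ ∫ w, g w = 1 ∧
        (ν : Measure (EE n)) = volume.withDensity fun w => ENNReal.ofReal (g w) := by
  obtain ⟨φ, h1, h2, h3⟩ := exists_phiv c D r ρ hc hρ hr hrc hr0 hD
  obtain ⟨ν, h4, h5⟩ := limit_law (bvv c r) (aem_bvv c D r ρ hc hρ hr hrc) φ h3 h1
  refine ⟨ν, h5, fun m p₀ P hloc hnd => ?_⟩
  refine smooth_density (ν : Measure (EE n)) fun j => ?_
  obtain ⟨C, hC0, hC⟩ := phiv_decay c r hrc m p₀ P hloc hnd φ h2 (j + (2 * n + 1))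
  have h6 : Integrable fun ξ : EE n => C * (1 + ‖ξ‖) ^ (-((2 * n + 1 : ℕ) : ℝ)) := by
    refine Integrable.const_mul ?_ C
    refine integrable_one_add_norm ?_
    have h7 : Module.finrank ℝ (EE n) = 2 * n := by
      rw [← Module.finrank_mul_finrank ℝ ℂ]
      simp
    rw [h7]
    push_cast
    linarith
  refine h6.mono' ?_ (Eventually.of_forall fun ξ => ?_)
  · exact ((continuous_norm.pow j).mul
      (continuous_Ph (ν : Measure (EE n))).norm).aestronglyMeasurable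
  · rw [Real.norm_of_nonneg (by positivity)]
    unfold Ph
    rw [h4]
    set t : EE n := (2 * Real.pi) • ξ with ht
    have h7 := hC t
    have h8 : ‖ξ‖ ≤ ‖t‖ := by
      rw [ht, norm_smul, Real.norm_of_nonneg two_pi_pos'.le]
      have := Real.pi_gt_three
      nlinarith [norm_nonneg ξ]
    have h9 : 0 < 1 + ‖ξ‖ := by positivity
    have h10 : (1 + ‖ξ‖) ^ (-((2 * n + 1 : ℕ) : ℝ)) = ((1 + ‖ξ‖) ^ (2 * n + 1))⁻¹ := by
      rw [Real.rpow_neg h9.le, Real.rpow_natCast]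
    rw [h10, ← div_eq_mul_inv, le_div_iff₀ (by positivity)]
    calc ‖ξ‖ ^ j * ‖φ t‖ * (1 + ‖ξ‖) ^ (2 * n + 1) ≤
          (1 + ‖t‖) ^ j * ‖φ t‖ * (1 + ‖t‖) ^ (2 * n + 1) := by
          gcongr
          linarith
      _ = (1 + ‖t‖) ^ (j + (2 * n + 1)) * ‖φ t‖ := by ring
      _ ≤ C := h7

end

end Pool.Agent.N903.EV
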