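import Pool.Agent.N903.EV.Places
import Pool.Agent.N903.EV.Loc2

/-!
# The polynomials of the Euler factors above a prime number
-/

set_option autoImplicit false
set_option linter.unusedSectionVars false

namespace Pool.Agent.N903.EV

open Finset Filter Topology NumberField IsDedekindDomain Pool.Agent.H921R2.TatePole
  Pool.Agent.H341R2 Pool.Agent.H341R2.EC Pool.Agent.W350.Edge Pool.Agent.W350.EdgeV
  Pool.Agent.W350.EdgeNF Pool.Agent.W350.EdgeEC Pool.Agent.N903.ED Pool.Agent.N903.EL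

/-! ### Dominated polynomials -/

/-- The coefficients are bounded by those of a real polynomial. -/
def Dom (A : Polynomial ℂ) (B : Polynomial ℝ) : Prop := ∀ k, ‖A.coeff k‖ ≤ B.coeff k

lemma Dom.mul {A A' : Polynomial ℂ} {B B' : Polynomial ℝ} (h : Dom A B) (h' : Dom A' B') :
    Dom (A * A') (B * B') := by
  intro k
  rw [Polynomial.coeff_mul, Polynomial.coeff_mul]
  refine norm_sum_le_of_le _ fun q _ => ?_
  rw [norm_mul]
  exact mul_le_mul (h _) (h' _) (norm_nonneg _) ((norm_nonneg _).trans (h _))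

lemma Dom.one : Dom 1 1 := by
  intro k
  rw [Polynomial.coeff_one, Polynomial.coeff_one]
  split_ifs <;> simp

lemma Dom.prod {ι : Type*} (s : Finset ι) (A : ι → Polynomial ℂ) (B : ι → Polynomial ℝ)
    (h : ∀ i ∈ s, Dom (A i) (B i)) : Dom (∏ i ∈ s, A i) (∏ i ∈ s, B i) := by
  classical
  induction s using Finset.induction_on with
  | empty =>
    rw [prod_empty, prod_empty]
    exact Dom.one
  | insert a s ha ih =>
    rw [prod_insert ha, prod_insert ha]
    exact (h a (mem_insert_self a s)).mul (ih fun i hi => h i (mem_insert_of_mem hi))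

lemma Dom.nonneg {A : Polynomial ℂ} {B : Polynomial ℝ} (h : Dom A B) (k : ℕ) : 0 ≤ B.coeff k :=
  (norm_nonneg _).trans (h k)

lemma Dom.sum_le {A : Polynomial ℂ} {B : Polynomial ℝ} (h : Dom A B) (m : ℕ) :
    ∑ k ∈ Icc 1 m, ‖A.coeff k‖ ≤ B.eval 1 - B.coeff 0 := by
  set M := max B.natDegree m with hM
  have h1 : B.eval 1 = ∑ k ∈ range (M + 1), B.coeff k := by
    rw [Polynomial.eval_eq_sum_range' (Nat.lt_succ_of_le (le_max_left _ _) : B.natDegree < M + 1)]
    simp
  have h2 : ∑ k ∈ Icc 1 m, B.coeff k ≤ ∑ k ∈ (range (M + 1)).erase 0, B.coeff k := by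
    refine sum_le_sum_of_subset_of_nonneg (fun k hk => ?_) fun k _ _ => h.nonneg k
    rw [mem_Icc] at hk
    rw [mem_erase, mem_range]
    have := le_max_right B.natDegree m
    omega
  have h3 := add_sum_erase (range (M + 1)) (fun k => B.coeff k) (mem_range.2 (Nat.succ_pos M))
  have h4 : ∑ k ∈ Icc 1 m, ‖A.coeff k‖ ≤ ∑ k ∈ Icc 1 m, B.coeff k := sum_le_sum fun k _ => h k
  rw [h1]
  linarith

/-! ### Logarithmic derivatives of products -/

lemma GG_one (x : ℂ) : GG 1 x = 0 := by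
  unfold EL.GG
  simp

lemma GG_mul (A B : Polynomial ℂ) (x : ℂ) (hA : A.eval x ≠ 0) (hB : B.eval x ≠ 0) :
    GG (A * B) x = GG A x + GG B x := by
  unfold EL.GG
  rw [Polynomial.derivative_mul, Polynomial.eval_add, Polynomial.eval_mul, Polynomial.eval_mul,
    Polynomial.eval_mul]
  field_simp
  ring

lemma GG_prod {ι : Type*} (s : Finset ι) (A : ι → Polynomial ℂ) (x : ℂ)
    (hA : ∀ i ∈ s, (A i).eval x ≠ 0) : GG (∏ i ∈ s, A i) x = ∑ i ∈ s, GG (A i) x := by
  classical
  induction s using Finset.induction_on with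
  | empty => rw [prod_empty, sum_empty, GG_one]
  | insert a s ha ih =>
    rw [prod_insert ha, sum_insert ha, GG_mul _ _ _ (hA a (mem_insert_self a s)),
      ih fun i hi => hA i (mem_insert_of_mem hi)]
    rw [Polynomial.eval_prod]
    exact prod_ne_zero_iff.2 fun i hi => hA i (mem_insert_of_mem hi)

/-! ### The polynomials -/

variable {K : Type} [Field K] [NumberField K]
variable (W : WeierstrassCurve (𝓞 K)) (V : Set (HeightOneSpectrum (𝓞 K)))

open Classical in
/-- The polynomial of a place. -/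
noncomputable def PV (v : HeightOneSpectrum (𝓞 K)) : Polynomial ℂ :=
  if v ∈ V then 1 - Polynomial.C (al W v) * Polynomial.X ^ deg v +
    Polynomial.C (be v) * Polynomial.X ^ (2 * deg v) else 1

/-- The polynomial of the places above `p`. -/
noncomputable def PP (p : ℕ) : Polynomial ℂ := ∏ v ∈ fib K p, PV W V v

lemma PV_eval (v : HeightOneSpectrum (𝓞 K)) (x : ℂ) (hv : v ∈ V) :
    (PV W V v).eval x = 1 - ux W v x := by
  unfold PV ux
  rw [if_pos hv]
  simp only [Polynomial.eval_add, Polynomial.eval_sub, Polynomial.eval_one, Polynomial.eval_mul,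
    Polynomial.eval_C, Polynomial.eval_pow, Polynomial.eval_X]
  ring

lemma PV_one (v : HeightOneSpectrum (𝓞 K)) (hv : v ∉ V) : PV W V v = 1 := by
  unfold PV
  rw [if_neg hv]

lemma lnx_PV (v : HeightOneSpectrum (𝓞 K)) (x : ℂ) :
    lnx W V v x = -Complex.log ((PV W V v).eval x) := by
  by_cases hv : v ∈ V
  · rw [PV_eval W V v x hv]
    unfold lnx
    rw [if_pos hv]
  · rw [PV_one W V v hv]
    unfold lnx
    rw [if_neg hv, Polynomial.eval_one, Complex.log_one, neg_zero]

lemma natDegree_PV (v : HeightOneSpectrum (𝓞 K)) : (PV W V v).natDegree ≤ 2 * deg v := by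
  unfold PV
  split_ifs
  · refine (Polynomial.natDegree_add_le _ _).trans (max_le ?_ ?_)
    · refine (Polynomial.natDegree_sub_le _ _).trans (max_le ?_ ?_)
      · rw [Polynomial.natDegree_one]
        exact Nat.zero_le _
      · refine (Polynomial.natDegree_C_mul_X_pow_le _ _).trans ?_
        omega
    · exact Polynomial.natDegree_C_mul_X_pow_le _ _
  · rw [Polynomial.natDegree_one]
    exact Nat.zero_le _

lemma natDegree_PP (p : ℕ) :
    (PP W V p).natDegree ≤ Module.finrank ℚ K * (2 * Module.finrank ℚ K) := by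
  unfold PP
  refine (Polynomial.natDegree_prod_le _ _).trans ?_
  calc ∑ v ∈ fib K p, (PV W V v).natDegree ≤ ∑ v ∈ fib K p, 2 * Module.finrank ℚ K :=
        sum_le_sum fun v _ => (natDegree_PV W V v).trans (Nat.mul_le_mul_left 2 (deg_le v))
    _ = (fib K p).card * (2 * Module.finrank ℚ K) := by rw [sum_const, smul_eq_mul]
    _ ≤ _ := Nat.mul_le_mul_right _ (card_fib p)

lemma PV_zero (v : HeightOneSpectrum (𝓞 K)) : (PV W V v).eval 0 = 1 := by
  have h1 := deg_pos v
  unfold PV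
  split_ifs
  · simp only [Polynomial.eval_add, Polynomial.eval_sub, Polynomial.eval_one, Polynomial.eval_mul,
      Polynomial.eval_C, Polynomial.eval_pow, Polynomial.eval_X]
    rw [zero_pow (by omega), zero_pow (by omega)]
    ring
  · rw [Polynomial.eval_one]

lemma PP_zero (p : ℕ) : (PP W V p).coeff 0 = 1 := by
  rw [Polynomial.coeff_zero_eq_eval_zero]
  unfold PP
  rw [Polynomial.eval_prod]
  exact prod_eq_one fun v _ => PV_zero W V v

/-- The dominating polynomial. -/
noncomputable def BV (v : HeightOneSpectrum (𝓞 K)) : Polynomial ℝ :=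
  1 + Polynomial.C (2 / (nm v : ℝ)) * Polynomial.X ^ deg v +
    Polynomial.C (1 / (nm v : ℝ)) * Polynomial.X ^ (2 * deg v)

variable {W V} (hV : ∀ v ∈ V, IsGood W v)

include hV in
lemma norm_al {v : HeightOneSpectrum (𝓞 K)} (hv : v ∈ V) : ‖al W v‖ ≤ 2 / nm v := by
  have h1 := norm_an' hV v
  unfold an' at h1
  rw [if_pos hv] at h1
  unfold al
  rw [norm_div, Complex.norm_natCast]
  exact div_le_div_of_nonneg_right h1 (Nat.cast_nonneg _)

lemma norm_be (v : HeightOneSpectrum (𝓞 K)) : ‖be v‖ ≤ 1 / nm v := by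
  have h0 := nm_pos v
  have h1 : (1 : ℝ) ≤ nm v := by exact_mod_cast hN v
  unfold be
  rw [Complex.norm_natCast_cpow_of_pos (hN v)]
  have h2 : ((-2 : ℂ)).re = (-2 : ℝ) := by simp
  rw [h2, Real.rpow_neg h0.le, Real.rpow_two, ← one_div]
  refine one_div_le_one_div_of_le h0 ?_
  nlinarith

include hV in
lemma Dom_PV (v : HeightOneSpectrum (𝓞 K)) : Dom (PV W V v) (BV v) := by
  have h0 := nm_pos v
  intro k
  unfold BV
  have hc1 : ∀ a : ℝ, 0 ≤ a → ∀ d : ℕ, 0 ≤ (Polynomial.C a * Polynomial.X ^ d : Polynomial ℝ).coeff k := by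
    intro a ha d
    rw [Polynomial.coeff_C_mul, Polynomial.coeff_X_pow]
    split_ifs
    · rw [mul_one]; exact ha
    · rw [mul_zero]
  have hc2 : ∀ (a : ℂ) (b : ℝ), ‖a‖ ≤ b → ∀ d : ℕ,
      ‖(Polynomial.C a * Polynomial.X ^ d : Polynomial ℂ).coeff k‖ ≤
        (Polynomial.C b * Polynomial.X ^ d : Polynomial ℝ).coeff k := by
    intro a b hab d
    rw [Polynomial.coeff_C_mul, Polynomial.coeff_X_pow, Polynomial.coeff_C_mul,
      Polynomial.coeff_X_pow]
    split_ifs
    · rw [mul_one, mul_one]; exact hab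
    · simp
  rw [Polynomial.coeff_add, Polynomial.coeff_add]
  by_cases hv : v ∈ V
  · unfold PV
    rw [if_pos hv, Polynomial.coeff_add, Polynomial.coeff_sub]
    refine (norm_add_le _ _).trans (add_le_add ((norm_sub_le _ _).trans (add_le_add ?_ ?_)) ?_)
    · exact Dom.one k
    · exact hc2 _ _ (norm_al hV hv) _
    · exact hc2 _ _ (norm_be v) _
  · rw [PV_one W V v hv]
    have h1 := Dom.one k
    have h2 := hc1 (2 / (nm v : ℝ)) (by positivity) (deg v)
    have h3 := hc1 (1 / (nm v : ℝ)) (by positivity) (2 * deg v)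
    linarith

lemma BV_zero (v : HeightOneSpectrum (𝓞 K)) : (BV v).eval 0 = 1 := by
  have h1 := deg_pos v
  unfold BV
  simp only [Polynomial.eval_add, Polynomial.eval_one, Polynomial.eval_mul,
      Polynomial.eval_C, Polynomial.eval_pow, Polynomial.eval_X]
  rw [zero_pow (by omega), zero_pow (by omega)]
  ring

lemma BV_eval_one (v : HeightOneSpectrum (𝓞 K)) : (BV v).eval 1 ≤ 1 + 3 / pc v := by
  have h0 := nm_pos v
  unfold BV
  simp only [Polynomial.eval_add, Polynomial.eval_one, Polynomial.eval_mul,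
      Polynomial.eval_C, Polynomial.eval_pow, Polynomial.eval_X, one_pow, mul_one]
  have h1 : (pc v : ℝ) ≤ nm v := by exact_mod_cast below_le_nm v
  have h2 : (0 : ℝ) < pc v := by exact_mod_cast (pc_prime v).pos
  have h3 : 3 / (nm v : ℝ) ≤ 3 / pc v := div_le_div_of_nonneg_left (by norm_num) h2 h1
  have h4 : 2 / (nm v : ℝ) + 1 / nm v = 3 / nm v := by ring
  linarith

lemma BV_one_nonneg (v : HeightOneSpectrum (𝓞 K)) : 0 ≤ (BV v).eval 1 := by
  have h0 := nm_pos v
  unfold BV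
  simp only [Polynomial.eval_add, Polynomial.eval_one, Polynomial.eval_mul,
      Polynomial.eval_C, Polynomial.eval_pow, Polynomial.eval_X, one_pow, mul_one]
  positivity

include hV in
lemma PP_small (m p : ℕ)
    (hp3 : (1 + 3 / (p : ℝ)) ^ Module.finrank ℚ K ≤ 3 / 2) :
    ∑ k ∈ Icc 1 m, ‖(PP W V p).coeff k‖ ≤ 1 / 2 := by
  have h1 : Dom (PP W V p) (∏ v ∈ fib K p, BV v) := Dom.prod _ _ _ fun v _ => Dom_PV hV v
  refine (h1.sum_le m).trans ?_
  have h2 : (∏ v ∈ fib K p, BV v).coeff 0 = 1 := by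
    rw [Polynomial.coeff_zero_eq_eval_zero, Polynomial.eval_prod]
    exact prod_eq_one fun v _ => BV_zero v
  have h3 : (∏ v ∈ fib K p, BV v).eval 1 ≤ (1 + 3 / (p : ℝ)) ^ Module.finrank ℚ K := by
    rw [Polynomial.eval_prod]
    have h4 : ∏ v ∈ fib K p, (BV v).eval 1 ≤ ∏ v ∈ fib K p, (1 + 3 / (p : ℝ)) := by
      refine prod_le_prod (fun v _ => BV_one_nonneg v) fun v hv => ?_
      have := BV_eval_one v
      rwa [(mem_fib v p).1 hv] at this
    rw [prod_const] at h4
    refine h4.trans (pow_le_pow_right₀ ?_ (card_fib p))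
    have : (0 : ℝ) ≤ 3 / p := by positivity
    linarith
  rw [h2]
  linarith

lemma exists_p0 (N : ℕ) : ∃ p₀ : ℕ, ∀ p : ℕ, p₀ ≤ p → (1 + 3 / (p : ℝ)) ^ N ≤ 3 / 2 := by
  have h1 : Tendsto (fun p : ℕ => (1 + 3 / (p : ℝ)) ^ N) atTop (𝓝 ((1 + 0) ^ N)) := by
    refine Tendsto.pow (tendsto_const_nhds.add ?_) N
    exact tendsto_const_div_atTop_nhds_zero_nat 3
  rw [add_zero, one_pow] at h1
  obtain ⟨p₀, h⟩ := eventually_atTop.1 (h1.eventually (ge_mem_nhds (by norm_num : (1 : ℝ) < 3 / 2)))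
  exact ⟨p₀, h⟩

include hV in
lemma PV_ne (v : HeightOneSpectrum (𝓞 K)) (x : ℂ) (hx : ‖x‖ ≤ 1) :
    (PV W V v).eval x ∈ Complex.slitPlane := by
  by_cases hv : v ∈ V
  · rw [PV_eval W V v x hv]
    exact slitx hV hv hx
  · rw [PV_one W V v hv, Polynomial.eval_one]
    exact Complex.one_mem_slitPlane

include hV in
/-- The derivative of the logarithm of the Euler factors above `p` along the circle. -/
lemma hasDerivAt_sum (p : ℕ) (ω : ℂ) (hω : ‖ω‖ = 1) (θ : ℝ) :
    HasDerivAt (fun θ => ∑ v ∈ fib K p, lnx W V v (ω * ee 1 θ))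
      (Complex.I * GG (PP W V p) (ω * ee 1 θ)) θ := by
  have hx : ∀ θ, ‖ω * ee 1 θ‖ ≤ 1 := fun θ => by rw [norm_mul, hω, norm_ee, one_mul]
  have h1 : GG (PP W V p) (ω * ee 1 θ) = ∑ v ∈ fib K p, GG (PV W V v) (ω * ee 1 θ) :=
    GG_prod _ _ _ fun v _ => Complex.slitPlane_ne_zero (PV_ne hV v _ (hx θ))
  rw [h1, mul_sum]
  refine HasDerivAt.fun_sum fun v _ => ?_
  simp only [lnx_PV]
  have h2 : HasDerivAt (fun θ => ω * ee 1 θ) (ω * (((1 : ℤ) : ℂ) * Complex.I * ee 1 θ)) θ :=
    (hasDerivAt_ee 1 θ).const_mul ω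
  have h3 : HasDerivAt (fun θ => (PV W V v).eval (ω * ee 1 θ))
      ((PV W V v).derivative.eval (ω * ee 1 θ) * (ω * (((1 : ℤ) : ℂ) * Complex.I * ee 1 θ))) θ :=
    ((PV W V v).hasDerivAt _).comp θ h2
  have h4 := (h3.clog_real (PV_ne hV v _ (hx θ))).neg
  refine h4.congr_deriv ?_
  unfold EL.GG
  have h5 : (PV W V v).eval (ω * ee 1 θ) ≠ 0 :=
    Complex.slitPlane_ne_zero (PV_ne hV v _ (hx θ))
  push_cast
  field_simp

end Pool.Agent.N903.EV
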