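import Pool.Agent.N903.EV.Defs
import Pool.Agent.N903.EV.Poly
import Pool.Agent.N903.EV.Lawv

/-!
# The joint law of the boundary values of several elliptic curves
-/

set_option autoImplicit false
set_option linter.unusedSectionVars false

namespace Pool.Agent.N903.EV

open Finset Filter Topology MeasureTheory NumberField IsDedekindDomain
  Pool.Agent.H921R2.TatePole Pool.Agent.H341R2 Pool.Agent.H341R2.EC Pool.Agent.W350.Edge
  Pool.Agent.W350.EdgeV Pool.Agent.W350.EdgeNF Pool.Agent.W350.EdgeEC Pool.Agent.N903.ED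
  Pool.Agent.N903.EL
open scoped ComplexConjugate ContDiff BoundedContinuousFunction

/-! ### Rotations -/

lemma ph_ee (p : ℕ) (τ : ℝ) : ∃ α : ℝ, ph p τ = ee 1 α := by
  refine ⟨-(τ * Real.log p), ?_⟩
  unfold ph ee
  congr 1
  push_cast
  ring

lemma exists_ee (x : ℂ) (hx : ‖x‖ = 1) : ∃ α : ℝ, x = ee 1 α := by
  refine ⟨x.arg, ?_⟩
  unfold ee
  have h1 := Complex.norm_mul_exp_arg_mul_I x
  rw [hx, Complex.ofReal_one, one_mul] at h1
  rw [← h1]
  congr 1
  push_cast
  rw [one_mul]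
  congr 2
  rw [h1]

lemma gp_shift (c : ℕ → ℂ) (r : ℕ → ℂ → ℂ) (h : ℝ) (p : ℕ) (x : ℂ) :
    gp (Pool.Agent.W350.Edge.tw c h) (fun p x => r p (ph p h * x)) p x = gp c r p (ph p h * x) := by
  unfold gp Pool.Agent.W350.Edge.tw ph
  split_ifs
  · ring
  · rfl

/-- The rotated polynomial. -/
noncomputable def rot (η : ℂ) (P : Polynomial ℂ) : Polynomial ℂ :=
  P.comp (Polynomial.C η * Polynomial.X)

lemma rot_eval (η : ℂ) (P : Polynomial ℂ) (x : ℂ) : (rot η P).eval x = P.eval (η * x) := by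
  unfold rot
  rw [Polynomial.eval_comp, Polynomial.eval_mul, Polynomial.eval_C, Polynomial.eval_X]

lemma rot_coeff (η : ℂ) (P : Polynomial ℂ) (k : ℕ) : (rot η P).coeff k = P.coeff k * η ^ k :=
  Polynomial.comp_C_mul_X_coeff

lemma natDegree_rot (η : ℂ) (P : Polynomial ℂ) : (rot η P).natDegree ≤ P.natDegree := by
  unfold rot
  refine (Polynomial.natDegree_comp_le).trans ?_
  calc P.natDegree * (Polynomial.C η * Polynomial.X).natDegree ≤ P.natDegree * 1 := by
        refine Nat.mul_le_mul_left _ ?_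
        refine (Polynomial.natDegree_C_mul_le _ _).trans ?_
        rw [Polynomial.natDegree_X]
    _ = _ := Nat.mul_one _

lemma GG_rot (η : ℂ) (P : Polynomial ℂ) (x : ℂ) : EL.GG (rot η P) x = EL.GG P (η * x) := by
  unfold EL.GG
  have h1 : (rot η P).derivative.eval x = P.derivative.eval (η * x) * η := by
    unfold rot
    rw [Polynomial.derivative_comp, Polynomial.eval_mul, Polynomial.eval_comp]
    simp only [Polynomial.derivative_C_mul, Polynomial.derivative_X, mul_one, Polynomial.eval_C,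
      Polynomial.eval_mul, Polynomial.eval_X]
    ring
  rw [h1, rot_eval]
  ring

section
variable {n : ℕ} {K : Fin n → Type} [∀ j, Field (K j)] [∀ j, NumberField (K j)]
    (W : ∀ j, WeierstrassCurve (𝓞 (K j))) (V : ∀ j, Set (HeightOneSpectrum (𝓞 (K j))))
    (h : Fin n → ℝ)

/-- The coefficients. -/
noncomputable def cc (j : Fin n) : ℕ → ℂ := Pool.Agent.W350.Edge.tw (cf (N := nm) (an' (W j) (V j))) (h j)

/-- The remainders. -/
noncomputable def rv (j : Fin n) (p : ℕ) (x : ℂ) : ℂ := rr (W j) (V j) p (ph p (h j) * x)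

/-- The polynomials. -/
noncomputable def PJ (p : ℕ) (j : Fin n) : Polynomial ℂ := rot (ph p (h j)) (PP (W j) (V j) p)

variable (K) in
/-- The bound of the coefficients. -/
noncomputable def DD : ℝ := ∑ j, 2 * (Module.finrank ℚ (K j) : ℝ)

lemma DD_nonneg : 0 ≤ DD K := sum_nonneg fun j _ => by positivity

variable (K) in
/-- The bound of the degrees. -/
noncomputable def mJ : ℕ := ∑ j, Module.finrank ℚ (K j) * (2 * Module.finrank ℚ (K j))

lemma cc_bound (hV : ∀ j, ∀ v ∈ V j, IsGood (W j) v) (j : Fin n) (p : ℕ) :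
    ‖cc W V h j p‖ ≤ DD K := by
  unfold cc
  rw [norm_tw]
  refine (cf_bound (hV j) p).trans ?_
  exact Finset.single_le_sum (f := fun j => 2 * (Module.finrank ℚ (K j) : ℝ))
    (fun _ _ => by positivity) (Finset.mem_univ j)

lemma norm_rv (hV : ∀ j, ∀ v ∈ V j, IsGood (W j) v) (j : Fin n) (p : ℕ) (x : ℂ) (hx : ‖x‖ = 1) :
    ‖rv W V h j p x‖ ≤ rh (K j) p := by
  unfold rv
  refine norm_rr (hV j) p _ ?_
  rw [norm_mul, norm_ph, hx, one_mul]

lemma continuousOn_rv (hV : ∀ j, ∀ v ∈ V j, IsGood (W j) v) (j : Fin n) (p : ℕ) :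
    ContinuousOn (rv W V h j p) (Metric.sphere 0 1) := by
  unfold rv
  refine (continuousOn_rr (hV j) p).comp (by fun_prop) fun x hx => ?_
  rw [mem_sphere_zero_iff_norm] at hx ⊢
  rw [norm_mul, norm_ph, hx, one_mul]

lemma rv_zero (j : Fin n) (p : ℕ) (hp : ¬ p.Prime) (x : ℂ) : rv W V h j p x = 0 :=
  rr_zero p hp _

/-- The local function. -/
noncomputable def LJ (j : Fin n) (p : ℕ) (x : ℂ) : ℂ := ∑ v ∈ fib (K j) p, lnx (W j) (V j) v x

lemma gp_LJ (hV : ∀ j, ∀ v ∈ V j, IsGood (W j) v) (j : Fin n) (p : ℕ) (hp : p.Prime) (x : ℂ) :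
    gp (cc W V h j) (rv W V h j) p x = LJ W V j p (ph p (h j) * x) := by
  unfold cc rv LJ
  rw [gp_shift (cf (N := nm) (an' (W j) (V j))) (rr (W j) (V j)) (h j) p x]
  exact gp_eq (hV j) p hp _

/-- The local data. -/
lemma locV (hV : ∀ j, ∀ v ∈ V j, IsGood (W j) v) : ∃ p₀ : ℕ, ∀ p, p.Prime → p₀ ≤ p →
    LocV (cc W V h) (rv W V h) (mJ K) (PJ W V h p) p := by
  choose p₀ hp₀ using fun j : Fin n => exists_p0 (Module.finrank ℚ (K j))
  refine ⟨∑ j, p₀ j, fun p hp hpp => ?_⟩
  have hj : ∀ j, p₀ j ≤ p := fun j =>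
    (single_le_sum (f := p₀) (fun _ _ => Nat.zero_le _) (mem_univ j)).trans hpp
  refine ⟨fun j => ?_, fun j => ?_, fun j => ?_, fun j θ => ?_⟩
  · refine (natDegree_rot _ _).trans ((natDegree_PP (W j) (V j) p).trans ?_)
    exact single_le_sum (f := fun j => Module.finrank ℚ (K j) * (2 * Module.finrank ℚ (K j)))
      (fun _ _ => Nat.zero_le _) (mem_univ j)
  · unfold PJ
    rw [rot_coeff, PP_zero, pow_zero, mul_one]
  · refine le_trans (le_of_eq ?_) (PP_small (hV j) (mJ K) p (hp₀ j p (hj j)))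
    refine sum_congr rfl fun k _ => ?_
    unfold PJ
    rw [rot_coeff, norm_mul, norm_pow, norm_ph, one_pow, mul_one]
  · simp only [gp_LJ W V h hV j p hp]
    unfold PJ LJ
    rw [GG_rot]
    exact hasDerivAt_sum (hV j) p _ (norm_ph p (h j)) θ

/-! ### Real combinations -/

/-- A combination that is real on the circle vanishes. -/
lemma ww_zero {n m : ℕ} (P : Fin n → Polynomial ℂ) (hdeg : ∀ j, (P j).natDegree ≤ m)
    (h0 : ∀ j, (P j).coeff 0 = 1) (hs : ∀ j, ∑ k ∈ Icc 1 m, ‖(P j).coeff k‖ ≤ 1 / 2)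
    (u : Fin n → ℂ) (hre : ∀ θ, (Complex.I * ww P u (ee 1 θ)).re = 0) (θ : ℝ) :
    ww P u (ee 1 θ) = 0 := by
  have hne : ∀ j (x : ℂ), ‖x‖ ≤ 1 → (P j).eval x ≠ 0 := fun j x hx =>
    eval_ne (P j) m (hdeg j) (h0 j) (hs j) x hx
  set w₁ : ℂ → ℂ := fun z => ∑ j, conj (u j) * -((P j).derivative.eval z / (P j).eval z) with hw₁
  have hw : ∀ z, ww P u z = z * w₁ z := by
    intro z
    simp only [hw₁]
    unfold ww EL.GG
    rw [mul_sum]
    exact sum_congr rfl fun j _ => by ring
  have h1 : (∮ z in C(0, 1), w₁ z ^ 2 * z) = 0 := by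
    refine Complex.circleIntegral_eq_zero_of_differentiable_on_off_countable (zero_le_one)
      Set.countable_empty ?_ ?_
    · refine ContinuousOn.mul (ContinuousOn.pow ?_ 2) continuousOn_id
      refine continuousOn_finsetSum _ fun j _ => continuousOn_const.mul (ContinuousOn.neg
        (ContinuousOn.div ?_ ?_ ?_))
      · exact (P j).derivative.continuous.continuousOn
      · exact (P j).continuous.continuousOn
      · intro z hz
        exact hne j z (by simpa using hz)
    · intro z hz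
      have hz1 : ‖z‖ ≤ 1 := by
        have := hz.1
        rw [Metric.mem_ball, dist_zero_right] at this
        exact this.le
      refine DifferentiableAt.mul (DifferentiableAt.pow ?_ 2) differentiableAt_id
      refine DifferentiableAt.fun_sum fun j _ => (differentiableAt_const _).mul
        (DifferentiableAt.neg (DifferentiableAt.div ?_ ?_ (hne j z hz1)))
      · exact (P j).derivative.differentiable.differentiableAt
      · exact (P j).differentiable.differentiableAt
  have h2 : ∫ θ in (0 : ℝ)..(2 * Real.pi), ww P u (ee 1 θ) ^ 2 = 0 := by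
    unfold circleIntegral at h1
    have h3 : ∀ θ : ℝ, deriv (circleMap 0 1) θ •
        ((fun z => w₁ z ^ 2 * z) (circleMap 0 1 θ)) = Complex.I * ww P u (ee 1 θ) ^ 2 := by
      intro θ
      have h4 : circleMap 0 1 θ = ee 1 θ := by
        unfold ee circleMap
        simp
      rw [deriv_circleMap, h4, hw, smul_eq_mul]
      ring
    have h4 : ∫ θ in (0 : ℝ)..(2 * Real.pi), Complex.I * ww P u (ee 1 θ) ^ 2 = 0 := by
      rw [← h1]
      exact intervalIntegral.integral_congr fun θ _ => (h3 θ).symm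
    rw [intervalIntegral.integral_const_mul] at h4
    exact (mul_eq_zero.1 h4).resolve_left Complex.I_ne_zero
  have him : ∀ θ, (ww P u (ee 1 θ)).im = 0 := by
    intro θ
    have := hre θ
    rw [Complex.I_mul_re] at this
    linarith
  have hreal : ∀ θ, ww P u (ee 1 θ) ^ 2 = (((ww P u (ee 1 θ)).re ^ 2 : ℝ) : ℂ) := by
    intro θ
    have h5 : ww P u (ee 1 θ) = ((ww P u (ee 1 θ)).re : ℂ) := by
      apply Complex.ext
      · simp
      · rw [him θ, Complex.ofReal_im]
    conv_lhs => rw [h5]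
    push_cast
    ring
  simp only [hreal] at h2
  rw [intervalIntegral.integral_ofReal] at h2
  have h3 : ∫ θ in (0 : ℝ)..(2 * Real.pi), (ww P u (ee 1 θ)).re ^ 2 = 0 := by exact_mod_cast h2
  have hcont : Continuous fun θ => (ww P u (ee 1 θ)).re ^ 2 := by
    refine Continuous.pow (Complex.continuous_re.comp ?_) 2
    unfold ww
    refine continuous_finsetSum _ fun j _ => continuous_const.mul ?_
    exact continuous_GG (P j) m (hdeg j) (h0 j) (hs j)
  have hper : Function.Periodic (fun θ => ww P u (ee 1 θ)) (2 * Real.pi) := fun θ => by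
    simp only [ee_periodic 1 θ]
  have h4 : ∀ y ∈ Set.Icc (0 : ℝ) (2 * Real.pi), ww P u (ee 1 y) = 0 := by
    intro y hy
    by_contra hne0
    have h5 : (ww P u (ee 1 y)).re ≠ 0 := by
      intro h6
      exact hne0 (Complex.ext h6 (him y))
    have h6 := intervalIntegral.integral_pos two_pi_pos' hcont.continuousOn
      (fun θ _ => sq_nonneg _) ⟨y, hy, by positivity⟩
    linarith
  obtain ⟨y, hy, hyθ⟩ := hper.exists_mem_Ico₀ two_pi_pos' θ
  have h5 : ww P u (ee 1 θ) = ww P u (ee 1 y) := hyθ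
  rw [h5]
  exact h4 y ⟨hy.1, hy.2.le⟩

lemma X_add (p : ℕ) (z : ℂ) (h : ℝ) : X p (z + h * Complex.I) = ph p h * X p z := by
  unfold X ph
  rw [← Complex.exp_add]
  congr 1
  ring

lemma comb_LJ (hV : ∀ j, ∀ v ∈ V j, IsGood (W j) v) (p : ℕ) (hp : p.Prime) (u : Fin n → ℂ)
    (s : ℂ) (hs : (3 / 2 : ℝ) ≤ s.re) :
    comb W (fun j => V j ∩ {v | (p : 𝓞 (K j)) ∈ v.asIdeal}) h u s =
      ∑ j, u j * LJ W V j p (ph p (h j) * X p (s - ((3 / 2 : ℝ) : ℂ))) := by
  unfold comb LJ
  refine sum_congr rfl fun j _ => ?_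
  congr 1
  have h1 : s + h j * Complex.I =
      ((3 / 2 : ℝ) : ℂ) + ((s - ((3 / 2 : ℝ) : ℂ)) + h j * Complex.I) := by ring
  rw [h1, logL_above (hV j) p hp _ (by
    simp only [Complex.add_re, Complex.sub_re, Complex.ofReal_re, Complex.mul_re, Complex.I_re,
      mul_zero, Complex.ofReal_im, Complex.I_im, zero_mul, sub_self, add_zero]
    linarith), X_add]

lemma diffContOnCl_LJ (hV : ∀ j, ∀ v ∈ V j, IsGood (W j) v) (p : ℕ) (u : Fin n → ℂ)
    (η : Fin n → ℂ) (hη : ∀ j, ‖η j‖ = 1) :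
    DiffContOnCl ℂ (fun x => ∑ j, u j * LJ W V j p (η j * x)) (Metric.ball 0 1) := by
  unfold LJ
  constructor
  · refine DifferentiableOn.fun_sum fun j _ => DifferentiableOn.const_mul
      (DifferentiableOn.fun_sum fun v _ => ?_) _
    refine (differentiableOn_lnx (hV j) v).comp (by fun_prop) fun x hx => ?_
    rw [mem_ball_zero_iff] at hx ⊢
    rw [norm_mul, hη, one_mul]
    exact hx
  · rw [closure_ball (0 : ℂ) one_ne_zero]
    refine continuousOn_finsetSum _ fun j _ => continuousOn_const.mul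
      (continuousOn_finsetSum _ fun v _ => ?_)
    refine (continuousOn_lnx (hV j) v).comp (by fun_prop) fun x hx => ?_
    rw [mem_closedBall_zero_iff] at hx ⊢
    rw [norm_mul, hη, one_mul]
    exact hx

/-- Degenerate directions give relations. -/
lemma relation (hV : ∀ j, ∀ v ∈ V j, IsGood (W j) v) (p : ℕ) (hp : p.Prime)
    (hloc : LocV (cc W V h) (rv W V h) (mJ K) (PJ W V h p) p) (u : Fin n → ℂ)
    (hre : ∀ θ, (Complex.I * ww (PJ W V h p) u (ee 1 θ)).re = 0) (s : ℂ)
    (hs : (3 / 2 : ℝ) ≤ s.re) :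
    comb W (fun j => V j ∩ {v | (p : 𝓞 (K j)) ∈ v.asIdeal}) h (fun j => conj (u j)) s = 0 := by
  rw [comb_LJ W V h hV p hp _ s hs]
  set f : ℂ → ℂ := fun x => ∑ j, conj (u j) * LJ W V j p (ph p (h j) * x) with hf
  have hw := ww_zero (PJ W V h p) hloc.deg hloc.zero hloc.small u hre
  -- constant on the circle
  have hder : ∀ θ : ℝ, HasDerivAt (fun θ => f (ee 1 θ)) 0 θ := by
    intro θ
    have h1 : HasDerivAt (fun θ => ∑ j, conj (u j) * gp (cc W V h j) (rv W V h j) p (ee 1 θ))
        (∑ j, conj (u j) * (Complex.I * EL.GG (PJ W V h p j) (ee 1 θ))) θ :=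
      HasDerivAt.fun_sum fun j _ => (hloc.der j θ).const_mul _
    have h2 : ∑ j, conj (u j) * (Complex.I * EL.GG (PJ W V h p j) (ee 1 θ)) = 0 := by
      have h3 := hw θ
      unfold ww at h3
      rw [← mul_zero Complex.I, ← h3, mul_sum]
      exact sum_congr rfl fun j _ => by ring
    rw [h2] at h1
    simp only [gp_LJ W V h hV _ p hp] at h1
    exact h1
  have hconst : ∀ θ : ℝ, f (ee 1 θ) = f (ee 1 0) := fun θ =>
    is_const_of_deriv_eq_zero (f := fun θ => f (ee 1 θ))
      (fun θ => (hder θ).differentiableAt) (fun θ => (hder θ).deriv) θ 0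
  have hD : DiffContOnCl ℂ f (Metric.ball 0 1) :=
    diffContOnCl_LJ W V hV p _ _ fun j => norm_ph p (h j)
  have h1 : Set.EqOn f (fun _ => f (ee 1 0)) (closure (Metric.ball (0 : ℂ) 1)) := by
    refine Complex.eqOn_closure_of_eqOn_frontier Metric.isBounded_ball hD diffContOnCl_const ?_
    rw [frontier_ball (0 : ℂ) one_ne_zero]
    intro x hx
    obtain ⟨α, rfl⟩ := exists_ee x (mem_sphere_zero_iff_norm.1 hx)
    exact hconst α
  rw [closure_ball (0 : ℂ) one_ne_zero] at h1
  have h2 : f 0 = 0 := by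
    simp only [hf]
    unfold LJ
    refine sum_eq_zero fun j _ => ?_
    rw [mul_zero, sum_eq_zero (fun v _ => lnx_zero v), mul_zero]
  have h3 : f (ee 1 0) = 0 := by
    rw [← h2]
    exact (h1 (by simp)).symm
  have h4 : ‖X p (s - ((3 / 2 : ℝ) : ℂ))‖ ≤ 1 := by
    refine norm_X p hp.one_le _ ?_
    rw [Complex.sub_re, Complex.ofReal_re]
    linarith
  have h5 := h1 (mem_closedBall_zero_iff.2 h4)
  simp only at h5
  rw [h3] at h5
  exact h5

/-- Independence gives non-degeneracy. -/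
lemma nonDeg (hV : ∀ j, ∀ v ∈ V j, IsGood (W j) v) (hI : Independent W V h) (p₀ : ℕ)
    (hloc : ∀ p, p.Prime → p₀ ≤ p → LocV (cc W V h) (rv W V h) (mJ K) (PJ W V h p) p) :
    NonDeg (PJ W V h) := by
  intro u hu x
  have hu' : (fun j => conj (u j)) ≠ 0 := by
    intro h0
    apply hu
    funext j
    have := congrFun h0 j
    simpa using this
  obtain ⟨p, h1, h2, s, h3, h4⟩ := hI _ hu' (max x p₀)
  refine ⟨p, (le_max_left _ _).trans h1, h2, ?_⟩
  by_contra hcon
  push Not at hcon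
  exact h4 (relation W V h hV p h2 (hloc p h2 ((le_max_right _ _).trans h1)) u hcon s h3.le)

end

end Pool.Agent.N903.EV
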