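import Pool.Agent.N903.ED.Wt

/-!
# Exponential polynomials that vanish at the logarithms of all large primes
-/

set_option autoImplicit false

namespace Pool.Agent.N903.EV

open Finset Filter Topology Pool.Agent.N903.ED

/-- The von Mangoldt function. -/
noncomputable def vM (n : ℕ) : ℂ := (ArithmeticFunction.vonMangoldt n : ℝ)

lemma res_eq : (fun n : ℕ => ((ArithmeticFunction.vonMangoldt.residueClass (0 : ZMod 1) n : ℝ) : ℂ)) =
    vM := by
  funext n
  unfold vM ArithmeticFunction.vonMangoldt.residueClass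
  rw [Set.indicator_of_mem]
  exact Subsingleton.elim _ _

/-- The behaviour on the line `Re s = 1`. -/
lemma pole (l : ℝ) : Tendsto (fun δ : ℝ => (δ : ℂ) * LSeries vM (1 + δ + l * Complex.I)) (𝓝[>] 0)
    (𝓝 (if l = 0 then 1 else 0)) := by
  set G := ArithmeticFunction.vonMangoldt.LFunctionResidueClassAux (0 : ZMod 1) with hG
  have hu : IsUnit (0 : ZMod 1) := isUnit_of_subsingleton _
  have h1 : ∀ s : ℂ, 1 < s.re → LSeries vM s = G s + 1 / (s - 1) := by
    intro s hs
    have h2 := ArithmeticFunction.vonMangoldt.eqOn_LFunctionResidueClassAux hu hs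
    simp only [res_eq, Nat.totient_one, Nat.cast_one, inv_one] at h2
    rw [hG, h2]
    ring
  have hre : ∀ δ : ℝ, (1 + (δ : ℂ) + l * Complex.I).re = 1 + δ := fun δ => by simp
  have hc := ArithmeticFunction.vonMangoldt.continuousOn_LFunctionResidueClassAux (0 : ZMod 1)
    (1 + ((0 : ℝ) : ℂ) + l * Complex.I) (by
      show 1 ≤ (1 + ((0 : ℝ) : ℂ) + l * Complex.I).re
      rw [hre]
      simp)
  have h2 : Tendsto (fun δ : ℝ => G (1 + δ + l * Complex.I)) (𝓝[>] 0)
      (𝓝 (G (1 + ((0 : ℝ) : ℂ) + l * Complex.I))) := by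
    refine hc.tendsto.comp (tendsto_nhdsWithin_iff.2 ⟨?_, ?_⟩)
    · refine Tendsto.mono_left ?_ nhdsWithin_le_nhds
      have h3 : Continuous fun δ : ℝ => 1 + (δ : ℂ) + l * Complex.I := by fun_prop
      exact h3.tendsto 0
    · filter_upwards [self_mem_nhdsWithin] with δ hδ
      show 1 ≤ (1 + (δ : ℂ) + l * Complex.I).re
      rw [hre]
      have : (0 : ℝ) < δ := hδ
      linarith
  have h3 : Tendsto (fun δ : ℝ => (δ : ℂ)) (𝓝[>] 0) (𝓝 0) := by
    refine Tendsto.mono_left ?_ nhdsWithin_le_nhds
    exact Complex.continuous_ofReal.tendsto 0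
  have h4 : Tendsto (fun δ : ℝ => (δ : ℂ) / ((δ : ℂ) + l * Complex.I)) (𝓝[>] 0)
      (𝓝 (if l = 0 then 1 else 0)) := by
    split_ifs with hl
    · refine tendsto_const_nhds.congr' ?_
      filter_upwards [self_mem_nhdsWithin] with δ hδ
      have h5 : (0 : ℝ) < δ := hδ
      have h6 : (δ : ℂ) ≠ 0 := by exact_mod_cast h5.ne'
      rw [hl, Complex.ofReal_zero, zero_mul, add_zero, div_self h6]
    · have h5 : ((0 : ℝ) : ℂ) + l * Complex.I ≠ 0 := by
        rw [Complex.ofReal_zero, zero_add]
        exact mul_ne_zero (by exact_mod_cast hl) Complex.I_ne_zero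
      have h6 : Tendsto (fun δ : ℝ => (δ : ℂ) / ((δ : ℂ) + l * Complex.I)) (𝓝 0)
          (𝓝 (((0 : ℝ) : ℂ) / (((0 : ℝ) : ℂ) + l * Complex.I))) := by
        refine Tendsto.div (Complex.continuous_ofReal.tendsto 0) ?_ h5
        have h7 : Continuous fun δ : ℝ => (δ : ℂ) + l * Complex.I := by fun_prop
        exact h7.tendsto 0
      rw [Complex.ofReal_zero, zero_div] at h6
      exact h6.mono_left nhdsWithin_le_nhds
  have h5 := (h3.mul h2).add h4
  rw [zero_mul, zero_add] at h5
  refine h5.congr' ?_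
  filter_upwards [self_mem_nhdsWithin] with δ hδ
  have h6 : (0 : ℝ) < δ := hδ
  rw [h1 _ (by rw [hre]; linarith)]
  have h7 : 1 + (δ : ℂ) + l * Complex.I - 1 = (δ : ℂ) + l * Complex.I := by ring
  rw [h7, mul_add, mul_one_div]

lemma term_shift (s : ℂ) (l : ℝ) (n : ℕ) :
    LSeries.term vM (s + l * Complex.I) n = LSeries.term vM s n * ph n l := by
  rcases Nat.eq_zero_or_pos n with rfl | hn
  · simp
  · rw [LSeries.term_of_ne_zero hn.ne', LSeries.term_of_ne_zero hn.ne', ← ph_eq n hn l]
    have h0 : (n : ℂ) ≠ 0 := by exact_mod_cast hn.ne'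
    rw [Complex.cpow_add _ _ h0, Complex.cpow_neg]
    field_simp

/-- An exponential polynomial that vanishes at the logarithms of all large primes is zero. -/
theorem vanish (a : ℝ →₀ ℂ) (x : ℕ)
    (hz : ∀ p : ℕ, p.Prime → x ≤ p → (a.sum fun l b => b * ph p l) = 0) : a = 0 := by
  ext l₀
  rw [Finsupp.zero_apply]
  set A : ℝ := ∑ l ∈ a.support, ‖a l‖ with hA
  have hA0 : 0 ≤ A := sum_nonneg fun _ _ => norm_nonneg _
  set E : ℕ → ℂ := fun n => a.sum fun l b => b * ph n l with hE
  have hEn : ∀ n, ‖E n‖ ≤ A := by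
    intro n
    refine norm_sum_le_of_le _ fun l _ => ?_
    rw [norm_mul, norm_ph, mul_one]
  set b : ℕ → ℝ := fun n => A * (if n < x then ArithmeticFunction.vonMangoldt n / n else 0) +
    A * ((if n.Prime then 0 else
      ArithmeticFunction.vonMangoldt.residueClass (0 : ZMod 1) n) / n) with hb
  have hbs : Summable b := by
    refine Summable.add (Summable.mul_left A ?_) (Summable.mul_left A
      (ArithmeticFunction.vonMangoldt.summable_residueClass_non_primes_div (0 : ZMod 1)))
    refine summable_of_ne_finset_zero (s := Finset.range x) fun n hn => ?_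
    rw [if_neg]
    intro h
    exact hn (Finset.mem_range.2 h)
  have hterm : ∀ δ : ℝ, 0 < δ → ∀ n,
      ‖LSeries.term vM (1 + δ - l₀ * Complex.I) n * E n‖ ≤ b n := by
    intro δ hδ n
    have hL : 0 ≤ ArithmeticFunction.vonMangoldt n := ArithmeticFunction.vonMangoldt_nonneg
    have hres : ArithmeticFunction.vonMangoldt.residueClass (0 : ZMod 1) n =
        ArithmeticFunction.vonMangoldt n := by
      unfold ArithmeticFunction.vonMangoldt.residueClass
      rw [Set.indicator_of_mem]
      exact Subsingleton.elim _ _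
    rcases Nat.eq_zero_or_pos n with rfl | hn
    · simp only [LSeries.term_zero, zero_mul, norm_zero]
      simp [hb]
    · have hn0 : (0 : ℝ) < n := by exact_mod_cast hn
      have hn1 : (1 : ℝ) ≤ n := by exact_mod_cast hn
      have h1 : ‖LSeries.term vM (1 + δ - l₀ * Complex.I) n‖ ≤
          ArithmeticFunction.vonMangoldt n / n := by
        rw [LSeries.term_of_ne_zero hn.ne', norm_div, Complex.norm_natCast_cpow_of_pos hn]
        unfold vM
        rw [Complex.norm_real, Real.norm_of_nonneg hL]
        have h2 : (1 + (δ : ℂ) - l₀ * Complex.I).re = 1 + δ := by simp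
        rw [h2]
        refine div_le_div_of_nonneg_left hL hn0 ?_
        calc (n : ℝ) = (n : ℝ) ^ (1 : ℝ) := (Real.rpow_one _).symm
          _ ≤ (n : ℝ) ^ (1 + δ) := Real.rpow_le_rpow_of_exponent_le hn1 (by linarith)
      have h3 : 0 ≤ ArithmeticFunction.vonMangoldt n / n := div_nonneg hL hn0.le
      have h4 : ‖LSeries.term vM (1 + δ - l₀ * Complex.I) n * E n‖ ≤
          ArithmeticFunction.vonMangoldt n / n * A := by
        rw [norm_mul]
        exact mul_le_mul h1 (hEn n) (norm_nonneg _) h3
      simp only [hb, hres]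
      by_cases hx : n < x
      · rw [if_pos hx]
        have h5 : 0 ≤ A * ((if n.Prime then 0 else ArithmeticFunction.vonMangoldt n) / n) := by
          split_ifs
          · simp
          · positivity
        linarith
      · rw [if_neg hx, mul_zero, zero_add]
        by_cases hp : n.Prime
        · have h5 : E n = 0 := hz n hp (by omega)
          rw [h5, mul_zero, norm_zero, if_pos hp, zero_div, mul_zero]
        · rw [if_neg hp]
          linarith
  have hsum : ∀ δ : ℝ, 0 < δ → ∑ l ∈ a.support,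
      a l * ((δ : ℂ) * LSeries vM (1 + δ + ((l - l₀ : ℝ) : ℂ) * Complex.I)) =
      (δ : ℂ) * ∑' n, LSeries.term vM (1 + δ - l₀ * Complex.I) n * E n := by
    intro δ hδ
    have hsm : ∀ l : ℝ, Summable fun n => LSeries.term vM (1 + δ - l₀ * Complex.I) n * ph n l := by
      intro l
      have h1 : LSeriesSummable vM (1 + δ - l₀ * Complex.I + l * Complex.I) := by
        refine ArithmeticFunction.LSeriesSummable_vonMangoldt ?_
        simp only [Complex.add_re, Complex.sub_re, Complex.one_re, Complex.ofReal_re,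
          Complex.mul_re, Complex.I_re, mul_zero, Complex.ofReal_im, Complex.I_im, zero_mul,
          sub_self, sub_zero, add_zero]
        linarith
      unfold LSeriesSummable at h1
      exact h1.congr fun n => term_shift _ l n
    have h1 : ∀ n, LSeries.term vM (1 + δ - l₀ * Complex.I) n * E n =
        ∑ l ∈ a.support, a l * (LSeries.term vM (1 + δ - l₀ * Complex.I) n * ph n l) := by
      intro n
      simp only [hE, Finsupp.sum]
      rw [mul_sum]
      exact sum_congr rfl fun l _ => by ring
    simp only [h1]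
    rw [Summable.tsum_finsetSum (fun l _ => (hsm l).mul_left (a l)), mul_sum]
    refine sum_congr rfl fun l _ => ?_
    rw [tsum_mul_left]
    have h2 : LSeries vM (1 + δ + ((l - l₀ : ℝ) : ℂ) * Complex.I) =
        ∑' n, LSeries.term vM (1 + δ - l₀ * Complex.I) n * ph n l := by
      unfold LSeries
      refine tsum_congr fun n => ?_
      rw [← term_shift]
      congr 1
      push_cast
      ring
    rw [h2]
    ring
  have hlim : Tendsto (fun δ : ℝ => ∑ l ∈ a.support,
      a l * ((δ : ℂ) * LSeries vM (1 + δ + ((l - l₀ : ℝ) : ℂ) * Complex.I))) (𝓝[>] 0)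
      (𝓝 (∑ l ∈ a.support, a l * (if l - l₀ = 0 then 1 else 0))) :=
    tendsto_finsetSum _ fun l _ => (pole (l - l₀)).const_mul (a l)
  have hval : ∑ l ∈ a.support, a l * (if l - l₀ = 0 then 1 else 0) = a l₀ := by
    by_cases h : l₀ ∈ a.support
    · rw [sum_eq_single l₀]
      · rw [sub_self, if_pos rfl, mul_one]
      · intro l _ hl
        rw [if_neg (sub_ne_zero.2 hl), mul_zero]
      · intro h'
        exact absurd h h'
    · rw [Finsupp.notMem_support_iff.1 h]
      refine sum_eq_zero fun l hl => ?_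
      rw [if_neg, mul_zero]
      intro h'
      rw [sub_eq_zero] at h'
      exact h (h' ▸ hl)
  rw [hval] at hlim
  have hz' : Tendsto (fun δ : ℝ => ∑ l ∈ a.support,
      a l * ((δ : ℂ) * LSeries vM (1 + δ + ((l - l₀ : ℝ) : ℂ) * Complex.I))) (𝓝[>] 0) (𝓝 0) := by
    have h1 : Tendsto (fun δ : ℝ => δ * ∑' n, b n) (𝓝[>] 0) (𝓝 0) := by
      have h2 : Tendsto (fun δ : ℝ => δ * ∑' n, b n) (𝓝 0) (𝓝 (0 * ∑' n, b n)) :=
        tendsto_id.mul_const _
      rw [zero_mul] at h2
      exact h2.mono_left nhdsWithin_le_nhds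
    refine squeeze_zero_norm' ?_ h1
    filter_upwards [self_mem_nhdsWithin] with δ hδ
    have hδ0 : (0 : ℝ) < δ := hδ
    rw [hsum δ hδ0, norm_mul, Complex.norm_real, Real.norm_of_nonneg hδ0.le]
    refine mul_le_mul_of_nonneg_left ?_ hδ0.le
    exact tsum_of_norm_bounded hbs.hasSum (hterm δ hδ0)
  exact tendsto_nhds_unique hlim hz'

end Pool.Agent.N903.EV
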