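import Pool.Agent.N903.EL.Loc

/-!
# Oscillatory integrals over a period whose phase has a derivative bounded below by a polynomial
-/

set_option autoImplicit false

namespace Pool.Agent.N903.EV

open MeasureTheory Finset Pool.Agent.N903.EL
open scoped ComplexConjugate

/-- A linear factor on the circle. -/
lemma factor_lower (z : ℂ) : ∃ φ : ℝ, ∀ θ : ℝ,
    (1 + ‖z‖) * |Real.sin ((θ - φ) / 2)| ≤ ‖ee 1 θ - z‖ := by
  refine ⟨z.arg, fun θ => ?_⟩
  set ρ := ‖z‖ with hρ
  have hρ0 : 0 ≤ ρ := norm_nonneg z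
  set φ := z.arg with hφ
  have hz1 : z.re = ρ * Real.cos φ := (Complex.norm_mul_cos_arg z).symm
  have hz2 : z.im = ρ * Real.sin φ := (Complex.norm_mul_sin_arg z).symm
  have he : ee 1 θ = Complex.exp ((θ : ℝ) * Complex.I) := by
    unfold ee
    simp
  have h1 : ‖ee 1 θ - z‖ ^ 2 = 1 + ρ ^ 2 - 2 * ρ * Real.cos (θ - φ) := by
    rw [← Complex.normSq_eq_norm_sq, Complex.normSq_apply, he, Complex.sub_re, Complex.sub_im,
      Complex.exp_ofReal_mul_I_re, Complex.exp_ofReal_mul_I_im, hz1, hz2, Real.cos_sub]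
    have := Real.sin_sq_add_cos_sq θ
    have := Real.sin_sq_add_cos_sq φ
    nlinarith
  have h2 : Real.cos (θ - φ) = 1 - 2 * Real.sin ((θ - φ) / 2) ^ 2 := by
    have h3 := Real.cos_sq' ((θ - φ) / 2)
    have h4 := Real.cos_sq ((θ - φ) / 2)
    have h5 : 2 * ((θ - φ) / 2) = θ - φ := by ring
    rw [h5] at h4
    linarith
  refine abs_le_of_sq_le_sq' ?_ (norm_nonneg _) |>.2
  rw [h1, h2, mul_pow, sq_abs]
  have h6 : Real.sin ((θ - φ) / 2) ^ 2 ≤ 1 := Real.sin_sq_le_one _
  nlinarith [sq_nonneg (1 - ρ)]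

/-- A polynomial on the circle. -/
lemma poly_lower (d : ℕ) : ∀ S : Polynomial ℂ, S.natDegree ≤ d → ∃ φ : Fin d → ℝ, ∀ θ θ₀ : ℝ,
    ‖S.eval (ee 1 θ₀)‖ * ∏ i, |Real.sin ((θ - φ i) / 2)| ≤ ‖S.eval (ee 1 θ)‖ := by
  induction d with
  | zero =>
    intro S hS
    obtain ⟨c, rfl⟩ : ∃ c, S = Polynomial.C c := ⟨_, Polynomial.eq_C_of_natDegree_le_zero hS⟩
    exact ⟨fun _ => 0, fun θ θ₀ => by simp⟩
  | succ d ih =>
    intro S hS
    rcases Nat.lt_or_ge S.natDegree (d + 1) with h | h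
    · obtain ⟨φ, hφ⟩ := ih S (by omega)
      refine ⟨Fin.cons 0 φ, fun θ θ₀ => ?_⟩
      rw [Fin.prod_univ_succ]
      simp only [Fin.cons_zero, Fin.cons_succ]
      refine le_trans ?_ (hφ θ θ₀)
      refine mul_le_mul_of_nonneg_left ?_ (norm_nonneg _)
      exact mul_le_of_le_one_left (prod_nonneg fun _ _ => abs_nonneg _) (Real.abs_sin_le_one _)
    · have hdeg : S.natDegree = d + 1 := by omega
      obtain ⟨z, hz⟩ := IsAlgClosed.exists_root S (by
        intro h0
        have := Polynomial.natDegree_eq_of_degree_eq_some (n := 0) h0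
        omega)
      obtain ⟨T, rfl⟩ := Polynomial.dvd_iff_isRoot.2 hz
      have hT : T ≠ 0 := by
        rintro rfl
        simp at hdeg
      have hdT : T.natDegree ≤ d := by
        rw [Polynomial.natDegree_mul (Polynomial.X_sub_C_ne_zero z) hT,
          Polynomial.natDegree_X_sub_C] at hdeg
        omega
      obtain ⟨φ, hφ⟩ := ih T hdT
      obtain ⟨ψ, hψ⟩ := factor_lower z
      refine ⟨Fin.cons ψ φ, fun θ θ₀ => ?_⟩
      rw [Fin.prod_univ_succ]
      simp only [Fin.cons_zero, Fin.cons_succ, Polynomial.eval_mul, Polynomial.eval_sub,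
        Polynomial.eval_X, Polynomial.eval_C, norm_mul]
      have h1 : ‖ee 1 θ₀ - z‖ ≤ 1 + ‖z‖ := by
        refine (norm_sub_le _ _).trans ?_
        rw [norm_ee]
      calc ‖ee 1 θ₀ - z‖ * ‖T.eval (ee 1 θ₀)‖ *
            (|Real.sin ((θ - ψ) / 2)| * ∏ i, |Real.sin ((θ - φ i) / 2)|)
          = (‖ee 1 θ₀ - z‖ * |Real.sin ((θ - ψ) / 2)|) *
            (‖T.eval (ee 1 θ₀)‖ * ∏ i, |Real.sin ((θ - φ i) / 2)|) := by ring
        _ ≤ ‖ee 1 θ - z‖ * ‖T.eval (ee 1 θ)‖ := by
            refine mul_le_mul ?_ (hφ θ θ₀)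
              (mul_nonneg (norm_nonneg _) (prod_nonneg fun _ _ => abs_nonneg _)) (norm_nonneg _)
            exact (mul_le_mul_of_nonneg_right h1 (abs_nonneg _)).trans (hψ θ)

/-- The mean of the bump at a zero. -/
lemma bump_int (φ η : ℝ) (hη : 0 < η) :
    ∫ θ in (0 : ℝ)..(2 * Real.pi), 2 * η ^ 2 / (Real.sin ((θ - φ) / 2) ^ 2 + η ^ 2) ≤
      2 * Real.pi ^ 2 * η := by
  have hpi := Real.pi_pos
  set F : ℝ → ℝ := fun t => 2 * η ^ 2 / (Real.sin (t / 2) ^ 2 + η ^ 2) with hF
  have hden : ∀ t : ℝ, 0 < Real.sin (t / 2) ^ 2 + η ^ 2 := fun t => by positivity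
  have hFc : Continuous F := by
    simp only [hF]
    exact Continuous.div (by fun_prop) (by fun_prop) fun t => (hden t).ne'
  have hper : Function.Periodic F (2 * Real.pi) := by
    intro t
    simp only [hF]
    have : (t + 2 * Real.pi) / 2 = t / 2 + Real.pi := by ring
    rw [this, Real.sin_add_pi, neg_sq]
  have h1 : ∫ θ in (0 : ℝ)..(2 * Real.pi), F (θ - φ) = ∫ t in (-Real.pi)..Real.pi, F t := by
    rw [intervalIntegral.integral_comp_sub_right]
    have h2 := hper.intervalIntegral_add_eq (0 - φ) (-Real.pi)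
    have e1 : 0 - φ + 2 * Real.pi = 2 * Real.pi - φ := by ring
    have e2 : -Real.pi + 2 * Real.pi = Real.pi := by ring
    rwa [e1, e2] at h2
  have h2 : ∫ t in (-Real.pi)..Real.pi, F t ≤
      ∫ t in (-Real.pi)..Real.pi, 2 * (1 / (1 + (t / (Real.pi * η)) ^ 2)) := by
    refine intervalIntegral.integral_mono_on (by linarith) (hFc.intervalIntegrable _ _) ?_ ?_
    · refine Continuous.intervalIntegrable ?_ _ _
      exact continuous_const.mul (Continuous.div (by fun_prop) (by fun_prop)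
        fun t => by positivity)
    · intro t ht
      simp only [hF]
      have h3 : |t| / Real.pi ≤ |Real.sin (t / 2)| := by
        have h4 : |t| / 2 ≤ Real.pi / 2 := by
          have : |t| ≤ Real.pi := abs_le.2 ht
          linarith
        have h5 := Real.mul_le_sin (by positivity : 0 ≤ |t| / 2) h4
        have h6 : |Real.sin (t / 2)| = Real.sin (|t| / 2) := by
          have h7 : |t / 2| = |t| / 2 := by rw [abs_div, abs_two]
          rw [← h7, Real.abs_sin_eq_sin_abs_of_abs_le_pi]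
          rw [h7]
          linarith
        rw [h6]
        refine le_trans (le_of_eq ?_) h5
        field_simp
      have h4 : t ^ 2 / Real.pi ^ 2 ≤ Real.sin (t / 2) ^ 2 := by
        have := pow_le_pow_left₀ (by positivity) h3 2
        rwa [div_pow, sq_abs, sq_abs] at this
      rw [mul_one_div, div_le_div_iff₀ (hden t) (by positivity)]
      have h5 : (t / (Real.pi * η)) ^ 2 * η ^ 2 = t ^ 2 / Real.pi ^ 2 := by
        field_simp
      nlinarith
  have h3 : ∫ t in (-Real.pi)..Real.pi, 2 * (1 / (1 + (t / (Real.pi * η)) ^ 2)) =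
      2 * (Real.pi * η * (Real.arctan (Real.pi / (Real.pi * η)) -
        Real.arctan (-Real.pi / (Real.pi * η)))) := by
    rw [intervalIntegral.integral_const_mul]
    congr 1
    rw [intervalIntegral.integral_comp_div (fun t => 1 / (1 + t ^ 2)) (by positivity),
      integral_one_div_one_add_sq, smul_eq_mul]
  have h4 := Real.arctan_lt_pi_div_two (Real.pi / (Real.pi * η))
  have h5 := Real.neg_pi_div_two_lt_arctan (-Real.pi / (Real.pi * η))
  have h6 : ∫ θ in (0 : ℝ)..(2 * Real.pi), 2 * η ^ 2 / (Real.sin ((θ - φ) / 2) ^ 2 + η ^ 2) =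
      ∫ θ in (0 : ℝ)..(2 * Real.pi), F (θ - φ) := rfl
  rw [h6, h1]
  refine h2.trans ?_
  rw [h3]
  have h7 : 0 < Real.pi * η := by positivity
  nlinarith

/-- **The oscillatory integral.** -/
theorem osc_decay (d : ℕ) (hd : 1 ≤ d) (g g' g'' : ℝ → ℝ) (hg : ∀ θ, HasDerivAt g (g' θ) θ)
    (hg' : ∀ θ, HasDerivAt g' (g'' θ) θ) (hc : Continuous g'')
    (hper : Function.Periodic g (2 * Real.pi)) (hper' : Function.Periodic g' (2 * Real.pi))
    (M : ℝ) (hM : ∀ θ, |g'' θ| ≤ M) (φ : Fin d → ℝ) (s : ℝ) (hs : 0 < s)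
    (hlow : ∀ θ, s * ∏ i, |Real.sin ((θ - φ i) / 2)| ≤ |g' θ|) (q : ℝ) (hq : 1 ≤ q) :
    ‖cmean fun θ => Complex.exp ((q ^ (8 * d) * g θ : ℝ) * Complex.I)‖ ≤
      (M + 4 * d + 1 / s ^ 2) / q := by
  have hq0 : 0 < q := by linarith
  have hM0 : 0 ≤ M := (abs_nonneg _).trans (hM 0)
  have hpi := Real.pi_pos
  set R : ℝ := q ^ (8 * d) with hR
  have hR0 : 0 < R := by positivity
  set D : ℝ := (q ^ (4 * d))⁻¹ with hD
  have hD0 : 0 < D := by positivity
  set η : ℝ := q⁻¹ with hη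
  have hη0 : 0 < η := by positivity
  have hη1 : η ≤ 1 := inv_le_one_of_one_le₀ hq
  have hgc' : Continuous g' := continuous_iff_continuousAt.2 fun θ => (hg' θ).continuousAt
  have hgc : Continuous g := continuous_iff_continuousAt.2 fun θ => (hg θ).continuousAt
  have hden : ∀ y : ℝ, 0 < y ^ 2 + D := fun y => by positivity
  -- the amplitude
  set a : ℝ → ℝ := fun θ => g' θ / (g' θ ^ 2 + D) with ha
  set a' : ℝ → ℝ := fun θ => (g'' θ * (D - g' θ ^ 2)) / (g' θ ^ 2 + D) ^ 2 with ha'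
  have had : ∀ θ, HasDerivAt a (a' θ) θ := by
    intro θ
    have h1 := (hg' θ).div (((hg' θ).pow 2).add_const D) (hden (g' θ)).ne'
    refine h1.congr_deriv ?_
    simp only [ha']
    have := (hden (g' θ)).ne'
    congr 1
    simp only [Pi.pow_apply]
    push_cast
    ring
  have hac' : Continuous a' := by
    simp only [ha']
    exact Continuous.div (by fun_prop) (by fun_prop) fun θ => (pow_pos (hden (g' θ)) 2).ne'
  have hac : Continuous a := continuous_iff_continuousAt.2 fun θ => (had θ).continuousAt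
  have ha'b : ∀ θ, |a' θ| ≤ M / D := by
    intro θ
    simp only [ha']
    rw [abs_div, abs_mul, abs_of_pos (pow_pos (hden (g' θ)) 2), div_le_div_iff₀
      (pow_pos (hden (g' θ)) 2) hD0]
    have h1 : |D - g' θ ^ 2| ≤ g' θ ^ 2 + D := by
      rw [abs_le]
      constructor <;> nlinarith [sq_nonneg (g' θ)]
    have h2 : |g'' θ| * |D - g' θ ^ 2| ≤ M * (g' θ ^ 2 + D) :=
      mul_le_mul (hM θ) h1 (abs_nonneg _) hM0
    calc |g'' θ| * |D - g' θ ^ 2| * D ≤ M * (g' θ ^ 2 + D) * D :=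
          mul_le_mul_of_nonneg_right h2 hD0.le
      _ ≤ M * (g' θ ^ 2 + D) * (g' θ ^ 2 + D) := by
          refine mul_le_mul_of_nonneg_left ?_ (mul_nonneg hM0 (hden _).le)
          nlinarith [sq_nonneg (g' θ)]
      _ = M * (g' θ ^ 2 + D) ^ 2 := by ring
  set E : ℝ → ℂ := fun θ => Complex.exp ((R * g θ : ℝ) * Complex.I) with hE
  have hEn : ∀ θ, ‖E θ‖ = 1 := fun θ => Complex.norm_exp_ofReal_mul_I _
  have hEc : Continuous E := by
    simp only [hE]
    fun_prop
  have hEd : ∀ θ, HasDerivAt E (E θ * ((R * g' θ : ℝ) * Complex.I)) θ := by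
    intro θ
    exact (((hg θ).const_mul R).ofReal_comp.mul_const Complex.I).cexp
  -- integration by parts
  have hparts : ∫ θ in (0 : ℝ)..(2 * Real.pi), (E θ * ((R * g' θ : ℝ) * Complex.I)) * (a θ : ℂ) =
      -∫ θ in (0 : ℝ)..(2 * Real.pi), E θ * (a' θ : ℂ) := by
    have h1 : ∀ θ ∈ Set.uIcc (0 : ℝ) (2 * Real.pi), HasDerivAt (fun θ => E θ * (a θ : ℂ))
        ((E θ * ((R * g' θ : ℝ) * Complex.I)) * (a θ : ℂ) + E θ * (a' θ : ℂ)) θ := by
      intro θ _
      exact (hEd θ).mul (had θ).ofReal_comp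
    have hi1 : IntervalIntegrable (fun θ => (E θ * ((R * g' θ : ℝ) * Complex.I)) * (a θ : ℂ))
        volume 0 (2 * Real.pi) := by
      refine Continuous.intervalIntegrable ?_ _ _
      fun_prop
    have hi2 : IntervalIntegrable (fun θ => E θ * (a' θ : ℂ)) volume 0 (2 * Real.pi) := by
      refine Continuous.intervalIntegrable ?_ _ _
      fun_prop
    have h2 := intervalIntegral.integral_eq_sub_of_hasDerivAt h1 (hi1.add hi2)
    have h3 : E (2 * Real.pi) = E 0 := by
      simp only [hE]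
      have := hper 0
      rw [zero_add] at this
      rw [this]
    have h4 : a (2 * Real.pi) = a 0 := by
      simp only [ha]
      have := hper' 0
      rw [zero_add] at this
      rw [this]
    rw [h3, h4, sub_self, intervalIntegral.integral_add hi1 hi2] at h2
    exact eq_neg_of_add_eq_zero_left h2
  -- the decomposition
  set b : ℝ → ℝ := fun θ => D / (g' θ ^ 2 + D) with hb
  have hbc : Continuous b := by
    simp only [hb]
    exact Continuous.div (by fun_prop) (by fun_prop) fun θ => (hden (g' θ)).ne'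
  have hdec : ∀ θ, E θ = (1 / (R * Complex.I)) *
      ((E θ * ((R * g' θ : ℝ) * Complex.I)) * (a θ : ℂ)) + E θ * (b θ : ℂ) := by
    intro θ
    have h1 : g' θ * a θ + b θ = 1 := by
      simp only [ha, hb]
      have := (hden (g' θ)).ne'
      field_simp
    have h2 : (R : ℂ) * Complex.I ≠ 0 :=
      mul_ne_zero (by exact_mod_cast hR0.ne') Complex.I_ne_zero
    have h3 : ((g' θ : ℂ)) * (a θ : ℂ) + (b θ : ℂ) = 1 := by exact_mod_cast h1
    have h4 : (1 / (R * Complex.I)) * ((E θ * ((R * g' θ : ℝ) * Complex.I)) * (a θ : ℂ)) =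
        E θ * ((g' θ : ℂ) * (a θ : ℂ)) := by
      push_cast
      have h5 : (R : ℂ) ≠ 0 := by exact_mod_cast hR0.ne'
      rw [one_div_mul_eq_div, div_eq_iff h2]
      ring
    rw [h4, ← mul_add, h3, mul_one]
  have hbb : ∀ θ, b θ ≤ (∑ i, 2 * η ^ 2 / (Real.sin ((θ - φ i) / 2) ^ 2 + η ^ 2)) +
      D / (s * η ^ d) ^ 2 := by
    intro θ
    simp only [hb]
    have hs0 : 0 ≤ D / (s * η ^ d) ^ 2 := by positivity
    have hnn : ∀ i ∈ (univ : Finset (Fin d)),
        0 ≤ 2 * η ^ 2 / (Real.sin ((θ - φ i) / 2) ^ 2 + η ^ 2) := fun i _ => by positivity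
    by_cases h : ∃ i, |Real.sin ((θ - φ i) / 2)| < η
    · obtain ⟨i, hi⟩ := h
      have h1 : D / (g' θ ^ 2 + D) ≤ 1 := by
        rw [div_le_one (hden _)]
        nlinarith [sq_nonneg (g' θ)]
      have h2 : 1 ≤ 2 * η ^ 2 / (Real.sin ((θ - φ i) / 2) ^ 2 + η ^ 2) := by
        rw [le_div_iff₀ (by positivity)]
        have h3 : Real.sin ((θ - φ i) / 2) ^ 2 ≤ η ^ 2 := by
          rw [← sq_abs]
          exact pow_le_pow_left₀ (abs_nonneg _) hi.le 2
        linarith
      have h3 := single_le_sum hnn (mem_univ i)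
      linarith
    · push Not at h
      have h1 : η ^ d ≤ ∏ i, |Real.sin ((θ - φ i) / 2)| := by
        have := prod_le_prod (s := (univ : Finset (Fin d))) (f := fun _ => η)
          (g := fun i => |Real.sin ((θ - φ i) / 2)|) (fun _ _ => hη0.le) (fun i _ => h i)
        rwa [prod_const, card_univ, Fintype.card_fin] at this
      have h2 : s * η ^ d ≤ |g' θ| := (mul_le_mul_of_nonneg_left h1 hs.le).trans (hlow θ)
      have h3 : (s * η ^ d) ^ 2 ≤ g' θ ^ 2 := by
        rw [← sq_abs (g' θ)]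
        exact pow_le_pow_left₀ (by positivity) h2 2
      have h4 : D / (g' θ ^ 2 + D) ≤ D / (s * η ^ d) ^ 2 := by
        refine div_le_div_of_nonneg_left hD0.le (by positivity) ?_
        linarith
      have h5 := sum_nonneg hnn
      linarith
  have hb0 : ∀ θ, 0 ≤ b θ := fun θ => by
    simp only [hb]
    exact (div_pos hD0 (hden _)).le
  have hbint : ∫ θ in (0 : ℝ)..(2 * Real.pi), b θ ≤
      2 * Real.pi * (d * Real.pi * η + D / (s * η ^ d) ^ 2) := by
    have hc1 : ∀ i, Continuous fun θ => 2 * η ^ 2 / (Real.sin ((θ - φ i) / 2) ^ 2 + η ^ 2) := by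
      intro i
      exact Continuous.div (by fun_prop) (by fun_prop) fun θ => by positivity
    have h1 : ∫ θ in (0 : ℝ)..(2 * Real.pi), b θ ≤ ∫ θ in (0 : ℝ)..(2 * Real.pi),
        ((∑ i, 2 * η ^ 2 / (Real.sin ((θ - φ i) / 2) ^ 2 + η ^ 2)) + D / (s * η ^ d) ^ 2) := by
      refine intervalIntegral.integral_mono_on two_pi_pos'.le (hbc.intervalIntegrable _ _) ?_
        fun θ _ => hbb θ
      exact ((continuous_finsetSum _ fun i _ => hc1 i).add continuous_const).intervalIntegrable _ _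
    refine h1.trans ?_
    rw [intervalIntegral.integral_add
      ((continuous_finsetSum _ fun i _ => hc1 i).intervalIntegrable _ _)
      (continuous_const.intervalIntegrable _ _),
      intervalIntegral.integral_finsetSum fun i _ => (hc1 i).intervalIntegrable _ _,
      intervalIntegral.integral_const, sub_zero, smul_eq_mul]
    have h2 : ∑ i : Fin d, ∫ θ in (0 : ℝ)..(2 * Real.pi),
        2 * η ^ 2 / (Real.sin ((θ - φ i) / 2) ^ 2 + η ^ 2) ≤ d * (2 * Real.pi ^ 2 * η) := by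
      have := sum_le_sum (s := (univ : Finset (Fin d))) fun i _ => bump_int (φ i) η hη0
      rwa [sum_const, card_univ, Fintype.card_fin, nsmul_eq_mul] at this
    nlinarith
  -- conclusion
  have hI : ∫ θ in (0 : ℝ)..(2 * Real.pi), E θ = (1 / (R * Complex.I)) *
      (-∫ θ in (0 : ℝ)..(2 * Real.pi), E θ * (a' θ : ℂ)) +
      ∫ θ in (0 : ℝ)..(2 * Real.pi), E θ * (b θ : ℂ) := by
    rw [← hparts, ← intervalIntegral.integral_const_mul, ← intervalIntegral.integral_add]
    · exact intervalIntegral.integral_congr fun θ _ => hdec θ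
    · refine Continuous.intervalIntegrable ?_ _ _
      fun_prop
    · refine Continuous.intervalIntegrable ?_ _ _
      fun_prop
  have hn1 : ‖∫ θ in (0 : ℝ)..(2 * Real.pi), E θ * (a' θ : ℂ)‖ ≤ M / D * (2 * Real.pi) := by
    have h1 := intervalIntegral.norm_integral_le_of_norm_le_const (a := 0) (b := 2 * Real.pi)
      (C := M / D) (f := fun θ => E θ * (a' θ : ℂ)) fun θ _ => by
        rw [norm_mul, hEn, one_mul, Complex.norm_real]
        exact ha'b θ
    rwa [sub_zero, abs_of_pos two_pi_pos'] at h1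
  have hn2 : ‖∫ θ in (0 : ℝ)..(2 * Real.pi), E θ * (b θ : ℂ)‖ ≤
      ∫ θ in (0 : ℝ)..(2 * Real.pi), b θ := by
    refine (intervalIntegral.norm_integral_le_integral_norm two_pi_pos'.le).trans (le_of_eq ?_)
    refine intervalIntegral.integral_congr fun θ _ => ?_
    beta_reduce
    rw [norm_mul, hEn, one_mul, Complex.norm_real, Real.norm_of_nonneg (hb0 θ)]
  have hn3 : ‖∫ θ in (0 : ℝ)..(2 * Real.pi), E θ‖ ≤
      1 / R * (M / D * (2 * Real.pi)) + 2 * Real.pi * (d * Real.pi * η + D / (s * η ^ d) ^ 2) := by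
    rw [hI]
    refine (norm_add_le _ _).trans (add_le_add ?_ (hn2.trans hbint))
    rw [norm_mul, norm_neg, norm_div, norm_one, norm_mul, Complex.norm_I, mul_one,
      Complex.norm_real, Real.norm_of_nonneg hR0.le]
    exact mul_le_mul_of_nonneg_left hn1 (by positivity)
  have hq1 : (q ^ (4 * d))⁻¹ ≤ q⁻¹ := by
    refine inv_anti₀ hq0 ?_
    exact le_self_pow₀ hq (by omega)
  have e1 : 1 / R * (M / D) = M * (q ^ (4 * d))⁻¹ := by
    rw [hR, hD]
    have : q ^ (8 * d) = q ^ (4 * d) * q ^ (4 * d) := by rw [← pow_add]; congr 1; ring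
    rw [this]
    field_simp
  have e2 : D / (s * η ^ d) ^ 2 = 1 / s ^ 2 * (q ^ (2 * d))⁻¹ := by
    rw [hD, hη]
    have : q ^ (4 * d) = q ^ (2 * d) * (q ^ d) ^ 2 := by
      rw [← pow_mul, ← pow_add]
      congr 1
      ring
    rw [this, inv_pow]
    field_simp
  have hq2 : (q ^ (2 * d))⁻¹ ≤ q⁻¹ := by
    refine inv_anti₀ hq0 ?_
    exact le_self_pow₀ hq (by omega)
  unfold cmean
  rw [norm_smul, norm_inv, Real.norm_of_nonneg two_pi_pos'.le, inv_mul_le_iff₀ two_pi_pos']
  refine hn3.trans ?_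
  have e3 : 1 / R * (M / D * (2 * Real.pi)) + 2 * Real.pi * (d * Real.pi * η +
      D / (s * η ^ d) ^ 2) =
      2 * Real.pi * (1 / R * (M / D) + d * Real.pi * η + D / (s * η ^ d) ^ 2) := by ring
  rw [e3, e1, e2]
  refine mul_le_mul_of_nonneg_left ?_ two_pi_pos'.le
  have h1 : M * (q ^ (4 * d))⁻¹ ≤ M * q⁻¹ := mul_le_mul_of_nonneg_left hq1 hM0
  have h2 : 1 / s ^ 2 * (q ^ (2 * d))⁻¹ ≤ 1 / s ^ 2 * q⁻¹ :=
    mul_le_mul_of_nonneg_left hq2 (by positivity)
  have h3 : d * Real.pi * η ≤ 4 * d * q⁻¹ := by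
    have h4 := Real.pi_le_four
    have h5 : (0 : ℝ) ≤ d * q⁻¹ := by positivity
    rw [hη]
    nlinarith
  have h4 : (M + 4 * d + 1 / s ^ 2) / q = M * q⁻¹ + 4 * d * q⁻¹ + 1 / s ^ 2 * q⁻¹ := by
    rw [div_eq_mul_inv]
    ring
  rw [h4]
  linarith

end Pool.Agent.N903.EV
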