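import Pool.Agent.N903.ED.EC
import Pool.Agent.N903.EL.CF
import Pool.Agent.H921R2.TatePole.Radical

/-!
# The Euler factors above a prime number as functions of `p^{-z}`
-/

set_option autoImplicit false
set_option linter.unusedSectionVars false

namespace Pool.Agent.N903.EV

open Finset Filter Topology NumberField IsDedekindDomain Pool.Agent.H921R2.TatePole
  Pool.Agent.H341R2 Pool.Agent.H341R2.EC Pool.Agent.W350.Edge Pool.Agent.W350.EdgeV
  Pool.Agent.W350.EdgeNF Pool.Agent.W350.EdgeEC Pool.Agent.N903.ED Pool.Agent.N903.EL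

variable {K : Type} [Field K] [NumberField K]

/-- The prime number below `v`. -/
noncomputable def pc (v : HeightOneSpectrum (𝓞 K)) : ℕ := (below v : ℕ)

lemma pc_prime (v : HeightOneSpectrum (𝓞 K)) : (pc v).Prime := (below v).2

lemma nm_pc (v : HeightOneSpectrum (𝓞 K)) : nm v = pc v ^ deg v := (nm_eq v).1

lemma deg_pos (v : HeightOneSpectrum (𝓞 K)) : 1 ≤ deg v := (nm_eq v).2.1

lemma deg_le (v : HeightOneSpectrum (𝓞 K)) : deg v ≤ Module.finrank ℚ K := by
  have hdvd : v.asIdeal ∣ Ideal.span {(((below v : ℕ) : 𝓞 K))} := by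
    rw [Ideal.dvd_iff_le, Ideal.span_singleton_le_iff_mem]
    exact (nm_eq v).2.2
  have h2 : Ideal.absNorm v.asIdeal ∣ Ideal.absNorm (Ideal.span {(((below v : ℕ) : 𝓞 K))}) :=
    map_dvd Ideal.absNorm hdvd
  rw [Ideal.absNorm_span_natCast, RingOfIntegers.rank] at h2
  have h1 : Ideal.absNorm v.asIdeal = (below v : ℕ) ^ deg v := (nm_eq v).1
  rw [h1] at h2
  exact (Nat.pow_dvd_pow_iff_le_right (below v).prop.one_lt).mp h2

lemma mem_iff (v : HeightOneSpectrum (𝓞 K)) (p : ℕ) (hp : p.Prime) :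
    (p : 𝓞 K) ∈ v.asIdeal ↔ pc v = p := by
  constructor
  · intro h
    have := below_eq_of_mem (p := ⟨p, hp⟩) h
    exact congrArg Subtype.val this
  · rintro rfl
    exact (nm_eq v).2.2

lemma fib_finite (p : ℕ) : ((pc : HeightOneSpectrum (𝓞 K) → ℕ) ⁻¹' {p}).Finite := by
  by_cases hp : p.Prime
  · have h1 := Pool.Agent.H921R2.TatePole.fiber_finite (K := K) (⟨p, hp⟩ : Nat.Primes)
    have h2 : {v : HeightOneSpectrum (𝓞 K) | below v = (⟨p, hp⟩ : Nat.Primes)}.Finite :=
      @Set.toFinite _ {v : HeightOneSpectrum (𝓞 K) | below v = (⟨p, hp⟩ : Nat.Primes)} h1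
    exact h2.subset fun v hv => Subtype.ext hv
  · refine Set.Finite.subset Set.finite_empty fun v hv => ?_
    exact hp (hv ▸ pc_prime v)

variable (K) in
/-- The places above `p`. -/
noncomputable def fib (p : ℕ) : Finset (HeightOneSpectrum (𝓞 K)) := (fib_finite p).toFinset

lemma mem_fib (v : HeightOneSpectrum (𝓞 K)) (p : ℕ) : v ∈ fib K p ↔ pc v = p := by
  unfold fib
  rw [Set.Finite.mem_toFinset]
  rfl

lemma card_fib (p : ℕ) : (fib K p).card ≤ Module.finrank ℚ K := by
  by_cases hp : p.Prime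
  · exact card_above ⟨p, hp⟩ _ fun v hv => Subtype.ext ((mem_fib v p).1 hv)
  · have : fib K p = ∅ := by
      refine eq_empty_of_forall_notMem fun v hv => hp ?_
      rw [← (mem_fib v p).1 hv]
      exact pc_prime v
    rw [this, card_empty]
    exact Nat.zero_le _

/-- `p^{-z}`. -/
noncomputable def X (p : ℕ) (z : ℂ) : ℂ := Complex.exp (-z * Real.log p)

lemma X_ph (p : ℕ) (τ : ℝ) : X p (τ * Complex.I) = ph p τ := by
  unfold X ph
  congr 1
  ring

lemma norm_X (p : ℕ) (hp : 1 ≤ p) (z : ℂ) (hz : 0 ≤ z.re) : ‖X p z‖ ≤ 1 := by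
  unfold X
  rw [norm_exp_log z hp]
  exact Real.rpow_le_one_of_one_le_of_nonpos (by exact_mod_cast hp) (by linarith)

lemma exists_X (p : ℕ) (hp : 2 ≤ p) (x : ℂ) (hx0 : x ≠ 0) (hx : ‖x‖ ≤ 1) :
    ∃ z : ℂ, 0 ≤ z.re ∧ X p z = x := by
  have hlog : 0 < Real.log p := Real.log_pos (by exact_mod_cast hp)
  have hlogC : (Real.log p : ℂ) ≠ 0 := by exact_mod_cast hlog.ne'
  refine ⟨-Complex.log x / Real.log p, ?_, ?_⟩
  · rw [Complex.div_ofReal_re, Complex.neg_re, Complex.log_re]
    refine div_nonneg ?_ hlog.le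
    have := Real.log_nonpos (norm_nonneg x) hx
    linarith
  · unfold X
    rw [neg_div, neg_neg, div_mul_cancel₀ _ hlogC, Complex.exp_log hx0]

section
variable (W : WeierstrassCurve (𝓞 K)) (V : Set (HeightOneSpectrum (𝓞 K)))

/-- The first coefficient. -/
noncomputable def al (v : HeightOneSpectrum (𝓞 K)) : ℂ :=
  (trace W v : ℂ) * (((Real.sqrt (nm v) : ℝ) : ℂ))⁻¹ / nm v

/-- The second coefficient. -/
noncomputable def be (v : HeightOneSpectrum (𝓞 K)) : ℂ := (nm v : ℂ) ^ (-2 : ℂ)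

/-- `1 - 1/L_v` as a function of `p^{-z}`. -/
noncomputable def ux (v : HeightOneSpectrum (𝓞 K)) (x : ℂ) : ℂ :=
  al W v * x ^ deg v - be v * x ^ (2 * deg v)

open Classical in
/-- The logarithm of the Euler factor. -/
noncomputable def lnx (v : HeightOneSpectrum (𝓞 K)) (x : ℂ) : ℂ :=
  if v ∈ V then -Complex.log (1 - ux W v x) else 0

/-- The main term. -/
noncomputable def mx (v : HeightOneSpectrum (𝓞 K)) (x : ℂ) : ℂ :=
  an' W V v / nm v * x ^ deg v

/-- The remainder of a place. -/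
noncomputable def TT (v : HeightOneSpectrum (𝓞 K)) (x : ℂ) : ℂ :=
  (lnx W V v x - mx W V v x) + if (nm v).Prime then 0 else mx W V v x

lemma exp_log_nm (v : HeightOneSpectrum (𝓞 K)) (z : ℂ) :
    Complex.exp (-z * Real.log (nm v)) = X (pc v) z ^ deg v := by
  unfold X
  rw [← Complex.exp_nat_mul, nm_pc v]
  congr 1
  push_cast
  rw [Real.log_pow]
  push_cast
  ring

lemma mt_mx (z : ℂ) (v : HeightOneSpectrum (𝓞 K)) :
    ED.mt nm (an' W V) z v = mx W V v (X (pc v) z) := by
  unfold ED.mt mx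
  rw [exp_log_nm]

lemma u1_ux (z : ℂ) (v : HeightOneSpectrum (𝓞 K)) : u1 W v z = ux W v (X (pc v) z) := by
  unfold u1 ux ED.mt al be
  rw [exp_log_nm]
  congr 1
  have h1 : (nm v : ℂ) ^ (1 - 2 * (((3 / 2 : ℝ) : ℂ) + z)) =
      (nm v : ℂ) ^ (-2 : ℂ) * (nm v : ℂ) ^ (-(2 * z)) := by
    rw [← Complex.cpow_add _ _ (nmC_ne v)]
    congr 1
    push_cast
    ring
  rw [h1]
  congr 1
  rw [pow_mul, pow_right_comm, ← exp_log_nm, Complex.cpow_def_of_ne_zero (nmC_ne v),
    ← Complex.exp_nat_mul]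
  congr 1
  have hlog : Complex.log (nm v : ℂ) = ((Real.log (nm v) : ℝ) : ℂ) := by
    rw [← Complex.ofReal_natCast, Complex.ofReal_log (nm_pos v).le]
  rw [hlog]
  push_cast
  ring

variable {W V} (hV : ∀ v ∈ V, IsGood W v)
include hV

lemma ln_lnx (v : HeightOneSpectrum (𝓞 K)) (z : ℂ) (hz : 0 ≤ z.re) :
    ln' W V v z = lnx W V v (X (pc v) z) := by
  by_cases hv : v ∈ V
  · rw [ln_eq hV hv hz, u1_ux]
    unfold lnx
    rw [if_pos hv]
  · unfold ln' lnx
    rw [if_neg hv, if_neg hv]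

lemma norm_ux {v : HeightOneSpectrum (𝓞 K)} (hv : v ∈ V) {x : ℂ} (hx : ‖x‖ ≤ 1) :
    ‖ux W v x‖ ≤ 11 / 25 := by
  by_cases hx0 : x = 0
  · subst hx0
    unfold ux
    have h1 := deg_pos v
    rw [zero_pow (by omega), zero_pow (by omega), mul_zero, mul_zero, sub_zero, norm_zero]
    norm_num
  · obtain ⟨z, hz, hzx⟩ := exists_X (pc v) (pc_prime v).two_le x hx0 hx
    rw [← hzx, ← u1_ux]
    exact (norm_u1 (hV v hv) hz).2

lemma slitx {v : HeightOneSpectrum (𝓞 K)} (hv : v ∈ V) {x : ℂ} (hx : ‖x‖ ≤ 1) :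
    1 - ux W v x ∈ Complex.slitPlane := by
  refine Or.inl ?_
  have h3 := norm_ux hV hv hx
  have h4 := Complex.re_le_norm (ux W v x)
  rw [Complex.sub_re, Complex.one_re]
  linarith

omit hV in
lemma continuous_ux (v : HeightOneSpectrum (𝓞 K)) : Continuous (ux W v) := by
  unfold ux
  fun_prop

omit hV in
lemma differentiable_ux (v : HeightOneSpectrum (𝓞 K)) : Differentiable ℂ (ux W v) := by
  unfold ux
  fun_prop

lemma continuousOn_lnx (v : HeightOneSpectrum (𝓞 K)) :
    ContinuousOn (lnx W V v) (Metric.closedBall 0 1) := by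
  by_cases hv : v ∈ V
  · have h1 : lnx W V v = fun x => -Complex.log (1 - ux W v x) := by
      funext x
      unfold lnx
      rw [if_pos hv]
    rw [h1]
    exact (ContinuousOn.clog (continuous_const.sub (continuous_ux v)).continuousOn
      fun x hx => slitx hV hv (mem_closedBall_zero_iff.1 hx)).neg
  · have h1 : lnx W V v = fun x => 0 := by
      funext x
      unfold lnx
      rw [if_neg hv]
    rw [h1]
    exact continuousOn_const

lemma differentiableOn_lnx (v : HeightOneSpectrum (𝓞 K)) :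
    DifferentiableOn ℂ (lnx W V v) (Metric.ball 0 1) := by
  by_cases hv : v ∈ V
  · have h1 : lnx W V v = fun x => -Complex.log (1 - ux W v x) := by
      funext x
      unfold lnx
      rw [if_pos hv]
    rw [h1]
    exact (DifferentiableOn.clog ((differentiable_const _).sub
      (differentiable_ux v)).differentiableOn
      fun x hx => slitx hV hv (mem_ball_zero_iff.1 hx).le).neg
  · have h1 : lnx W V v = fun x => 0 := by
      funext x
      unfold lnx
      rw [if_neg hv]
    rw [h1]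
    exact differentiableOn_const _

omit hV in
lemma lnx_zero (v : HeightOneSpectrum (𝓞 K)) : lnx W V v 0 = 0 := by
  unfold lnx ux
  have h1 := deg_pos v
  rw [zero_pow (by omega), zero_pow (by omega), mul_zero, mul_zero, sub_zero, sub_zero,
    Complex.log_one, neg_zero, ite_self]

omit hV in
variable (W V) in
/-- The remainder at `p`. -/
noncomputable def rr (p : ℕ) (x : ℂ) : ℂ := ∑ v ∈ fib K p, TT W V v x

omit hV in
variable (K) in
/-- Its bound. -/
noncomputable def rh (p : ℕ) : ℝ := ∑ v ∈ fib K p, (6 * (nm v : ℝ) ^ (-2 : ℝ) +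
  2 * (if (nm v).Prime then (0 : ℝ) else 1 / nm v))

omit hV in
/-- Regrouping. -/
lemma hasSum_fib {E : Type*} [NormedAddCommGroup E] [CompleteSpace E]
    (f : HeightOneSpectrum (𝓞 K) → E) (hf : Summable f) :
    HasSum (fun p => ∑ v ∈ fib K p, f v) (∑' v, f v) := by
  have h1 := hf.hasSum.tsum_fiberwise (pc : HeightOneSpectrum (𝓞 K) → ℕ)
  convert h1 using 2 with p
  rw [← Finset.tsum_subtype']
  have h2 : ((fib K p : Finset _) : Set (HeightOneSpectrum (𝓞 K))) = pc ⁻¹' {p} :=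
    (fib_finite p).coe_toFinset
  rw [h2]

omit hV in
lemma fib_empty (p : ℕ) (hp : ¬ p.Prime) : fib K p = ∅ :=
  eq_empty_of_forall_notMem fun v hv => hp (by
    rw [← (mem_fib v p).1 hv]
    exact pc_prime v)

lemma norm_TT (v : HeightOneSpectrum (𝓞 K)) (x : ℂ) (hx : ‖x‖ = 1) :
    ‖TT W V v x‖ ≤ 6 * (nm v : ℝ) ^ (-2 : ℝ) +
      2 * (if (nm v).Prime then (0 : ℝ) else 1 / nm v) := by
  have hx0 : x ≠ 0 := by
    intro h
    rw [h, norm_zero] at hx
    exact zero_ne_one hx
  obtain ⟨z, hz, rfl⟩ := exists_X (pc v) (pc_prime v).two_le x hx0 hx.le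
  have h1 := rm_bound hN hpow hlow (an' W V) 2 (norm_an' hV) (ln' W V) 6
      (fun v z hz => ln_rem hV v z hz) v z hz
  rwa [ln_lnx hV v z hz, mt_mx] at h1

lemma norm_rr (p : ℕ) (x : ℂ) (hx : ‖x‖ = 1) : ‖rr W V p x‖ ≤ rh K p :=
  norm_sum_le_of_le _ fun v _ => norm_TT hV v x hx

omit hV in
lemma summable_rh : Summable (rh K) := by
  have h1 : Summable fun v : HeightOneSpectrum (𝓞 K) => 6 * (nm v : ℝ) ^ (-2 : ℝ) +
      2 * (if (nm v).Prime then (0 : ℝ) else 1 / nm v) :=
    ((hpow 2 one_lt_two).mul_left 6).add (hlow.mul_left 2)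
  exact (hasSum_fib _ h1).summable

lemma continuousOn_rr (p : ℕ) : ContinuousOn (rr W V p) (Metric.sphere 0 1) := by
  unfold rr TT
  refine continuousOn_finsetSum _ fun v _ => ?_
  have hm : Continuous fun x => mx W V v x := by
    unfold mx
    fun_prop
  refine (((continuousOn_lnx hV v).mono Metric.sphere_subset_closedBall).sub
    hm.continuousOn).add ?_
  split_ifs
  · exact continuousOn_const
  · exact hm.continuousOn

omit hV in
lemma rr_zero (p : ℕ) (hp : ¬ p.Prime) (x : ℂ) : rr W V p x = 0 := by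
  unfold rr
  rw [fib_empty p hp, sum_empty]

/-- The remainder on the edge. -/
lemma rm_rr (τ : ℝ) : rm nm (an' W V) (ln' W V) (τ * Complex.I) = ∑' p, rr W V p (ph p τ) := by
  have h0 : (0 : ℝ) ≤ ((τ : ℂ) * Complex.I).re := by simp
  unfold rm
  have h1 : Summable fun v => (ln' W V v (τ * Complex.I) - ED.mt nm (an' W V) (τ * Complex.I) v) +
      (if (nm v).Prime then 0 else ED.mt nm (an' W V) (τ * Complex.I) v) := by
    refine Summable.of_norm_bounded (rm_summable hN hpow hlow (an' W V) 2 (norm_an' hV) (ln' W V) 6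
      (fun v z hz => ln_rem hV v z hz)) fun v =>
      rm_bound hN hpow hlow (an' W V) 2 (norm_an' hV) (ln' W V) 6
        (fun v z hz => ln_rem hV v z hz) v _ h0
  rw [← (hasSum_fib _ h1).tsum_eq]
  refine tsum_congr fun p => ?_
  unfold rr TT
  refine sum_congr rfl fun v hv => ?_
  rw [ln_lnx hV v _ h0, mt_mx, X_ph, (mem_fib v p).1 hv]

/-- The local function. -/
lemma gp_eq (p : ℕ) (hp : p.Prime) (x : ℂ) :
    gp (cf (N := nm) (an' W V)) (rr W V) p x = ∑ v ∈ fib K p, lnx W V v x := by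
  classical
  unfold gp cf grp
  rw [if_pos hp, if_pos hp]
  have h1 : ∑' v : (nm : HeightOneSpectrum (𝓞 K) → ℕ) ⁻¹' {p}, an' W V v =
      ∑ v ∈ (fib K p).filter fun v => nm v = p, an' W V v := by
    rw [← Finset.tsum_subtype']
    have h2 : (((fib K p).filter fun v => nm v = p : Finset _) : Set (HeightOneSpectrum (𝓞 K))) =
        nm ⁻¹' {p} := by
      ext v
      rw [mem_coe, mem_filter, mem_fib, Set.mem_preimage, Set.mem_singleton_iff]
      refine ⟨fun h => h.2, fun h => ⟨?_, h⟩⟩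
      have h3 := nm_pc v
      rw [h] at h3
      have h4 : pc v ∣ p := by
        rw [h3]
        exact dvd_pow_self _ (by have := deg_pos v; omega)
      exact (Nat.prime_dvd_prime_iff_eq (pc_prime v) hp).1 h4
    rw [h2]
  rw [h1]
  unfold rr TT
  rw [sum_div, sum_mul, sum_filter, ← sum_add_distrib]
  refine sum_congr rfl fun v hv => ?_
  have h3 := (mem_fib v p).1 hv
  by_cases h4 : nm v = p
  · have h5 : deg v = 1 := by
      have h6 := nm_pc v
      rw [h4, h3] at h6
      have h7 : p ^ 1 = p ^ deg v := by rw [pow_one]; exact h6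
      exact (Nat.pow_right_injective hp.two_le h7).symm
    rw [if_pos h4, if_pos (by rw [h4]; exact hp)]
    unfold mx
    rw [h5, h4, pow_one]
    ring
  · have h5 : ¬ (nm v).Prime := by
      intro h6
      apply h4
      have h7 := nm_pc v
      rw [h3] at h7
      have h8 : p ∣ nm v := by
        rw [h7]
        exact dvd_pow_self _ (by have := deg_pos v; omega)
      exact ((Nat.prime_dvd_prime_iff_eq hp h6).1 h8).symm
    rw [if_neg h4, if_neg h5]
    ring

/-- The logarithm of the Euler factors above `p`. -/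
lemma logL_above (p : ℕ) (hp : p.Prime) (z : ℂ) (hz : 0 ≤ z.re) :
    logL W (V ∩ {v | (p : 𝓞 K) ∈ v.asIdeal}) (((3 / 2 : ℝ) : ℂ) + z) =
      ∑ v ∈ fib K p, lnx W V v (X p z) := by
  classical
  unfold logL
  rw [tsum_subtype (V ∩ {v | (p : 𝓞 K) ∈ v.asIdeal})
    fun v => Complex.log (localFactor W v (((3 / 2 : ℝ) : ℂ) + z))]
  rw [tsum_eq_sum (s := fib K p)]
  · refine sum_congr rfl fun v hv => ?_
    have h1 := (mem_fib v p).1 hv
    rw [← h1, ← ln_lnx hV v z hz]
    unfold ln'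
    rw [Set.indicator_apply]
    congr 1
    apply propext
    rw [Set.mem_inter_iff, Set.mem_ofPred_eq]
    exact ⟨fun h => h.1, fun h => ⟨h, (mem_iff v (pc v) (pc_prime v)).2 rfl⟩⟩
  · intro v hv
    rw [Set.indicator_of_notMem]
    rintro ⟨-, h2⟩
    exact hv ((mem_fib v p).2 ((mem_iff v p hp).1 h2))

end

end Pool.Agent.N903.EV
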