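import Pool.Agent.N903.EV.Joint
import Pool.Agent.N903.EV.Mangoldt

/-!
# One elliptic curve and distinct shifts are independent
-/

set_option autoImplicit false
set_option linter.unusedSectionVars false

namespace Pool.Agent.N903.EV

open Finset Filter Topology MeasureTheory NumberField IsDedekindDomain
  Pool.Agent.H921R2.TatePole Pool.Agent.H341R2 Pool.Agent.H341R2.EC Pool.Agent.W350.Edge
  Pool.Agent.W350.EdgeV Pool.Agent.W350.EdgeNF Pool.Agent.W350.EdgeEC Pool.Agent.N903.ED
  Pool.Agent.N903.EL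
open scoped ComplexConjugate

/-! ### Fourier coefficients -/

/-- The Fourier coefficient. -/
noncomputable def FC (P : Polynomial ℂ) (k : ℕ) : ℂ :=
  ∫ θ in (0 : ℝ)..(2 * Real.pi), EL.GG P (ee 1 θ) * ee (-(k : ℤ)) θ

/-- The Fourier coefficients after a rotation. -/
lemma FC_rot (P : Polynomial ℂ) (η : ℂ) (hη : ‖η‖ = 1) (k : ℕ) :
    ∫ θ in (0 : ℝ)..(2 * Real.pi), EL.GG P (η * ee 1 θ) * ee (-(k : ℤ)) θ = η ^ k * FC P k := by
  obtain ⟨α, rfl⟩ := exists_ee η hη
  have hmul : ∀ (m : ℤ) (θ : ℝ), ee m (θ + α) = ee m θ * ee m α := by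
    intro m θ
    unfold ee
    rw [← Complex.exp_add]
    congr 1
    push_cast
    ring
  have h1 : ∀ θ, EL.GG P (ee 1 α * ee 1 θ) * ee (-(k : ℤ)) θ =
      ee 1 α ^ k * (EL.GG P (ee 1 (θ + α)) * ee (-(k : ℤ)) (θ + α)) := by
    intro θ
    rw [hmul 1 θ, hmul (-(k : ℤ)) θ, mul_comm (ee 1 θ) (ee 1 α), ee_one_pow]
    have h2 : ee (k : ℤ) α * ee (-(k : ℤ)) α = 1 := by
      rw [ee_mul, add_neg_cancel, ee_zero]
    calc EL.GG P (ee 1 α * ee 1 θ) * ee (-(k : ℤ)) θ =
        (ee (k : ℤ) α * ee (-(k : ℤ)) α) * (EL.GG P (ee 1 α * ee 1 θ) * ee (-(k : ℤ)) θ) := by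
          rw [h2, one_mul]
      _ = _ := by ring
  simp only [h1]
  rw [intervalIntegral.integral_const_mul]
  congr 1
  have hper : Function.Periodic (fun θ => EL.GG P (ee 1 θ) * ee (-(k : ℤ)) θ) (2 * Real.pi) :=
    fun θ => by simp only [ee_periodic 1 θ, ee_periodic (-(k : ℤ)) θ]
  rw [intervalIntegral.integral_comp_add_right
    (fun θ => EL.GG P (ee 1 θ) * ee (-(k : ℤ)) θ) α]
  have h2 := hper.intervalIntegral_add_eq (0 + α) 0
  unfold FC
  rw [zero_add α, zero_add (2 * Real.pi)] at h2
  rw [zero_add α, add_comm (2 * Real.pi) α]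
  exact h2

/-- Some Fourier coefficient does not vanish. -/
lemma exists_FC (P : Polynomial ℂ) (m : ℕ) (hdeg : P.natDegree ≤ m) (h0 : P.coeff 0 = 1)
    (hs : ∑ k ∈ Icc 1 m, ‖P.coeff k‖ ≤ 1 / 2) (hP : 1 ≤ P.natDegree) :
    ∃ k ∈ Icc 1 m, FC P k ≠ 0 := by
  by_contra hcon
  push Not at hcon
  have h1 : ∀ k, 1 ≤ k → k ≤ m → P.coeff k = 0 := by
    intro k hk hkm
    have h2 := coeff_id P m hdeg h0 hs k
    have h3 : ∑ j ∈ range (m + 1), P.coeff j *
        ∫ θ in (0 : ℝ)..(2 * Real.pi), EL.GG P (ee 1 θ) * ee ((j : ℤ) - k) θ = 0 := by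
      refine sum_eq_zero fun j _ => ?_
      rcases Nat.lt_or_ge j k with hj | hj
      · have h4 := hcon (k - j) (mem_Icc.2 (by omega))
        unfold FC at h4
        have h5 : (-((k - j : ℕ) : ℤ)) = (j : ℤ) - k := by omega
        rw [h5] at h4
        rw [h4, mul_zero]
      · have h4 := int_GG P m hdeg h0 hs (j - k)
        have h5 : (((j - k : ℕ) : ℤ)) = (j : ℤ) - k := by omega
        rw [h5] at h4
        rw [h4, mul_zero]
    rw [h3] at h2
    have h4 : ((2 * Real.pi : ℝ) : ℂ) * k * P.coeff k = 0 := by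
      rw [← neg_eq_zero]
      exact h2.symm
    have h5 : ((2 * Real.pi : ℝ) : ℂ) * k ≠ 0 := by
      refine mul_ne_zero (by exact_mod_cast two_pi_pos'.ne') ?_
      exact_mod_cast (by omega : k ≠ 0)
    exact (mul_eq_zero.1 h4).resolve_left h5
  have h2 := h1 P.natDegree hP hdeg
  rw [Polynomial.coeff_natDegree, Polynomial.leadingCoeff_eq_zero] at h2
  rw [h2, Polynomial.natDegree_zero] at hP
  omega

/-! ### The places above large primes -/

section
variable {K : Type} [Field K] [NumberField K]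

lemma exists_above (p : ℕ) (hp : p.Prime) : ∃ v : HeightOneSpectrum (𝓞 K), v ∈ fib K p := by
  have h1 : Ideal.span {(p : 𝓞 K)} ≠ ⊤ := by
    intro h
    have h2 := Ideal.absNorm_span_natCast (S := 𝓞 K) p
    rw [h, Ideal.absNorm_top, RingOfIntegers.rank] at h2
    have h3 : 0 < Module.finrank ℚ K := Module.finrank_pos
    have h4 : 1 < p ^ Module.finrank ℚ K := Nat.one_lt_pow h3.ne' hp.one_lt
    omega
  obtain ⟨M, hM, hpM⟩ := Ideal.exists_le_maximal _ h1
  have hmem : (p : 𝓞 K) ∈ M := hpM (Ideal.mem_span_singleton_self _)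
  have hbot : M ≠ ⊥ := by
    rintro rfl
    rw [Ideal.mem_bot] at hmem
    have : p = 0 := by exact_mod_cast hmem
    exact hp.ne_zero this
  refine ⟨⟨M, hM.isPrime, hbot⟩, ?_⟩
  rw [mem_fib]
  exact (mem_iff _ p hp).1 hmem

variable (W : WeierstrassCurve (𝓞 K)) (V : Set (HeightOneSpectrum (𝓞 K)))

lemma be_ne (v : HeightOneSpectrum (𝓞 K)) : be v ≠ 0 := by
  unfold be
  rw [Ne, Complex.cpow_eq_zero_iff]
  intro h
  exact nmC_ne v h.1

lemma PV_deg (v : HeightOneSpectrum (𝓞 K)) (hv : v ∈ V) : 1 ≤ (PV W V v).natDegree := by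
  have hd := deg_pos v
  have h1 : (PV W V v).coeff (2 * deg v) ≠ 0 := by
    unfold PV
    rw [if_pos hv, Polynomial.coeff_add, Polynomial.coeff_sub, Polynomial.coeff_one,
      Polynomial.coeff_C_mul, Polynomial.coeff_X_pow, Polynomial.coeff_C_mul,
      Polynomial.coeff_X_pow, if_neg (by omega), if_neg (by omega), if_pos rfl]
    simpa using be_ne v
  have h2 := Polynomial.le_natDegree_of_ne_zero h1
  omega

lemma PP_deg (p : ℕ) (v : HeightOneSpectrum (𝓞 K)) (hv : v ∈ V) (hvp : v ∈ fib K p) :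
    1 ≤ (PP W V p).natDegree := by
  have hne : ∀ w ∈ fib K p, PV W V w ≠ 0 := by
    intro w _ h
    have := PV_zero W V w
    rw [h, Polynomial.eval_zero] at this
    exact zero_ne_one this
  unfold PP
  rw [Polynomial.natDegree_prod _ _ hne]
  exact (PV_deg W V v hv).trans
    (single_le_sum (f := fun w => (PV W V w).natDegree) (fun _ _ => Nat.zero_le _) hvp)

/-- One curve and distinct shifts are independent. -/
theorem independent_same {n : ℕ} (hV : ∀ v ∈ V, IsGood W v) (hcof : Vᶜ.Finite) (h : Fin n → ℝ)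
    (hinj : Function.Injective h) :
    Independent (K := fun _ => K) (fun _ => W) (fun _ => V) h := by
  classical
  intro u hu x
  by_contra hcon
  push Not at hcon
  obtain ⟨p₀, hp₀⟩ := exists_p0 (Module.finrank ℚ K)
  set m : ℕ := Module.finrank ℚ K * (2 * Module.finrank ℚ K) with hm
  -- large primes
  obtain ⟨x₁, hx₁⟩ : ∃ x₁ : ℕ, ∀ v : HeightOneSpectrum (𝓞 K), v ∉ V → pc v < x₁ := by
    refine ⟨(hcof.toFinset.image pc).sup id + 1, fun v hv => ?_⟩
    have h1 : pc v ∈ hcof.toFinset.image pc :=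
      mem_image_of_mem _ ((Set.Finite.mem_toFinset _).2 hv)
    have h2 : pc v ≤ (hcof.toFinset.image pc).sup id := Finset.le_sup (f := id) h1
    omega
  -- the exponential polynomials
  set F : ℕ → AddMonoidAlgebra ℂ ℝ := fun k =>
    ∑ j, AddMonoidAlgebra.single ((k : ℝ) * h j) (u j) with hF
  set ev : ℕ → (AddMonoidAlgebra ℂ ℝ →ₐ[ℂ] ℂ) := fun p => AddMonoidAlgebra.lift ℂ ℂ ℝ
    { toFun := fun l => ph p (Multiplicative.toAdd l)
      map_one' := by
        show ph p 0 = 1
        unfold ph
        simp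
      map_mul' := fun a b => by
        show ph p (Multiplicative.toAdd a + Multiplicative.toAdd b) = _
        exact ph_add p _ _ } with hev
  have hevs : ∀ (p : ℕ) (l : ℝ) (b : ℂ), ev p (AddMonoidAlgebra.single l b) = b * ph p l := by
    intro p l b
    simp only [hev]
    rw [AddMonoidAlgebra.lift_single]
    rfl
  have hFne : ∀ k ∈ Icc 1 m, F k ≠ 0 := by
    intro k hk h0
    obtain ⟨j₀, hj₀⟩ : ∃ j, u j ≠ 0 := by
      by_contra h1
      push Not at h1
      exact hu (funext h1)
    have hk0 : (k : ℝ) ≠ 0 := by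
      have := (mem_Icc.1 hk).1
      exact_mod_cast (by omega : k ≠ 0)
    have h1 : (F k).coeff ((k : ℝ) * h j₀) = u j₀ := by
      simp only [hF]
      rw [AddMonoidAlgebra.coeff_sum, Finsupp.finsetSum_apply, sum_eq_single j₀]
      · rw [AddMonoidAlgebra.coeff_single, Finsupp.single_eq_same]
      · intro j _ hj
        rw [AddMonoidAlgebra.coeff_single, Finsupp.single_apply, if_neg]
        intro h2
        exact hj (hinj (mul_left_cancel₀ hk0 h2))
      · intro h2
        exact absurd (mem_univ j₀) h2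
    rw [h0] at h1
    exact hj₀ h1.symm
  have hprod : (∏ k ∈ Icc 1 m, F k) ≠ 0 := prod_ne_zero_iff.2 hFne
  apply hprod
  have key : ∀ p : ℕ, p.Prime → x + x₁ + p₀ ≤ p → ev p (∏ k ∈ Icc 1 m, F k) = 0 := by
    intro p hp hpx
    obtain ⟨v, hv⟩ := exists_above (K := K) p hp
    have hvV : v ∈ V := by
      by_contra h1
      have h2 := hx₁ v h1
      rw [(mem_fib v p).1 hv] at h2
      omega
    have hsmall := PP_small hV m p (hp₀ p (by omega))
    have hdeg := natDegree_PP W V p
    have hzero := PP_zero W V p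
    obtain ⟨k, hk, hFC⟩ := exists_FC (PP W V p) m hdeg hzero hsmall (PP_deg W V p v hvV hv)
    -- the combination vanishes on the disc
    set f : ℂ → ℂ := fun x => ∑ j, u j *
      LJ (K := fun _ : Fin n => K) (fun _ => W) (fun _ => V) j p (ph p (h j) * x) with hf
    have hV' : ∀ j : Fin n, ∀ v ∈ (fun _ : Fin n => V) j, IsGood ((fun _ : Fin n => W) j) v :=
      fun _ => hV
    have hD : DiffContOnCl ℂ f (Metric.ball 0 1) :=
      diffContOnCl_LJ (K := fun _ : Fin n => K) (fun _ => W) (fun _ => V) hV' p _ _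
        fun j => norm_ph p (h j)
    have hball : Set.EqOn f (fun _ => 0) (Metric.ball (0 : ℂ) 1) := by
      intro y hy
      rw [mem_ball_zero_iff] at hy
      by_cases hy0 : y = 0
      · subst hy0
        simp only [hf]
        unfold LJ
        refine sum_eq_zero fun j _ => ?_
        rw [mul_zero, sum_eq_zero (fun v _ => lnx_zero v), mul_zero]
      · obtain ⟨z, hz, rfl⟩ := exists_X p hp.two_le y hy0 hy.le
        have hz0 : 0 < z.re := by
          rcases hz.lt_or_eq with h1 | h1
          · exact h1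
          · exfalso
            unfold X at hy
            rw [norm_exp_log z hp.one_le, ← h1, neg_zero, Real.rpow_zero] at hy
            exact lt_irrefl _ hy
        have hre : (((3 / 2 : ℝ) : ℂ) + z).re = 3 / 2 + z.re := by
          rw [Complex.add_re, Complex.ofReal_re]
        have h1 := hcon p (by omega) hp (((3 / 2 : ℝ) : ℂ) + z) (by rw [hre]; linarith)
        rw [comb_LJ (K := fun _ : Fin n => K) (fun _ => W) (fun _ => V) h hV' p hp u _
          (by rw [hre]; linarith)] at h1
        have h2 : ((3 / 2 : ℝ) : ℂ) + z - ((3 / 2 : ℝ) : ℂ) = z := by ring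
        rw [h2] at h1
        exact h1
    have hclosed : Set.EqOn f (fun _ => 0) (Metric.closedBall (0 : ℂ) 1) := by
      refine hball.of_subset_closure ?_ continuousOn_const Metric.ball_subset_closedBall ?_
      · have := hD.continuousOn
        rwa [closure_ball (0 : ℂ) one_ne_zero] at this
      · rw [closure_ball (0 : ℂ) one_ne_zero]
    -- the derivative on the circle
    have hder : ∀ θ : ℝ, ∑ j, u j * EL.GG (PP W V p) (ph p (h j) * ee 1 θ) = 0 := by
      intro θ
      have h1 : HasDerivAt (fun θ => f (ee 1 θ))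
          (∑ j, u j * (Complex.I * EL.GG (PP W V p) (ph p (h j) * ee 1 θ))) θ :=
        HasDerivAt.fun_sum fun j _ =>
          (hasDerivAt_sum hV p (ph p (h j)) (norm_ph p (h j)) θ).const_mul (u j)
      have h2 : (fun θ => f (ee 1 θ)) = fun _ => 0 := by
        funext θ
        exact hclosed (mem_closedBall_zero_iff.2 (norm_ee 1 θ).le)
      rw [h2] at h1
      have h3 := h1.unique (hasDerivAt_const θ (0 : ℂ))
      have h4 : Complex.I * ∑ j, u j * EL.GG (PP W V p) (ph p (h j) * ee 1 θ) = 0 := by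
        rw [← h3, mul_sum]
        exact sum_congr rfl fun j _ => by ring
      exact (mul_eq_zero.1 h4).resolve_left Complex.I_ne_zero
    have hcont : ∀ j, Continuous fun θ => EL.GG (PP W V p) (ph p (h j) * ee 1 θ) := by
      intro j
      unfold EL.GG
      refine Continuous.neg (Continuous.div ?_ ?_ fun θ => ?_)
      · exact (continuous_const.mul (continuous_ee 1)).mul
          ((PP W V p).derivative.continuous.comp (continuous_const.mul (continuous_ee 1)))
      · exact (PP W V p).continuous.comp (continuous_const.mul (continuous_ee 1))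
      · refine eval_ne (PP W V p) m hdeg hzero hsmall _ ?_
        rw [norm_mul, norm_ph, norm_ee, one_mul]
    have hcoef : ∑ j, u j * ph p (h j) ^ k = 0 := by
      have h1 : ∫ θ in (0 : ℝ)..(2 * Real.pi),
          ∑ j, u j * (EL.GG (PP W V p) (ph p (h j) * ee 1 θ) * ee (-(k : ℤ)) θ) = 0 := by
        have h2 : ∀ θ, ∑ j, u j * (EL.GG (PP W V p) (ph p (h j) * ee 1 θ) * ee (-(k : ℤ)) θ) =
            0 := by
          intro θ
          rw [← zero_mul (ee (-(k : ℤ)) θ), ← hder θ, sum_mul]
          exact sum_congr rfl fun j _ => by ring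
        simp only [h2, intervalIntegral.integral_zero]
      have hii : ∀ j ∈ (univ : Finset (Fin n)), IntervalIntegrable
          (fun θ => u j * (EL.GG (PP W V p) (ph p (h j) * ee 1 θ) * ee (-(k : ℤ)) θ)) volume
          0 (2 * Real.pi) := fun j _ =>
        (continuous_const.mul ((hcont j).mul (continuous_ee _))).intervalIntegrable _ _
      rw [intervalIntegral.integral_finsetSum hii] at h1
      simp only [intervalIntegral.integral_const_mul, FC_rot (PP W V p) _ (norm_ph p _)] at h1
      have h2 : (∑ j, u j * ph p (h j) ^ k) * FC (PP W V p) k = 0 := by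
        rw [← h1, sum_mul]
        exact sum_congr rfl fun j _ => by ring
      exact (mul_eq_zero.1 h2).resolve_right hFC
    have hFk : ev p (F k) = 0 := by
      simp only [hF, map_sum, hevs]
      rw [← hcoef]
      refine sum_congr rfl fun j _ => ?_
      congr 1
      unfold ph
      rw [← Complex.exp_nat_mul]
      congr 1
      push_cast
      ring
    rw [map_prod]
    exact prod_eq_zero hk hFk
  have h1 : (∏ k ∈ Icc 1 m, F k).coeff = 0 := by
    refine vanish _ (x + x₁ + p₀) fun p hp hpx => ?_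
    have h2 := key p hp hpx
    simp only [hev] at h2
    rw [AddMonoidAlgebra.lift_apply] at h2
    exact h2
  have h2 : (∏ k ∈ Icc 1 m, F k).coeff = (0 : AddMonoidAlgebra ℂ ℝ).coeff := by
    rw [h1]
    rfl
  exact AddMonoidAlgebra.coeff_injective h2

end

end Pool.Agent.N903.EV
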